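import Pool.Agent.H90.G.S8.H914R2.APos

/-!
# Positivity: the two parts together
-/

open Finset Polynomial

namespace Pool.Agent.H914

variable {K : Type*} [Field K] [CharZero K] {V : Type*} [AddCommGroup V] [Module K V]
  [Module.Finite K V] {gr : ℕ → Submodule K V} {n : ℕ} {L : Module.End K V}
  {B : V →ₗ[K] V →ₗ[K] K} {C : ℕ → Set V}

omit [CharZero K] [Module.Finite K V] in
lemma B_proj (h : DirectSum.IsInternal gr)
    (hdeg : ∀ i j, ∀ a ∈ gr i, ∀ b ∈ gr j, i + j ≠ 2 * n → B a b = 0) {l : ℕ} {c : V}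
    (hc : c ∈ gr l) (y : V) (i : ℕ) : B (proj h i y) c = if i + l = 2 * n then B y c else 0 := by
  refine gr_induction h
    (p := fun y => B (proj h i y) c = if i + l = 2 * n then B y c else 0) ?_ ?_ y
  · intro j a ha
    by_cases hij : j = i
    · subst hij
      rw [proj_same h ha]
      split_ifs with h1
      · rfl
      · exact hdeg _ _ _ ha _ hc h1
    · rw [proj_ne h ha hij, map_zero, LinearMap.zero_apply]
      split_ifs with h1
      · rw [hdeg _ _ _ ha _ hc (by omega)]
      · rfl
  · intro a b ha hb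
    rw [map_add, map_add, LinearMap.add_apply, ha, hb]
    split_ifs
    · rw [map_add, LinearMap.add_apply]
    · rw [add_zero]

/-- The trace on the complement. -/
lemma trace_compl {S : Submodule K V} {p A : Module.End K V} (hA : ∀ y ∈ S, A y ∈ S)
    (hp1 : ∀ y, y - p y ∈ S) (hp2 : ∀ y ∈ S, p y = 0) :
    LinearMap.trace K S (A.restrict hA) = LinearMap.trace K V A - LinearMap.trace K V (A * p) := by
  have h1 : ∀ x, (A * (1 - p)) x ∈ S := fun x => hA _ (hp1 x)
  have h2 := LinearMap.trace_restrict_eq_of_forall_mem S (A * (1 - p)) h1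
  have h3 : LinearMap.restrict (A * (1 - p)) (fun x (_ : x ∈ S) => h1 x) = A.restrict hA := by
    apply LinearMap.ext
    intro x
    apply Subtype.ext
    change A ((x : V) - p x) = A x
    rw [hp2 x x.2, sub_zero]
  rw [h3] at h2
  rw [h2, mul_sub, mul_one, map_sub]

set_option maxHeartbeats 4000000 in
/-- **The assembly theorem.** -/
theorem assembly (h : DirectSum.IsInternal gr) (hbd : ∀ i, 2 * n + 1 ≤ i → gr i = ⊥)
    (hL : IsHom gr 2 L) (hHL : HardLef gr n L) (hC : AlgPart gr n L B C)
    (hnd : ∀ b, (∀ a, B a b = 0) → b = 0) {G G' T T' : Module.End K V}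
    {q : ℕ} (hq : 0 < q) (hGgr : IsHom gr 0 G)
    (hGL : G * L = (q : K) • (L * G)) (hGC : ∀ l, ∀ c ∈ C l, G c = (q : K) ^ l • c)
    (hGadj : ∀ a b, B (G a) b = B a (G' b)) (hGG : G' * G = ((q : K) ^ n) • 1)
    (hGG' : G * G' = ((q : K) ^ n) • 1)
    (hGs : ∃ P : K[X], Squarefree P ∧ P.natDegree = Module.finrank K (Tpart B C) ∧
      ∀ Q : K[X], (∀ a ∈ Tpart B C, aeval G Q a = 0) → P ∣ Q)
    (hRH : ∀ i, ∃ P : ℚ[X], P ≠ 0 ∧ (∀ a ∈ gr i, ev G P a = 0) ∧
      ∀ z : ℂ, aeval z P = 0 → ‖z‖ ^ 2 = (q : ℝ) ^ i)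
    {r : ℕ} (hT : IsHom gr (2 * -(r : ℤ)) T) (hT' : IsHom gr (2 * -(r : ℤ)) T')
    (hTadj : ∀ a b, B (T a) b = B a (T' b))
    (hTC : ∀ l, ∀ c ∈ C l, r ≤ l → T c ∈ C (l - r))
    (hTC' : ∀ l, ∀ c ∈ C l, r ≤ l → T' c ∈ C (l - r))
    (hTG : T * G = (q : K) ^ r • (G * T)) (hTG' : T' * G = (q : K) ^ r • (G * T'))
    (hprim : ((dbl L) ^ (2 * r + 1)) T = 0)
    (htr0 : ∀ k : ℕ, ∃ s : ℚ, LinearMap.trace K V (par h * G ^ k) = s)
    (htr1 : ∀ k : ℕ, ∃ s : ℚ, LinearMap.trace K V (par h * (L ^ r * T * G ^ k)) = s) {s : ℚ}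
    (htr : (-1 : K) ^ (n + r) * LinearMap.trace K V (par h * ((dbl L) ^ (2 * r)) T * T') = s) :
    0 ≤ s ∧ (s = 0 → T = 0) := by
  classical
  obtain ⟨Lam, t, hLamh, hval⟩ := exists_sl2 h hL hbd hHL
  obtain ⟨w, hw1, -, hw3, hw4⟩ := exists_weyl t
  have hq0 : (q : K) ≠ 0 := by exact_mod_cast hq.ne'
  have hlow : ∀ i ≤ n, ∀ a ∈ gr i, (L ^ (n - i + 1)) a = 0 → Lam a = 0 := by
    intro i hi a ha hp
    have := hval i hi a ha hp 0 (by omega)
    simpa using this
  have hH : ∀ i, ∀ a ∈ gr i, wt h n a = ((i : K) - n) • a := by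
    intro i a ha
    rw [wt, scal_apply h _ ha, node]
    push_cast; rfl
  obtain ⟨κ, _, l, x, φ, p, hp⟩ := hC.exists_projData t hw1 hw3 hlow hH hL hbd
  have hwC : ∀ l, l ≤ n → ∀ c ∈ C l, w c ∈ C (n - l) := fun l hl c hc =>
    hC.weyl_mem t hw1 hw3 hlow hH hL hbd hl hc
  set S := Tpart B C with hS
  -- degrees
  have hTlow : ∀ {A : Module.End K V}, IsHom gr (2 * -(r : ℤ)) A → ∀ l, l < r → ∀ c ∈ C l,
      A c = 0 := by
    intro A hA l hl c hc
    have h1 := hA ((2 * l : ℕ) : ℤ) c (by rw [grZ_natCast]; exact hC.sub l c hc)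
    rw [grZ_of_neg (by push_cast; omega)] at h1
    exact (Submodule.mem_bot _).1 h1
  have hparC : ∀ l, ∀ c ∈ C l, par h c = c := by
    intro l c hc
    rw [par, scal_apply h _ (hC.sub l c hc), pow_mul]
    simp
  -- stability of the complement
  have hSL : ∀ y ∈ S, L y ∈ S := by
    intro y hy l c hc
    rw [hC.self]
    exact hy _ _ (hC.map_L _ _ hc)
  have hLamC : ∀ l, ∀ c ∈ C l, Lam c ∈ C (l - 1) := by
    intro l c hc
    obtain ⟨u, hu, hs⟩ := hC.decomp hL hbd hc
    rw [hs, map_sum]
    apply hC.sum_mem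
    intro b hb
    rw [Finset.mem_range] at hb
    obtain ⟨h1, h2, h3⟩ := hu b (by omega)
    by_cases h0 : (L ^ b) (u b) = 0
    · rw [h0, map_zero]; exact hC.zero _
    have hu0 : u b ≠ 0 := by rintro h; apply h0; rw [h, map_zero]
    have h4 := h2 hu0
    have h5 : b ≤ n - 2 * (l - b) := by
      by_contra h6
      exact h0 (L_pow_gt (n := n) (i := 2 * (l - b)) h3 (by omega))
    rw [hval _ h4 _ (hC.sub _ _ h1) h3 b h5]
    rcases Nat.eq_zero_or_pos b with rfl | hb0
    · simp only [Nat.cast_zero, zero_mul, zero_smul]; exact hC.zero _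
    · have h6 := hC.map_L_pow (b - 1) h1
      rw [show l - b + (b - 1) = l - 1 by omega] at h6
      have h7 := hC.smul _ ((b : ℚ) * (((n - 2 * (l - b) : ℕ) : ℚ) - b + 1)) _ h6
      push_cast at h7
      exact h7
  have hSLam : ∀ y ∈ S, Lam y ∈ S := by
    intro y hy l c hc
    rw [lam_self h hL hbd hHL hC.self hC.deg hval]
    exact hy _ _ (hLamC _ _ hc)
  have hG'C : ∀ l, ∀ c ∈ C l, G' c = (((q : K) ^ l)⁻¹ * (q : K) ^ n) • c := by
    intro l c hc
    have h1 := congrArg (fun F => F c) hGG
    simp only [Module.End.mul_apply, LinearMap.smul_apply, Module.End.one_apply] at h1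
    rw [hGC l c hc, map_smul] at h1
    rw [← inv_smul_smul₀ (pow_ne_zero l hq0) (G' c), h1, smul_smul]
  have hSG : ∀ y ∈ S, G y ∈ S := by
    intro y hy l c hc
    rw [hGadj, hG'C l c hc, map_smul, hy _ _ hc, smul_zero]
  have hGadj' : ∀ a b, B (G' a) b = B a (G b) := by
    intro a b
    have h1 : (q : K) ^ n • B (G' a) b = (q : K) ^ n • B a (G b) := by
      have e1 := congrArg (fun F => F b) hGG
      have e2 := congrArg (fun F => F a) hGG'
      simp only [Module.End.mul_apply, LinearMap.smul_apply, Module.End.one_apply] at e1 e2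
      rw [← map_smul, ← e1, ← hGadj, e2, map_smul, LinearMap.smul_apply]
    exact smul_right_injective K (pow_ne_zero n hq0) h1
  have hSG' : ∀ y ∈ S, G' y ∈ S := by
    intro y hy l c hc
    rw [hGadj', hGC l c hc, map_smul, hy _ _ hc, smul_zero]
  have hST : ∀ y ∈ S, T y ∈ S := by
    intro y hy l c hc
    rw [hTadj]
    by_cases hl : r ≤ l
    · exact hy _ _ (hTC' _ _ hc hl)
    · rw [hTlow hT' l (by omega) c hc, map_zero]
  have hTadj2 : ∀ l, ∀ c ∈ C l, ∀ y, B (T' y) c = B y (T c) := by
    intro l c hc y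
    rw [← hC.symm l c (hC.sub _ _ hc), ← hTadj]
    by_cases hl : r ≤ l
    · exact hC.symm _ _ (hC.sub _ _ (hTC _ _ hc hl)) _
    · rw [hTlow hT l (by omega) c hc]; simp
  have hST' : ∀ y ∈ S, T' y ∈ S := by
    intro y hy l c hc
    rw [hTadj2 l c hc]
    by_cases hl : r ≤ l
    · exact hy _ _ (hTC _ _ hc hl)
    · rw [hTlow hT l (by omega) c hc, map_zero]
  have hSproj : ∀ y ∈ S, ∀ i, proj h i y ∈ S := by
    intro y hy i l c hc
    rw [B_proj h hC.deg (hC.sub _ _ hc)]
    split_ifs
    · exact hy _ _ hc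
    · rfl
  have hgrS := isInternal_grS h (N := 2 * n + 1) hbd hSproj
  have hbdS : ∀ i, 2 * n + 1 ≤ i → grS gr S i = ⊥ := by
    intro i hi
    rw [eq_bot_iff]
    intro y hy
    rw [mem_grS, hbd i hi, Submodule.mem_bot] at hy
    rw [Submodule.mem_bot]
    exact Subtype.ext hy
  have hparS : ∀ y : S, (par hgrS y : V) = par h y := fun y => scal_coe h hgrS _ y
  have hparmem : ∀ y ∈ S, par h y ∈ S := fun y hy => by
    have := hparS ⟨y, hy⟩
    rw [← this]; exact (par hgrS ⟨y, hy⟩).2
  -- rational traces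
  have htrS : ∀ {A : Module.End K V} (hA : ∀ y ∈ S, A y ∈ S), LinearMap.trace K S (A.restrict hA) =
      LinearMap.trace K V A - LinearMap.trace K V (A * p) := fun hA =>
    trace_compl hA hp.compl hp.kill
  have hratp : ∀ {A : Module.End K V}, (∀ l, ∀ c ∈ C l, A c ∈ C l) →
      ∃ s : ℚ, LinearMap.trace K V (par h * A * p) = s := by
    intro A hA
    rw [trace_alg hp]
    have h1 : ∀ k, ∃ s : ℚ, B ((par h * A) (x k)) (w (x k)) = s := by
      intro k
      rw [Module.End.mul_apply, hparC _ _ (hA _ _ (hp.mem k))]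
      exact hC.rat _ _ _ (hA _ _ (hp.mem k)) _ (hwC _ (hp.le k) _ (hp.mem k))
    choose σ hσ using h1
    refine ⟨∑ k, (φ k)⁻¹ * σ k, ?_⟩
    push_cast
    exact Finset.sum_congr rfl (fun k _ => by rw [hσ])
  have hGkC : ∀ k : ℕ, ∀ l, ∀ c ∈ C l, (G ^ k) c ∈ C l := by
    intro k
    induction k with
    | zero => intro l c hc; simpa using hc
    | succ k ih =>
      intro l c hc
      rw [pow_succ, Module.End.mul_apply, hGC l c hc, map_smul]
      have := hC.smul _ ((q : ℚ) ^ l) _ (ih l c hc)
      push_cast at this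
      exact this
  have hUC : ∀ l, ∀ c ∈ C l, (L ^ r * T) c ∈ C l := by
    intro l c hc
    rw [Module.End.mul_apply]
    by_cases hl : r ≤ l
    · have := hC.map_L_pow r (hTC _ _ hc hl)
      rwa [Nat.sub_add_cancel hl] at this
    · rw [hTlow hT l (by omega) c hc, map_zero]; exact hC.zero _
  have hSLr : ∀ (k : ℕ), ∀ y ∈ S, (L ^ k) y ∈ S := by
    intro k
    induction k with
    | zero => intro y hy; simpa using hy
    | succ k ih => intro y hy; rw [pow_succ, Module.End.mul_apply]; exact ih _ (hSL _ hy)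
  have hSGk : ∀ (k : ℕ), ∀ y ∈ S, (G ^ k) y ∈ S := by
    intro k
    induction k with
    | zero => intro y hy; simpa using hy
    | succ k ih => intro y hy; rw [pow_succ, Module.End.mul_apply]; exact ih _ (hSG _ hy)
  have hSU : ∀ y ∈ S, (L ^ r * T) y ∈ S := fun y hy => hSLr r _ (hST y hy)
  -- the restricted operators
  set GS : Module.End K S := G.restrict hSG with hGS
  set TS : Module.End K S := T.restrict hST with hTS
  set TS' : Module.End K S := T'.restrict hST' with hTS'
  set LS : Module.End K S := L.restrict hSL with hLS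
  set LamS : Module.End K S := Lam.restrict hSLam with hLamS
  set GS' : Module.End K S := G'.restrict hSG' with hGS'
  have hcomm : ∀ a : ℕ, (L ^ a) * G = ((q : K) ^ a)⁻¹ • (G * L ^ a) := by
    intro a
    induction a with
    | zero => simp
    | succ a ih =>
      have h1 : L * G = (q : K)⁻¹ • (G * L) := by
        rw [hGL, smul_smul, inv_mul_cancel₀ hq0, one_smul]
      have h2 : L ^ (a + 1) * G = ((q : K) ^ a)⁻¹ • ((q : K)⁻¹ • (G * L ^ (a + 1))) := by
        rw [pow_succ' L, mul_assoc, ih, mul_smul_comm, ← mul_assoc L G, h1, smul_mul_assoc,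
          mul_assoc]
      rw [h2, smul_smul, pow_succ (q : K), mul_inv]
  have hUG : (L ^ r * T) * G = G * (L ^ r * T) := by
    rw [mul_assoc, hTG, mul_smul_comm, ← mul_assoc, hcomm r, smul_mul_assoc,
      smul_smul, mul_inv_cancel₀ (pow_ne_zero _ hq0), one_smul, mul_assoc]
  have hsimple : HasSimple GS := by
    obtain ⟨P, h1, h2, h3⟩ := hGs
    refine ⟨P, h1, h2, fun Q hQ => h3 Q fun a ha => ?_⟩
    have := restrict_aeval hSG Q ⟨a, ha⟩
    rw [← hGS, hQ] at this
    exact this.symm
  have hparG : par h * G = G * par h := by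
    have := IsHom.par_comm (d := 0) h (y := G) (by simpa using hGgr)
    exact this
  obtain ⟨g, hg⟩ := exists_rat_of_traces (G := GS) (U := LS ^ r * TS) (ε := par hgrS) hsimple
    (by
      apply LinearMap.ext
      intro y
      apply Subtype.ext
      have := congrArg (fun F => F (y : V)) hUG
      rw [Module.End.mul_apply, Module.End.mul_apply, Module.End.mul_apply, Module.End.mul_apply]
      rw [hLS, restrict_pow]
      change (L ^ r) (T (G y)) = G ((LS ^ r) (TS y) : S)
      rw [hLS, restrict_pow]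
      exact this)
    (by
      apply LinearMap.ext
      intro y
      apply Subtype.ext
      have := congrArg (fun F => F (y : V)) hparG
      rw [Module.End.mul_apply, Module.End.mul_apply, hparS]
      change par h (G y) = G (par hgrS y : S)
      rw [hparS]
      exact this)
    (par_mul_par hgrS)
    (by
      intro k
      obtain ⟨s₁, hs₁⟩ := htr0 k
      obtain ⟨s₂, hs₂⟩ := hratp (A := G ^ k) (hGkC k)
      refine ⟨s₁ - s₂, ?_⟩
      have hA : ∀ y ∈ S, (par h * G ^ k) y ∈ S := fun y hy => hparmem _ (hSGk k y hy)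
      have h1 : par hgrS * GS ^ k = (par h * G ^ k).restrict hA := by
        apply LinearMap.ext
        intro y
        apply Subtype.ext
        rw [Module.End.mul_apply, hparS, hGS, restrict_pow]
        rfl
      rw [h1, htrS hA, hs₁, hs₂]
      push_cast; rfl)
    (by
      intro k
      obtain ⟨s₁, hs₁⟩ := htr1 k
      obtain ⟨s₂, hs₂⟩ := hratp (A := L ^ r * T * G ^ k)
        (fun l c hc => hUC l _ (hGkC k l c hc))
      refine ⟨s₁ - s₂, ?_⟩
      have hA : ∀ y ∈ S, (par h * (L ^ r * T * G ^ k)) y ∈ S := fun y hy =>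
        hparmem _ (hSU _ (hSGk k y hy))
      have h1 : par hgrS * (LS ^ r * TS * GS ^ k) = (par h * (L ^ r * T * G ^ k)).restrict hA := by
        apply LinearMap.ext
        intro y
        apply Subtype.ext
        rw [Module.End.mul_apply, hparS, Module.End.mul_apply, Module.End.mul_apply, hLS,
          restrict_pow]
        change par h ((L ^ r) (T ((GS ^ k) y : S))) = _
        rw [hGS, restrict_pow]
        rfl
      rw [h1, htrS hA, hs₁, hs₂]
      push_cast; rfl)
  -- the transposed identity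
  have hevadj : ∀ (g : ℚ[X]) (a b : V), B (ev G g a) b = B a (ev G' g b) := by
    intro g a b
    have hpow : ∀ (k : ℕ) (a b : V), B ((G ^ k) a) b = B a ((G' ^ k) b) := by
      intro k
      induction k with
      | zero => intro a b; simp
      | succ k ih =>
        intro a b
        rw [pow_succ, Module.End.mul_apply, ih, hGadj, ← Module.End.mul_apply, ← pow_succ']
    induction g using Polynomial.induction_on' with
    | add g₁ g₂ h1 h2 =>
      rw [map_add, map_add, LinearMap.add_apply, map_add, LinearMap.add_apply, h1, h2,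
        LinearMap.add_apply, map_add]
    | monomial k c =>
      rw [← C_mul_X_pow_eq_monomial, map_mul, map_mul, map_pow, map_pow, ev_C, ev_C, ev_X, ev_X,
        smul_mul_assoc, smul_mul_assoc, one_mul, one_mul, LinearMap.smul_apply, map_smul,
        LinearMap.smul_apply, hpow, LinearMap.smul_apply, map_smul]
  have hSL' : ∀ (k : ℕ) (a b : V), B ((L ^ k) a) b = B a ((L ^ k) b) := fun k a b =>
    hC.self_pow k a b
  have hevS : ∀ (g : ℚ[X]) (y : S), (ev GS g y : V) = ev G g y := fun g y =>
    restrict_aeval hSG _ y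
  have hevS' : ∀ (g : ℚ[X]) (y : S), (ev GS' g y : V) = ev G' g y := fun g y =>
    restrict_aeval hSG' _ y
  have hg' : TS' * LS ^ r = ev GS' g := by
    apply LinearMap.ext
    intro y
    apply Subtype.ext
    have e1 : ((TS' * LS ^ r) y : V) = T' ((L ^ r) y) := by
      rw [Module.End.mul_apply]
      change T' ((LS ^ r) y : S) = _
      rw [hLS, restrict_pow]
    rw [e1, hevS', ← sub_eq_zero]
    have hmemS : T' ((L ^ r) y) - ev G' g y ∈ S := by
      rw [← e1, ← hevS']
      exact Submodule.sub_mem _ (Subtype.mem _) (Subtype.mem _)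
    apply hnd
    intro a
    have ha : a = p a + (a - p a) := by abel
    rw [ha, map_add, LinearMap.add_apply]
    have e2 : B (p a) (T' ((L ^ r) y) - ev G' g y) = 0 := by
      rw [hp.p_eq, map_sum, LinearMap.sum_apply]
      apply Finset.sum_eq_zero
      intro k _
      rw [map_smul, LinearMap.smul_apply, hC.symm _ _ (hC.sub _ _ (hp.mem k)),
        hmemS _ _ (hp.mem k), smul_zero]
    have e3 : B (a - p a) (T' ((L ^ r) y) - ev G' g y) = 0 := by
      have e4 : (L ^ r) (T (a - p a)) = ev G g (a - p a) := by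
        have e5 := congrArg (fun F => ((F ⟨a - p a, hp.compl a⟩ : S) : V)) hg
        beta_reduce at e5
        rw [hevS, Module.End.mul_apply, hLS, restrict_pow] at e5
        exact e5
      rw [map_sub, ← hTadj, ← hSL', e4, ← hevadj, sub_self]
    rw [e2, e3, add_zero]
  -- the decomposition of the trace
  have hHT : wt h n * T - T * wt h n = -((2 * r : ℕ) : K) • T := by
    rw [hT.wt_comm h n, add_sub_cancel_left]
    congr 1
    push_cast; ring
  have hD : ((dbl L) ^ (2 * r)) T = ((2 * r).factorial : K) • (w * T * w) := hw4 r T hHT hprim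
  obtain ⟨sa, hsa, hsa0, hsaz⟩ := hC.apart_pos t hw1 hw3 hlow hH hL hbd hp (r := r) (T := T)
    (T' := T') (ε := par h) hparC hTadj hTC hTC' (hTlow hT) (hTlow hT')
  rw [← hD] at hsa
  have hSD : ∀ y ∈ S, (((dbl L) ^ (2 * r)) T) y ∈ S := by
    intro y hy
    have := restrict_dbl hSL (2 * r) hST ⟨y, hy⟩
    rw [← this]
    exact Subtype.mem _
  have hGLS : GS * LS = (q : K) • (LS * GS) := by
    apply LinearMap.ext
    intro y
    apply Subtype.ext
    have := congrArg (fun F => F (y : V)) hGL
    exact this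
  have hLamG : ∀ y, Lam (G y) = (q : K) • G (Lam y) := by
    have hG0 : ∀ i, ∀ a ∈ gr i, G a ∈ gr i := by
      intro i a ha
      have := hGgr i a (by rw [grZ_natCast]; exact ha)
      rwa [add_zero, grZ_natCast] at this
    have hLG : ∀ (k : ℕ) (y : V), (L ^ k) (G y) = ((q : K) ^ k)⁻¹ • G ((L ^ k) y) := by
      intro k y
      have := congrArg (fun F => F y) (hcomm k)
      exact this
    have hGLk : ∀ (k : ℕ) (y : V), G ((L ^ k) y) = (q : K) ^ k • (L ^ k) (G y) := by
      intro k y
      rw [hLG, smul_smul, mul_inv_cancel₀ (pow_ne_zero _ hq0), one_smul]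
    intro y
    refine lef_induction' h hL hbd hHL (p := fun y => Lam (G y) = (q : K) • G (Lam y)) ?_ ?_ y
    · intro a b ha hb
      rw [map_add, map_add, map_add, ha, hb, map_add, smul_add]
    · intro i hi u hu hpu j
      by_cases hj : n - i < j
      · rw [L_pow_gt hpu hj, map_zero, map_zero, map_zero, smul_zero]
      · have hGu := hG0 i u hu
        have hpGu : (L ^ (n - i + 1)) (G u) = 0 := by rw [hLG, hpu, map_zero, smul_zero]
        rw [hGLk, map_smul, hval i hi _ hGu hpGu j (by omega), hval i hi _ hu hpu j (by omega),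
          map_smul, hGLk, smul_smul, smul_smul, smul_smul]
        rcases Nat.eq_zero_or_pos j with rfl | h0
        · simp
        · congr 1
          obtain ⟨j, rfl⟩ : ∃ j', j = j' + 1 := ⟨j - 1, by omega⟩
          rw [Nat.add_sub_cancel, pow_succ]
          ring
  have hLGS : LamS * GS = (q : K) • (GS * LamS) := by
    apply LinearMap.ext
    intro y
    apply Subtype.ext
    exact hLamG y
  have tS : Sl2 (wt hgrS n) LS LamS := by
    have hwtS : ∀ y : S, (wt hgrS n y : V) = wt h n y := fun y => scal_coe h hgrS _ y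
    refine ⟨?_, ?_, ?_⟩
    · apply LinearMap.ext
      intro y
      apply Subtype.ext
      rw [hwtS]
      exact congrArg (fun F => F (y : V)) t.ef
    · apply LinearMap.ext
      intro y
      apply Subtype.ext
      have h1 := congrArg (fun F => F (y : V)) t.he
      rw [two_mul] at h1 ⊢
      have h2 : (((wt hgrS n * LS - LS * wt hgrS n) y : S) : V) =
          wt h n (L y) - L (wt hgrS n y : S) := by
        rw [LinearMap.sub_apply, Submodule.coe_sub, Module.End.mul_apply, hwtS]
        rfl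
      rw [h2, hwtS]
      exact h1
    · apply LinearMap.ext
      intro y
      apply Subtype.ext
      have h1 := congrArg (fun F => F (y : V)) t.hf
      rw [two_mul] at h1 ⊢
      have h2 : (((wt hgrS n * LamS - LamS * wt hgrS n) y : S) : V) =
          wt h n (Lam y) - Lam (wt hgrS n y : S) := by
        rw [LinearMap.sub_apply, Submodule.coe_sub, Module.End.mul_apply, hwtS]
        rfl
      rw [h2, hwtS]
      exact h1
  have hTGS : ∀ {A : Module.End K V} (hA : ∀ y ∈ S, A y ∈ S), A * G = (q : K) ^ r • (G * A) →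
      A.restrict hA * GS = (q : K) ^ r • (GS * A.restrict hA) := by
    intro A hA hAG
    apply LinearMap.ext
    intro y
    apply Subtype.ext
    exact congrArg (fun F => F (y : V)) hAG
  have hprimS : ((dbl LS) ^ (2 * r + 1)) TS = 0 := by
    apply LinearMap.ext
    intro y
    apply Subtype.ext
    rw [hLS, hTS, restrict_dbl, hprim]
    rfl
  have hGGS : GS' * GS = ((q : K) ^ n) • 1 := by
    apply LinearMap.ext
    intro y
    apply Subtype.ext
    exact congrArg (fun F => F (y : V)) hGG
  have hRHS : ∀ i, ∃ P : ℚ[X], P ≠ 0 ∧ (∀ a ∈ grS gr S i, ev GS P a = 0) ∧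
      ∀ z : ℂ, aeval z P = 0 → ‖z‖ ^ 2 = (q : ℝ) ^ i := by
    intro i
    obtain ⟨P, h1, h2, h3⟩ := hRH i
    refine ⟨P, h1, fun a ha => ?_, h3⟩
    apply Subtype.ext
    rw [hevS]
    exact h2 a ha
  have hZ : ∀ y ∈ S, (par h * ((dbl L) ^ (2 * r)) T * T') y ∈ S := fun y hy =>
    hparmem _ (hSD _ (hST' _ hy))
  have htrt : (-1 : K) ^ (n + r) * LinearMap.trace K S
      (par hgrS * ((dbl LS) ^ (2 * r)) TS * TS') = ((s - sa : ℚ) : K) := by
    have h1 : par hgrS * ((dbl LS) ^ (2 * r)) TS * TS' =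
        (par h * ((dbl L) ^ (2 * r)) T * T').restrict hZ := by
      apply LinearMap.ext
      intro y
      apply Subtype.ext
      rw [Module.End.mul_apply, Module.End.mul_apply, hparS, hLS, hTS, restrict_dbl]
      rfl
    rw [h1, htrS hZ, mul_sub, htr]
    push_cast
    congr 1
  obtain ⟨ht0, htz⟩ := tmain (s := s - sa) hgrS hbdS tS hq (isHom_restrict hGgr hSG) hGLS hLGS
    hsimple hRHS (isHom_restrict hT hST) (isHom_restrict hT' hST') (hTGS hST hTG)
    (hTGS hST' hTG') hprimS hGGS hg hg' htrt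
  refine ⟨by linarith, ?_⟩
  intro hs
  have h1 : sa = 0 := by linarith
  have h2 : s - sa = 0 := by linarith
  have h3 := hsaz h1
  have h4 := htz h2
  apply LinearMap.ext
  intro v
  have hv : v = p v + (v - p v) := by abel
  have e1 : T (v - p v) = 0 := by
    have := congrArg (fun F => ((F ⟨v - p v, hp.compl v⟩ : S) : V)) h4
    exact this
  have e2 : T (p v) = 0 := by
    rw [hp.p_eq, map_sum]
    apply Finset.sum_eq_zero
    intro k _
    rw [map_smul, h3 _ _ (hp.mem k), smul_zero]
  rw [hv, map_add, e1, e2]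
  simp

end Pool.Agent.H914
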