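import Pool.Agent.H90.G.S8.H914R2.HodgeDefs
import Pool.Agent.H90.G.S8.H914R2.KLef
import Pool.Agent.H90.G.S8.H914R2.Asm
import Pool.Agent.H90.G.S8.H914R2.PolyPow

/-!
# Geometry of `X × X`: intersection numbers as traces
-/

open CategoryTheory AlgebraicGeometry Finset

universe u v

namespace Pool.Agent.H914

open VarClass Obj WeilCohomology

variable {k : Type u} [Field k] {𝒱 : VarClass k} {ops : CycleOps 𝒱}
  {W : WeilCohomology.{u, v} ops} {X Y Z : 𝒱.Obj}

/-- The intersection form on the cohomology. -/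
noncomputable def bil (W : WeilCohomology.{u, v} ops) (X : 𝒱.Obj) :
    W.H X →ₗ[W.K] W.H X →ₗ[W.K] W.K :=
  (LinearMap.mul W.K (W.H X)).compr₂ (W.tr X)

lemma bil_apply (a b : W.H X) : bil W X a b = W.tr X (a * b) := rfl

/-- The class of `D ^ i z`. -/
lemma cl_divPow (D : X.Cycles) (i : ℕ) (z : X.Cycles) :
    W.cl X (divPow ops D i z) = (LinearMap.mulLeft W.K (W.cl X D) ^ i) (W.cl X z) := by
  induction i with
  | zero => rfl
  | succ i ih =>
    rw [divPow, Function.iterate_succ_apply', W.cl_mul, pow_succ', Module.End.mul_apply,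
      LinearMap.mulLeft_apply, ← ih]
    rfl

lemma divPow_mem {D : X.Cycles} (hD : X.IsCyc 1 D) (i : ℕ) {j : ℕ} {z : X.Cycles}
    (hz : X.IsCyc j z) : X.IsCyc (j + i) (divPow ops D i z) := by
  induction i with
  | zero => exact hz
  | succ i ih =>
    rw [divPow, Function.iterate_succ_apply', show j + (i + 1) = 1 + (j + i) by ring]
    exact ops.mul_mem hD ih

/-- A class on the product which induces the zero operator vanishes. -/
lemma corr_inj {c : W.H (X.prod Y)} (h : W.corr c = 0) : c = 0 := by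
  apply W.nondeg
  intro d
  refine W.kunneth_induction (p := fun d => W.tr (X.prod Y) (c * d) = 0) ?_ ?_ d
  · intro a b ha hb
    rw [mul_add, map_add, ha, hb, add_zero]
  · intro i j a _ b _
    rw [← mul_assoc, ← W.tr_push]
    have h1 := congrArg (fun F => F a) h
    rw [corr_apply, LinearMap.zero_apply] at h1
    rw [h1, zero_mul, map_zero]

/-- The operator induced by the transpose of an external product. -/
lemma corr_swap_tmul {i j : ℕ} {a : W.H X} (ha : a ∈ W.gr X i) {b : W.H Y} (hb : b ∈ W.gr Y j) :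
    W.corr (W.map (swap Y X) (W.map (fst X Y) a * W.map (snd X Y) b)) =
      (W.tr Y ∘ₗ LinearMap.mulLeft W.K b).smulRight a := by
  apply gr_ext (W.isInternal Y)
  intro l y hy
  rw [corr_apply, map_mul (W.map (swap Y X)), ← W.map_comp, ← W.map_comp, swap_fst, swap_snd,
    mul_assoc, ← map_mul (W.map (fst Y X)),
    W.comm (W.map_mem (snd Y X) ha) (W.map_mem (fst Y X) (W.mul_mem hb hy)), map_smul, push_snd,
    LinearMap.smulRight_apply, LinearMap.comp_apply, LinearMap.mulLeft_apply]
  by_cases hl : j + l = 2 * Y.dim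
  · rw [hl, mul_comm i, mul_assoc, pow_mul]
    simp
  · rw [W.tr_eq_zero (W.mul_mem hb hy) hl]
    simp

/-- The intersection number of two correspondences is a trace. -/
theorem tr_mul_eq_trace {p : ℕ} {c : W.H (X.prod X)} (hc : c ∈ W.gr _ (2 * p))
    (d : W.H (X.prod X)) :
    W.tr (X.prod X) (c * d) = LinearMap.trace W.K (W.H X)
      (par (W.isInternal X) * W.corr c * W.corr (W.map (swap X X) d)) := by
  refine W.kunneth_induction (p := fun d => W.tr (X.prod X) (c * d) =
    LinearMap.trace W.K (W.H X)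
      (par (W.isInternal X) * W.corr c * W.corr (W.map (swap X X) d))) ?_ ?_ d
  · intro a b ha hb
    rw [mul_add, map_add, map_add, corr_add, mul_add, map_add, ha, hb]
  · intro i j a ha b hb
    rw [corr_swap_tmul ha hb]
    have h1 : par (W.isInternal X) * W.corr c * (W.tr X ∘ₗ LinearMap.mulLeft W.K b).smulRight a =
        (W.tr X ∘ₗ LinearMap.mulLeft W.K b).smulRight (par (W.isInternal X) (W.corr c a)) := by
      apply LinearMap.ext
      intro y
      rw [Module.End.mul_apply, Module.End.mul_apply, LinearMap.smulRight_apply,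
        LinearMap.smulRight_apply, map_smul, map_smul]
    rw [h1, LinearMap.trace_smulRight, LinearMap.comp_apply, LinearMap.mulLeft_apply]
    have e1 : W.tr (X.prod X) (c * (W.map (fst X X) a * W.map (snd X X) b)) =
        W.tr X (W.corr c a * b) := by
      rw [corr_apply, W.tr_push, mul_assoc]
    rw [e1]
    have h2 := W.corr_isHom hc i a (by rw [grZ_natCast]; exact ha)
    by_cases hm : ∃ m : ℕ, (m : ℤ) = (i : ℤ) + 2 * ((p : ℤ) - X.dim)
    · obtain ⟨m, hm⟩ := hm
      rw [← hm, grZ_natCast] at h2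
      rw [par, scal_apply _ _ h2, mul_smul_comm, map_smul, W.comm hb h2, map_smul, smul_eq_mul,
        smul_eq_mul]
      by_cases hj : m + j = 2 * X.dim
      · have hev : Even (m + j * m) := by
          have : m + j * m = m * (j + 1) := by ring
          rw [this]
          rcases Nat.even_or_odd m with h | h
          · exact h.mul_right _
          · apply Even.mul_left
            have : Odd j := by
              rcases Nat.even_or_odd j with h' | h'
              · exfalso
                have := h.add_even h'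
                rw [hj] at this
                exact (Nat.not_even_iff_odd.2 this) (even_two_mul _)
              · exact h'
            exact this.add_one
        rw [← mul_assoc, ← pow_add, hev.neg_one_pow, one_mul]
      · rw [W.tr_eq_zero (W.mul_mem h2 hb) hj, mul_zero, mul_zero]
    · push Not at hm
      by_cases hneg : (i : ℤ) + 2 * ((p : ℤ) - X.dim) < 0
      · rw [grZ_of_neg hneg] at h2
        rw [(Submodule.mem_bot _).1 h2]
        simp
      · exact absurd (Int.toNat_of_nonneg (by omega)) (hm _)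

/-- Multiplication by `D × X + X × D` on the level of operators. -/
lemma corr_boxSum {D : X.Cycles} (hD : X.IsCyc 1 D) (c : W.H (X.prod X)) :
    W.corr (W.cl _ (boxSum ops D) * c) =
      dbl (LinearMap.mulLeft W.K (W.cl X D)) (W.corr c) := by
  have hξ : W.cl X D ∈ W.gr X (2 * 1) := W.cl_mem hD
  rw [boxSum, map_add, W.cl_pull, W.cl_pull, add_mul, corr_add, dbl_apply, add_comm]
  congr 1
  · apply LinearMap.ext
    intro a
    rw [corr_apply, Module.End.mul_apply, LinearMap.mulLeft_apply, corr_apply, mul_assoc,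
      ← W.mul_push _ hξ]
  · apply LinearMap.ext
    intro a
    rw [corr_apply, Module.End.mul_apply, LinearMap.mulLeft_apply, corr_apply,
      W.even_comm (W.map_mem _ hξ), mul_assoc, ← map_mul (W.map (fst X X))]

lemma corr_boxSum_pow {D : X.Cycles} (hD : X.IsCyc 1 D) (i : ℕ) (c : W.H (X.prod X)) :
    W.corr ((LinearMap.mulLeft W.K (W.cl _ (boxSum ops D)) ^ i) c) =
      (dbl (LinearMap.mulLeft W.K (W.cl X D)) ^ i) (W.corr c) := by
  induction i with
  | zero => rfl
  | succ i ih =>
    rw [pow_succ', Module.End.mul_apply, LinearMap.mulLeft_apply, corr_boxSum hD, ih, pow_succ',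
      Module.End.mul_apply]

lemma boxSum_mem {D : X.Cycles} (hD : X.IsCyc 1 D) : (X.prod X).IsCyc 1 (boxSum ops D) :=
  (ops.pull_mem _ hD).add (ops.pull_mem _ hD)

lemma mulLeft_isHom {D : X.Cycles} (hD : X.IsCyc 1 D) :
    IsHom (W.gr X) 2 (LinearMap.mulLeft W.K (W.cl X D)) := by
  have := rop_opAlg.hom (rop_mulLeft (W := W) hD)
  simpa using this

/-- The algebraic classes form a Lefschetz structure with Hodge-Riemann relations. -/
lemma algPart {D : X.Cycles} (hD : X.IsCyc 1 D) (hA : LefschetzA W X D)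
    (hH : HodgeType W X D) :
    AlgPart (W.gr X) X.dim (LinearMap.mulLeft W.K (W.cl X D)) (bil W X) (algClasses W X) where
  sub := by
    rintro l _ ⟨z, hz, rfl⟩
    exact W.cl_mem hz
  zero l := ⟨0, SmVar.IsCyc.zero _ _, map_zero _⟩
  add := by
    rintro l _ ⟨z, hz, rfl⟩ _ ⟨z', hz', rfl⟩
    exact ⟨z + z', hz.add hz', map_add _ _ _⟩
  smul := by
    rintro l q _ ⟨z, hz, rfl⟩
    exact ⟨q • z, hz.smul q, W.cl_smul q z⟩
  map_L := by
    rintro l _ ⟨z, hz, rfl⟩
    refine ⟨ops.mul D z, ?_, by rw [W.cl_mul]; rfl⟩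
    rw [add_comm]
    exact ops.mul_mem hD hz
  rat := by
    rintro l l' _ ⟨z, hz, rfl⟩ _ ⟨z', hz', rfl⟩
    by_cases h : l + l' = X.dim
    · refine ⟨X.V.degCycle (ops.mul z z'), ?_⟩
      rw [bil_apply, ← W.cl_mul, W.tr_cl (h ▸ ops.mul_mem hz hz')]
    · refine ⟨0, ?_⟩
      rw [bil_apply, W.tr_eq_zero (W.mul_mem (W.cl_mem hz) (W.cl_mem hz')) (by omega)]
      simp
  hl := by
    rintro l hl _ ⟨z, hz, rfl⟩
    obtain ⟨z', hz', h⟩ := hA l hl z hz
    exact ⟨W.cl X z', ⟨z', hz', rfl⟩, by rw [← h, cl_divPow]⟩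
  pos := by
    rintro l hl _ ⟨z, hz, rfl⟩ hp h0
    refine ⟨_, ?_, hH l hl z hz (by rw [cl_divPow]; exact hp) h0⟩
    rw [bil_apply, ← cl_divPow, ← W.cl_mul, W.tr_cl]
    have := ops.mul_mem hz (divPow_mem (ops := ops) hD (X.dim - 2 * l) hz)
    rwa [show l + (l + (X.dim - 2 * l)) = X.dim by omega] at this
  self a b := by
    rw [bil_apply, bil_apply, LinearMap.mulLeft_apply, LinearMap.mulLeft_apply,
      W.even_comm (p := 1) (W.cl_mem hD) a, mul_assoc]
  deg i j a ha b hb hij := W.tr_eq_zero (W.mul_mem ha hb) hij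
  symm l a ha b := by
    rw [bil_apply, bil_apply, W.even_comm ha]

lemma Tpart_eq : Tpart (bil W X) (algClasses W X) = transcendental W X := by
  ext a
  rw [mem_Tpart, transcendental, orthCompl]
  simp only [Submodule.mem_iInf]
  constructor
  · rintro h c hc
    obtain ⟨j, hj⟩ := Set.mem_iUnion.1 hc
    exact h j c hj
  · rintro h j c hc
    exact h c (Set.mem_iUnion.2 ⟨j, hc⟩)

/-- Algebraic correspondences preserve the algebraic classes. -/
lemma corr_alg {j l : ℕ} {z : (X.prod X).Cycles} (hz : (X.prod X).IsCyc j z) {c : W.H X}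
    (hc : c ∈ algClasses W X l) {r : ℕ} (hjr : j + r = X.dim) (hr : r ≤ l) :
    W.corr (W.cl _ z) c ∈ algClasses W X (l - r) := by
  obtain ⟨w, hw, rfl⟩ := hc
  refine ⟨ops.push (snd X X) (ops.mul z (ops.pull (fst X X) w)), ?_, ?_⟩
  · apply ops.push_mem _ (ops.mul_mem hz (ops.pull_mem _ hw))
    rw [dim_prod]
    omega
  · rw [W.cl_push, W.cl_mul, W.cl_pull, corr_apply]

end Pool.Agent.H914
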