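import Pool.Agent.H90.G.S8.H914R2.ExtOp
import Pool.Agent.H90.G.S8.H914R2.DDefs

/-!
# Semilinear structures and blocks
-/

open CategoryTheory AlgebraicGeometry Finset TensorProduct

universe u v

namespace Pool.Agent.H914

open VarClass Obj WeilCohomology

variable {k : Type u} [Field k] {𝒱 : VarClass k} {ops : CycleOps 𝒱}

/-- A semilinear automorphism of a Weil cohomology theory. -/
structure SemiLin (W : WeilCohomology.{u, v} ops) where
  /-- the automorphism of the coefficients -/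
  τ : W.K →+* W.K
  /-- the automorphism of the cohomology -/
  σ : ∀ X, W.H X →+ W.H X
  smul : ∀ {X : 𝒱.Obj} (c : W.K) (a : W.H X), σ X (c • a) = τ c • σ X a
  mul : ∀ {X : 𝒱.Obj} (a b : W.H X), σ X (a * b) = σ X a * σ X b
  map : ∀ {X Y : 𝒱.Obj} (f : X ⟶ Y) (a : W.H Y), σ X (W.map f a) = W.map f (σ Y a)
  gr : ∀ {X : 𝒱.Obj} {i : ℕ} {a : W.H X}, a ∈ W.gr X i → σ X a ∈ W.gr X i
  cl : ∀ {X : 𝒱.Obj} (z : X.Cycles), σ X (W.cl X z) = W.cl X z
  inj : ∀ {X : 𝒱.Obj} (a : W.H X), σ X a = 0 → a = 0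

variable {W : WeilCohomology.{u, v} ops} {X Y Z : 𝒱.Obj}

/-- A decomposition of the cohomology into blocks on which all operators are algebraic, permuted by
the semilinear automorphism and such that each block pairs nontrivially with its conjugate. -/
structure BlockData (S : SemiLin W) (Y : 𝒱.Obj) (ι : Type*) [Fintype ι]
    (e : ι → Module.End W.K (W.H Y)) (d : ι → ℕ) : Prop where
  sum : ∑ i, e i = 1
  idem : ∀ i, e i * e i = e i
  deg : ∀ i a, e i a ∈ W.gr Y (d i)
  alg : ∀ i (A : Module.End W.K (W.H Y)), e i * A * e i ∈ KOp W Y Y 0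
  perm : ∀ i, ∃ j, ∀ a, S.σ Y (e i a) = e j (S.σ Y a)
  herm : ∀ i, ∃ (δ : ℤ) (θ : Module.End W.K (W.H Y)) (y y' : W.H Y), θ ∈ KOp W Y Y δ ∧
    W.tr Y (e i y * θ (S.σ Y (e i y'))) ≠ 0

/-- The variety has a decomposition into blocks. -/
def HasBlocks (S : SemiLin W) (Y : 𝒱.Obj) : Prop :=
  ∃ (ι : Type) (_ : Fintype ι) (e : ι → Module.End W.K (W.H Y)) (d : ι → ℕ), BlockData S Y ι e d

/-- The index set may be arbitrary. -/
lemma BlockData.hasBlocks {S : SemiLin W} {Y : 𝒱.Obj} {ι : Type*} [Fintype ι]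
    {e : ι → Module.End W.K (W.H Y)} {d : ι → ℕ} (h : BlockData S Y ι e d) : HasBlocks S Y := by
  classical
  set c := Fintype.equivFin ι with hc
  refine ⟨Fin (Fintype.card ι), inferInstance, fun i => e (c.symm i), fun i => d (c.symm i), ?_⟩
  refine ⟨?_, fun i => h.idem _, fun i => h.deg _, fun i => h.alg _, ?_, fun i => h.herm _⟩
  · rw [← h.sum]
    exact Equiv.sum_comp c.symm e
  · intro i
    obtain ⟨j, hj⟩ := h.perm (c.symm i)
    refine ⟨c j, ?_⟩
    simpa using hj

/-- Algebraic operators map algebraic classes to algebraic classes. -/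
lemma KOp.map_span {d j : ℤ} {φ : W.H X →ₗ[W.K] W.H Y} (hφ : φ ∈ KOp W X Y d) {x : W.H X}
    (hx : x ∈ spanCycles W X j) : φ x ∈ spanCycles W Y (j + d) := by
  induction hφ using Submodule.span_induction with
  | mem φ hφ =>
    obtain ⟨p, hp, z, hz, rfl⟩ := hφ
    induction hx using Submodule.span_induction with
    | mem x hx =>
      obtain ⟨l, hl, w, hw, rfl⟩ := hx
      by_cases hneg : j + d < 0
      · have h1 := KOp.isHom (KOp.gen hp hz) _ _ (show W.cl X w ∈ grZ (W.gr X) ((2 * l : ℕ) : ℤ) by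
          rw [grZ_natCast]; exact W.cl_mem hw)
        rw [grZ_of_neg (by push_cast; omega)] at h1
        rw [(Submodule.mem_bot _).1 h1]
        exact Submodule.zero_mem _
      · refine Submodule.subset_span ⟨(j + d).toNat, Int.toNat_of_nonneg (by omega),
          ops.push (snd X Y) (ops.mul z (ops.pull (fst X Y) w)), ?_, ?_⟩
        · apply ops.push_mem _ (ops.mul_mem hz (ops.pull_mem _ hw))
          rw [dim_prod]
          omega
        · rw [W.cl_push, W.cl_mul, W.cl_pull, corr_apply]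
    | zero => rw [map_zero]; exact Submodule.zero_mem _
    | add x y _ _ hx hy => rw [map_add]; exact Submodule.add_mem _ hx hy
    | smul a x _ hx => rw [map_smul]; exact Submodule.smul_mem _ _ hx
  | zero => exact Submodule.zero_mem _
  | add φ ψ _ _ h1 h2 => exact Submodule.add_mem _ h1 h2
  | smul a φ _ h1 => exact Submodule.smul_mem _ _ h1

lemma spanCycles_deg {j : ℤ} {x : W.H X} (hx : x ∈ spanCycles W X j) :
    x ∈ grZ (W.gr X) (2 * j) := by
  induction hx using Submodule.span_induction with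
  | mem x hx =>
    obtain ⟨l, hl, w, hw, rfl⟩ := hx
    rw [← hl, show (2 * (l : ℤ)) = ((2 * l : ℕ) : ℤ) by push_cast; ring, grZ_natCast]
    exact W.cl_mem hw
  | zero => exact Submodule.zero_mem _
  | add x y _ _ hx hy => exact Submodule.add_mem _ hx hy
  | smul a x _ hx => exact Submodule.smul_mem _ _ hx

lemma exists_end {K : Type*} [Field K] {V : Type*} [AddCommGroup V] [Module K V] {x : V}
    (hx : x ≠ 0) (y : V) : ∃ A : Module.End K V, A x = y := by
  obtain ⟨f, hf⟩ := Module.Projective.exists_dual_eq_one K hx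
  exact ⟨f.smulRight y, by rw [LinearMap.smulRight_apply, hf, one_smul]⟩

/-- Blocks imply the conjecture D. -/
theorem homEqNum_of_blocks {S : SemiLin W} (hY : HasBlocks S Y) : HomEqNum W Y := by
  classical
  obtain ⟨ι, _, e, d, hB⟩ := hY
  intro j hj z hz hnum
  by_contra hx
  set x := W.cl Y z with hxdef
  obtain ⟨i, hi⟩ : ∃ i, e i x ≠ 0 := by
    by_contra h0
    push Not at h0
    apply hx
    have h1 := congrArg (fun F => F x) hB.sum
    simp only [LinearMap.sum_apply, h0, Finset.sum_const_zero, Module.End.one_apply] at h1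
    exact h1.symm
  obtain ⟨i', hi'⟩ := hB.perm i
  have hx' : e i' x ≠ 0 := by
    have h1 := hi' x
    rw [hxdef, S.cl, ← hxdef] at h1
    intro h0
    rw [h0] at h1
    exact hi (S.inj _ h1)
  obtain ⟨δ, θ, y, y', hθ, hne⟩ := hB.herm i
  obtain ⟨A, hA⟩ := exists_end (K := W.K) hi (e i y)
  obtain ⟨B, hB'⟩ := exists_end (K := W.K) hx' (S.σ Y (e i y'))
  have hid : ∀ i a, e i (e i a) = e i a := fun i a => by
    rw [← Module.End.mul_apply, hB.idem]
  have ha : (e i * A * e i) x = e i y := by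
    rw [Module.End.mul_apply, Module.End.mul_apply, hA, hid]
  have hb : (e i' * B * e i') x = S.σ Y (e i y') := by
    rw [Module.End.mul_apply, Module.End.mul_apply, hB', hi', hid]
  obtain ⟨At, hAt, hadj⟩ := KOp.exists_adjoint (hB.alg i A)
  have hw : At (θ ((e i' * B * e i') x)) ∈ spanCycles W Y ((j : ℤ) + δ) := by
    have h1 : x ∈ spanCycles W Y (j : ℤ) := Submodule.subset_span ⟨j, rfl, z, hz, rfl⟩
    have h2 := KOp.map_span (hB.alg i' B) h1
    have h3 := KOp.map_span hθ h2
    have h4 := KOp.map_span hAt h3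
    have e1 : (j : ℤ) + 0 + δ + (0 + Y.dim - Y.dim) = (j : ℤ) + δ := by ring
    rw [e1] at h4
    exact h4
  rw [← ha, ← hb, hadj] at hne
  apply hne
  have key : ∀ u ∈ spanCycles W Y ((j : ℤ) + δ), W.tr Y (x * u) = 0 := by
    intro u hu
    by_cases hdeg : (j : ℤ) + (j + δ) = Y.dim
    · induction hu using Submodule.span_induction with
      | mem u hu =>
        obtain ⟨p, hp, w, hw, rfl⟩ := hu
        obtain rfl : p = Y.dim - j := by omega
        have h1 := ops.mul_mem hz hw
        rw [show j + (Y.dim - j) = Y.dim by omega] at h1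
        rw [hxdef, ← W.cl_mul, W.tr_cl h1, hnum w hw, Rat.cast_zero]
      | zero => rw [mul_zero, map_zero]
      | add u v _ _ hu hv => rw [mul_add, map_add, hu, hv, add_zero]
      | smul a u _ hu => rw [mul_smul_comm, map_smul, hu, smul_zero]
    · have h1 := spanCycles_deg hu
      by_cases hneg : (j : ℤ) + δ < 0
      · rw [grZ_of_neg (by omega)] at h1
        rw [(Submodule.mem_bot _).1 h1, mul_zero, map_zero]
      · obtain ⟨m, hm⟩ := Int.eq_ofNat_of_zero_le (show 0 ≤ (j : ℤ) + δ by omega)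
        rw [hm, show (2 * ((m : ℕ) : ℤ)) = ((2 * m : ℕ) : ℤ) by push_cast; ring, grZ_natCast] at h1
        exact W.tr_eq_zero (W.mul_mem (W.cl_mem hz) h1) (by omega)
  exact key _ hw

lemma kappa_mem {i j : ℕ} {a : W.H Y} {b : W.H Z} (ha : a ∈ W.gr Y i) (hb : b ∈ W.gr Z j) :
    W.map (fst Y Z) a * W.map (snd Y Z) b ∈ W.gr (Y.prod Z) (i + j) :=
  W.mul_mem (W.map_mem _ ha) (W.map_mem _ hb)

/-- Blocks are stable under products. -/
theorem HasBlocks.prod {S : SemiLin W} (hY : HasBlocks S Y) (hZ : HasBlocks S Z) :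
    HasBlocks S (Y.prod Z) := by
  classical
  obtain ⟨ι, _, e, d, hB⟩ := hY
  obtain ⟨ι', _, e', d', hB'⟩ := hZ
  refine ⟨ι × ι', inferInstance, fun s => extOp W (e s.1) (e' s.2), fun s => d s.1 + d' s.2, ?_⟩
  refine ⟨?_, ?_, ?_, ?_, ?_, ?_⟩
  · rw [Fintype.sum_prod_type]
    have : ∀ i, ∑ j, extOp W (e i) (e' j) = extOp W (e i) 1 := by
      intro i
      rw [← hB'.sum, extOp_sum']
    rw [Finset.sum_congr rfl (fun i _ => this i), ← extOp_sum, hB.sum, extOp_one]
  · intro s
    rw [extOp_mul, hB.idem, hB'.idem]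
  · intro s a
    refine W.kunneth_induction (p := fun a => extOp W (e s.1) (e' s.2) a ∈
      W.gr (Y.prod Z) (d s.1 + d' s.2)) ?_ ?_ a
    · intro a b ha hb
      rw [map_add]; exact Submodule.add_mem _ ha hb
    · intro i j a _ b _
      rw [extOp_tmul]
      exact kappa_mem (hB.deg _ _) (hB'.deg _ _)
  · intro s A
    refine extOp_induction (p := fun A => extOp W (e s.1) (e' s.2) * A *
      extOp W (e s.1) (e' s.2) ∈ KOp W (Y.prod Z) (Y.prod Z) 0) ?_ ?_ ?_ A
    · rw [mul_zero, zero_mul]; exact Submodule.zero_mem _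
    · intro A B hA hB
      rw [mul_add, add_mul]; exact Submodule.add_mem _ hA hB
    · intro φ ψ
      rw [extOp_mul, extOp_mul]
      exact KOp.cast (KOp.ext (hB.alg s.1 φ) (hB'.alg s.2 ψ)) (add_zero 0)
  · intro s
    obtain ⟨i, hi⟩ := hB.perm s.1
    obtain ⟨j, hj⟩ := hB'.perm s.2
    refine ⟨(i, j), ?_⟩
    have h1 := ext_kunneth (W := W) (Y := Y) (Z := Z)
      (F := (S.σ (Y.prod Z)).comp (extOp W (e s.1) (e' s.2)).toAddMonoidHom)
      (G := (extOp W (e i) (e' j)).toAddMonoidHom.comp (S.σ (Y.prod Z))) (by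
        intro a b
        change S.σ (Y.prod Z) (extOp W (e s.1) (e' s.2) _) =
          extOp W (e i) (e' j) (S.σ (Y.prod Z) _)
        rw [extOp_tmul, S.mul, S.map, S.map, hi, hj, S.mul, S.map, S.map, extOp_tmul])
    intro a
    exact congrArg (fun F : W.H (Y.prod Z) →+ W.H (Y.prod Z) => F a) h1
  · intro s
    obtain ⟨δ, θ, y, y', hθ, hne⟩ := hB.herm s.1
    obtain ⟨δ', θ', z, z', hθ', hne'⟩ := hB'.herm s.2
    refine ⟨δ + δ', extOp W θ θ', W.map (fst Y Z) y * W.map (snd Y Z) z,
      W.map (fst Y Z) y' * W.map (snd Y Z) z', KOp.ext hθ hθ', ?_⟩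
    rw [extOp_tmul, extOp_tmul, S.mul, S.map, S.map, extOp_tmul]
    set u := e s.1 y with hu
    set v := e' s.2 z with hv
    set u' := θ (S.σ Y (e s.1 y')) with hu'
    set v' := θ' (S.σ Z (e' s.2 z')) with hv'
    have hum : u' ∈ grZ (W.gr Y) ((d s.1 : ℤ) + 2 * δ) :=
      KOp.isHom hθ _ _ (by rw [grZ_natCast]; exact S.gr (hB.deg _ _))
    by_cases hneg : (d s.1 : ℤ) + 2 * δ < 0
    · rw [grZ_of_neg hneg] at hum
      exfalso
      apply hne
      rw [(Submodule.mem_bot _).1 hum, mul_zero, map_zero]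
    · obtain ⟨m, hm⟩ := Int.eq_ofNat_of_zero_le (show 0 ≤ (d s.1 : ℤ) + 2 * δ by omega)
      rw [hm, grZ_natCast] at hum
      have hvm : v ∈ W.gr Z (d' s.2) := hB'.deg _ _
      have hsw : W.map (snd Y Z) v * W.map (fst Y Z) u' =
          (-1 : W.K) ^ (d' s.2 * m) • (W.map (fst Y Z) u' * W.map (snd Y Z) v) :=
        W.comm (W.map_mem _ hvm) (W.map_mem _ hum)
      have e1 : W.map (fst Y Z) u * W.map (snd Y Z) v *
          (W.map (fst Y Z) u' * W.map (snd Y Z) v') =
          (-1 : W.K) ^ (d' s.2 * m) • (W.map (fst Y Z) (u * u') * W.map (snd Y Z) (v * v')) := by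
        rw [mul_assoc, ← mul_assoc (W.map (snd Y Z) v), hsw, smul_mul_assoc, mul_smul_comm,
          map_mul, map_mul]
        simp only [mul_assoc]
      rw [e1, map_smul, W.tr_prod, smul_eq_mul]
      exact mul_ne_zero (pow_ne_zero _ (by norm_num)) (mul_ne_zero hne hne')

/-- The conjecture D passes to dominated varieties. -/
theorem HomEqNum.image (hX : HomEqNum W X) (hXY : Dominates W X Y) : HomEqNum W Y := by
  obtain ⟨g, p, w, c, hw, hc, hpush⟩ := hXY
  intro j hj z hz hnum
  have key : W.cl X (ops.mul w (ops.pull g z)) = 0 := by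
    have hcyc := ops.mul_mem hw (ops.pull_mem g hz)
    by_cases hjp : p + j ≤ X.dim
    · apply hX (p + j) hjp _ hcyc
      intro y hy
      have h1 := ops.mul_mem hcyc hy
      rw [show p + j + (X.dim - (p + j)) = X.dim by omega] at h1
      have h2 : Y.IsCyc (Y.dim - j) (ops.push g (ops.mul w y)) :=
        ops.push_mem g (ops.mul_mem hw hy) (by omega)
      have h3 := ops.mul_mem hz h2
      rw [show j + (Y.dim - j) = Y.dim by omega] at h3
      have e1 : (X.V.degCycle (ops.mul (ops.mul w (ops.pull g z)) y) : W.K) =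
          (Y.V.degCycle (ops.mul z (ops.push g (ops.mul w y))) : W.K) := by
        rw [← W.tr_cl h1, ← W.tr_cl h3, W.cl_mul, W.cl_mul, W.cl_mul, W.cl_push, W.cl_mul,
          W.cl_pull, W.even_comm (W.cl_mem hz), W.tr_push, mul_assoc, mul_assoc,
          W.even_comm (W.map_mem g (W.cl_mem hz))]
      rw [hnum _ h2] at e1
      exact_mod_cast e1
    · have h1 := W.cl_mem hcyc
      rw [W.gr_eq_bot X _ (by omega)] at h1
      exact (Submodule.mem_bot _).1 h1
  rw [W.cl_mul, W.cl_pull] at key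
  have h1 := W.push_mul g (W.cl X w) (W.cl Y z)
  rw [key, map_zero, hpush, smul_mul_assoc, one_mul] at h1
  exact (smul_eq_zero.1 h1.symm).resolve_left hc

end Pool.Agent.H914
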