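import Pool.Agent.H90.G.S8.H914R2.Sl2
import Pool.Agent.H90.G.S8.H914R2.Core0

/-!
# Finite-dimensional representations of `sl(2)` and the Weyl element
-/

open Finset
open IsNilpotent (exp exp_eq_sum)

namespace Pool.Agent.H914

variable {K : Type*} [Field K] [CharZero K] {V : Type*} [AddCommGroup V] [Module K V]

namespace Sl2

variable {h e f : Module.End K V}

lemma nil_of_comm [Module.Finite K V] {h e : Module.End K V} {c : K} (hc : c ≠ 0)
    (hhe : h * e - e * h = c • e) : IsNilpotent e := by
  have key : ∀ k : ℕ, h * e ^ (k + 1) - e ^ (k + 1) * h = ((k + 1 : ℕ) * c) • e ^ (k + 1) := by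
    intro k
    induction k with
    | zero => simpa using hhe
    | succ k ih =>
      have h1 : h * e ^ (k + 1 + 1) - e ^ (k + 1 + 1) * h =
          (h * e ^ (k + 1) - e ^ (k + 1) * h) * e + e ^ (k + 1) * (h * e - e * h) := by
        rw [pow_succ e (k + 1)]; noncomm_ring
      rw [h1, ih, hhe, smul_mul_assoc, mul_smul_comm, ← pow_succ, ← add_smul]
      congr 1
      push_cast; ring
  apply isNilpotent_of_trace_pow
  intro r
  have h1 := congrArg (LinearMap.trace K V) (key r)
  rw [map_sub, LinearMap.trace_mul_comm, sub_self, map_smul, smul_eq_mul] at h1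
  have h2 : ((r + 1 : ℕ) : K) * c ≠ 0 := mul_ne_zero (by exact_mod_cast Nat.succ_ne_zero r) hc
  rcases mul_eq_zero.1 h1.symm with h3 | h3
  · exact absurd h3 h2
  · exact h3

lemma nil_e [Module.Finite K V] (t : Sl2 h e f) : IsNilpotent e := by
  apply nil_of_comm (c := 2) two_ne_zero
  rw [t.he, ofNat_smul_eq_nsmul, nsmul_eq_mul]
  rfl

lemma nil_f [Module.Finite K V] (t : Sl2 h e f) : IsNilpotent f := by
  apply nil_of_comm (c := -2) (by norm_num : (-2 : K) ≠ 0) (h := h)
  rw [t.hf, neg_smul, ofNat_smul_eq_nsmul, nsmul_eq_mul]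
  rfl

section

variable (t : Sl2 h e f) {v : V} {μ : K} (hv : f v = 0) (hμ : h v = -μ • v)

include t hμ

lemma h_e_pow (k : ℕ) : h ((e ^ k) v) = (2 * k - μ) • (e ^ k) v := by
  have h2 : ((2 * (k : Module.End K V)) : Module.End K V) ((e ^ k) v) =
      (2 * k : K) • (e ^ k) v := by
    have : (2 * (k : Module.End K V)) = ((2 * k : ℕ) : Module.End K V) := by push_cast; rfl
    rw [this, Module.End.natCast_apply, ← Nat.cast_smul_eq_nsmul K]
    push_cast; rfl
  have h1 : (e ^ k * h) v = ((h - 2 * (k : Module.End K V)) * e ^ k) v := by rw [t.e_pow_h k]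
  rw [Module.End.mul_apply, Module.End.mul_apply, LinearMap.sub_apply, hμ, map_smul, h2] at h1
  rw [eq_sub_iff_add_eq] at h1
  rw [← h1, ← add_smul]
  congr 1
  ring

include hv

lemma f_e_pow (k : ℕ) : f ((e ^ (k + 1)) v) = ((k + 1) * (μ - k)) • (e ^ k) v := by
  have h1 := congrArg (fun y => y v) (t.e_pow_f k)
  simp only [Module.End.mul_apply, LinearMap.add_apply, LinearMap.smul_apply,
    LinearMap.sub_apply, hv, map_zero, h_e_pow t hμ k] at h1
  have h2 : (k : Module.End K V) ((e ^ k) v) = (k : K) • (e ^ k) v := by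
    have : (k : Module.End K V) = ((k : K)) • (1 : Module.End K V) := by
      rw [← Algebra.algebraMap_eq_smul_one]; simp
    rw [this]; simp
  rw [h2, ← sub_smul, ← Nat.cast_smul_eq_nsmul K, smul_smul] at h1
  rw [eq_comm, add_eq_zero_iff_eq_neg] at h1
  rw [h1, ← neg_smul]
  congr 1
  push_cast; ring

lemma exists_nat [Module.Finite K V] (hv0 : v ≠ 0) : ∃ m : ℕ, μ = m ∧ (e ^ m) v ≠ 0 ∧
    (e ^ (m + 1)) v = 0 := by
  obtain ⟨N, hN⟩ := t.nil_e
  have hex : ∃ k, (e ^ k) v = 0 := ⟨N, by rw [hN]; rfl⟩
  classical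
  set k := Nat.find hex with hk
  have hk0 : (e ^ k) v = 0 := Nat.find_spec hex
  have hk1 : k ≠ 0 := by
    intro h0
    rw [h0] at hk0
    exact hv0 (by simpa using hk0)
  obtain ⟨m, hm⟩ := Nat.exists_eq_succ_of_ne_zero hk1
  have hmne : (e ^ m) v ≠ 0 := Nat.find_min hex (by rw [← hk]; omega)
  have hm1 : (e ^ (m + 1)) v = 0 := by rw [← Nat.succ_eq_add_one, ← hm]; exact hk0
  refine ⟨m, ?_, hmne, hm1⟩
  have h1 := f_e_pow t hv hμ m
  rw [hm1, map_zero] at h1
  rcases smul_eq_zero.1 h1.symm with h2 | h2
  · rcases mul_eq_zero.1 h2 with h3 | h3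
    · exact absurd h3 (by exact_mod_cast Nat.succ_ne_zero m)
    · exact sub_eq_zero.1 h3
  · exact absurd h2 hmne

end

section

variable (t : Sl2 h e f) {v : V} {m : ℕ} (hv : f v = 0) (hμ : h v = -(m : K) • v)

include t hv hμ

lemma e_pow_ne [Module.Finite K V] (hv0 : v ≠ 0) {k : ℕ} (hk : k ≤ m) : (e ^ k) v ≠ 0 := by
  obtain ⟨m', hm', h1, -⟩ := exists_nat t hv hμ hv0
  have : m = m' := by exact_mod_cast hm'
  subst this
  intro h0
  apply h1
  rw [← Nat.sub_add_cancel hk, pow_add, Module.End.mul_apply, h0, map_zero]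

lemma e_pow_zero [Module.Finite K V] {k : ℕ} (hk : m < k) : (e ^ k) v = 0 := by
  by_cases hv0 : v = 0
  · rw [hv0, map_zero]
  obtain ⟨m', hm', -, h1⟩ := exists_nat t hv hμ hv0
  have : m = m' := by exact_mod_cast hm'
  subst this
  rw [show k = (k - (m + 1)) + (m + 1) by omega, pow_add, Module.End.mul_apply, h1, map_zero]

lemma f_pow_e_pow {k : ℕ} (hk : k ≤ m) : (f ^ k) ((e ^ m) v) =
    ((m.factorial : K) * k.factorial * ((m - k).factorial : K)⁻¹) • (e ^ (m - k)) v := by
  induction k with
  | zero =>
    simp only [pow_zero, Module.End.one_apply, Nat.factorial_zero, Nat.cast_one, mul_one,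
      Nat.sub_zero]
    rw [mul_inv_cancel₀ (by exact_mod_cast Nat.factorial_ne_zero m), one_smul]
  | succ k ih =>
    have h1 := f_e_pow t hv hμ (m - (k + 1))
    rw [show m - (k + 1) + 1 = m - k by omega] at h1
    rw [pow_succ', Module.End.mul_apply, ih (by omega), map_smul, h1, smul_smul]
    congr 1
    have h2 : (m - k).factorial = (m - (k + 1) + 1) * (m - (k + 1)).factorial := by
      rw [← Nat.factorial_succ]; congr 1; omega
    have h3 : ((m - (k + 1) : ℕ) : K) = m - (k + 1) := by
      rw [Nat.cast_sub hk]; push_cast; ring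
    rw [h2, Nat.factorial_succ k]
    push_cast
    rw [h3]
    have h4 : ((m - (k + 1)).factorial : K) ≠ 0 := by exact_mod_cast Nat.factorial_ne_zero _
    have h5 : (m : K) - (k + 1) + 1 ≠ 0 := by
      have : (m : K) - (k + 1) + 1 = ((m - k : ℕ) : K) := by
        rw [Nat.cast_sub (by omega)]; ring
      rw [this]
      exact_mod_cast (by omega : m - k ≠ 0)
    field_simp
    ring

end

/-- A vector of weight `-M` killed by `e ^ (M + 1)` is a lowest weight vector. -/
lemma f_eq_zero [Module.Finite K V] (t : Sl2 h e f) {u : V} {M : ℕ} (hu : h u = -(M : K) • u)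
    (he : (e ^ (M + 1)) u = 0) : f u = 0 := by
  by_contra hfu
  -- weights
  have hw : ∀ k : ℕ, h ((f ^ k) u) = -((M + 2 * k : ℕ) : K) • (f ^ k) u := by
    intro k
    induction k with
    | zero => simpa using hu
    | succ k ih =>
      have h1 := congrArg (fun y => y ((f ^ k) u)) t.hf
      simp only [LinearMap.sub_apply, Module.End.mul_apply, LinearMap.neg_apply, ih,
        map_smul] at h1
      rw [pow_succ', Module.End.mul_apply]
      rw [sub_eq_iff_eq_add] at h1
      rw [h1]
      have h2 : (2 : Module.End K V) (f ((f ^ k) u)) = (2 : K) • f ((f ^ k) u) := by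
        rw [ofNat_smul_eq_nsmul]; rfl
      rw [h2, ← neg_smul, ← add_smul]
      congr 1
      push_cast; ring
  have hk : ∀ k : ℕ, (e ^ (M + 2 * k + 1)) ((f ^ k) u) = 0 ∧
      (e ^ (M + 2 * (k + 1))) ((f ^ (k + 1)) u) = 0 := by
    have step : ∀ k : ℕ, (e ^ (M + 2 * k + 1)) ((f ^ k) u) = 0 →
        (e ^ (M + 2 * (k + 1))) ((f ^ (k + 1)) u) = 0 := by
      intro k h1
      have h2 := congrArg (fun y => y ((f ^ k) u)) (t.e_pow_f (M + 2 * k + 1))
      simp only [LinearMap.add_apply, Module.End.mul_apply, LinearMap.smul_apply,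
        h1, map_zero, smul_zero, add_zero] at h2
      rw [show M + 2 * (k + 1) = M + 2 * k + 1 + 1 by ring, pow_succ' f k, Module.End.mul_apply, h2,
        pow_succ' e (M + 2 * k + 1), Module.End.mul_apply, h1, map_zero, map_zero]
    intro k
    induction k with
    | zero =>
      have h1 : (e ^ (M + 2 * 0 + 1)) ((f ^ 0) u) = 0 := by simpa using he
      exact ⟨h1, step 0 h1⟩
    | succ k ih =>
      have h1 : (e ^ (M + 2 * (k + 1) + 1)) ((f ^ (k + 1)) u) = 0 := by
        rw [pow_succ', Module.End.mul_apply, ih.2, map_zero]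
      exact ⟨h1, step _ h1⟩
  obtain ⟨N, hN⟩ := t.nil_f
  have hex : ∃ k, (f ^ k) u = 0 := ⟨N, by rw [hN]; rfl⟩
  classical
  set k := Nat.find hex with hkdef
  have hk0 : (f ^ k) u = 0 := Nat.find_spec hex
  have hk2 : 2 ≤ k := by
    by_contra hlt
    have : k = 0 ∨ k = 1 := by omega
    rcases this with h0 | h0
    · rw [h0] at hk0
      apply hfu
      have : u = 0 := by simpa using hk0
      rw [this, map_zero]
    · rw [h0] at hk0
      apply hfu
      simpa using hk0
  obtain ⟨l, hl⟩ : ∃ l, k = l + 1 + 1 := ⟨k - 2, by omega⟩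
  have hne : (f ^ (l + 1)) u ≠ 0 := Nat.find_min hex (by rw [← hkdef]; omega)
  have hf0 : f ((f ^ (l + 1)) u) = 0 := by
    rw [← Module.End.mul_apply, ← pow_succ', ← hl]; exact hk0
  have h1 := e_pow_ne t hf0 (hw (l + 1)) hne (k := M + 2 * (l + 1)) le_rfl
  exact h1 (hk l).2

variable [Module ℚ V]

/-- The Weyl element on a lowest weight vector. -/
lemma weyl_lowest [Module.Finite K V] (t : Sl2 h e f) {v : V} {m : ℕ} (hv : f v = 0)
    (hμ : h v = -(m : K) • v) : weyl e f v = ((m.factorial : K)⁻¹) • (e ^ m) v := by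
  have hne := t.nil_e
  have hnf := t.nil_f
  set y := weyl e f v with hy
  have hhy : h y = (m : K) • y := by
    have h1 := congrArg (fun F => F v) (t.weyl_h hne hnf)
    simp only [Module.End.mul_apply, LinearMap.neg_apply, hμ, map_neg, map_smul, neg_smul] at h1
    exact (neg_injective h1).symm
  have hey : e y = 0 := by
    have h1 := congrArg (fun F => F v) (t.weyl_f hne hnf)
    simp only [Module.End.mul_apply, LinearMap.neg_apply, hv, map_zero] at h1
    exact neg_eq_zero.1 h1.symm
  -- `y = exp(-f) exp(e) v`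
  have hexpe : ∀ x : V, e x = 0 → exp (-e) x = x := by
    intro x hx
    obtain ⟨N, hN⟩ := hne.neg
    have hN1 : (-e) ^ (N + 1) = 0 := by rw [pow_succ, hN, zero_mul]
    rw [exp_eq_sum hN1, LinearMap.sum_apply, Finset.sum_range_succ']
    rw [Finset.sum_eq_zero]
    · simp
    · intro k _
      rw [LinearMap.smul_apply, pow_succ, Module.End.mul_apply, LinearMap.neg_apply, hx, neg_zero,
        map_zero, smul_zero]
  have hy2 : exp (-f) (exp e v) = y := by
    have h1 : exp (-e) * (exp e * exp (-f) * exp e) = exp (-f) * exp e := by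
      rw [mul_assoc, ← mul_assoc, IsNilpotent.exp_neg_mul_exp_self hne, one_mul]
    have h2 := congrArg (fun F => F v) h1
    simp only [Module.End.mul_apply] at h2
    rw [← h2]
    exact hexpe _ hey
  -- the span of the lower vectors
  set S : Submodule K V := ⨆ l ∈ range m, Submodule.span K {(e ^ l) v} with hS
  have hmemS : ∀ l < m, (e ^ l) v ∈ S := by
    intro l hl
    exact Submodule.mem_iSup_of_mem l (Submodule.mem_iSup_of_mem (Finset.mem_range.2 hl)
      (Submodule.mem_span_singleton_self _))
  have hSle : ∀ {T : Submodule K V}, (∀ l < m, (e ^ l) v ∈ T) → S ≤ T := by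
    intro T hT
    refine iSup_le fun l => iSup_le fun hl => ?_
    rw [Submodule.span_singleton_le_iff_mem]
    exact hT l (Finset.mem_range.1 hl)
  have hfS1 : ∀ l ≤ m, f ((e ^ l) v) ∈ S := by
    intro l hl
    rcases l with _ | l
    · simp only [pow_zero, Module.End.one_apply, hv]; exact Submodule.zero_mem _
    · rw [f_e_pow t hv hμ l]
      exact Submodule.smul_mem _ _ (hmemS l (by omega))
  have hfS : ∀ x ∈ S, f x ∈ S := by
    intro x hx
    have : S ≤ S.comap f := hSle (fun l hl => hfS1 l (by omega))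
    exact this hx
  have hratS : ∀ (T : Submodule K V) (q : ℚ), ∀ x ∈ T, q • x ∈ T := by
    intro T q x hx
    have : q • x = (q : K) • x := by
      have := map_ratCast_smul (AddMonoidHom.id V) ℚ K q x
      simpa using this
    rw [this]
    exact Submodule.smul_mem _ _ hx
  have hratK : ∀ (q : ℚ) (x : V), q • x = (q : K) • x := by
    intro q x
    have := map_ratCast_smul (AddMonoidHom.id V) ℚ K q x
    simpa using this
  -- `exp e v ≡ e^m v / m!`
  have h1 : exp e v - ((m.factorial : K)⁻¹) • (e ^ m) v ∈ S := by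
    obtain ⟨N, hN⟩ := hne
    have hN' : e ^ (N + m + 1) = 0 := by
      rw [show N + m + 1 = N + (m + 1) by ring, pow_add, hN, zero_mul]
    rw [exp_eq_sum hN', LinearMap.sum_apply]
    rw [← Finset.add_sum_erase _ _ (Finset.mem_range.2 (by omega : m < N + m + 1))]
    have e1 : (((m.factorial : ℚ)⁻¹) • e ^ m) v = ((m.factorial : K)⁻¹) • (e ^ m) v := by
      rw [LinearMap.smul_apply, hratK]; push_cast; rfl
    rw [e1, add_sub_cancel_left]
    apply Submodule.sum_mem
    intro k hk
    rw [Finset.mem_erase] at hk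
    rw [LinearMap.smul_apply]
    by_cases hkm : k < m
    · exact hratS S _ _ (hmemS k hkm)
    · rw [e_pow_zero t hv hμ (by omega : m < k), smul_zero]
      exact Submodule.zero_mem _
  have h2 : ∀ x : V, f x ∈ S → exp (-f) x - x ∈ S := by
    intro x hx
    obtain ⟨N, hN⟩ := hnf.neg
    have hN1 : (-f) ^ (N + 1) = 0 := by rw [pow_succ, hN, zero_mul]
    rw [exp_eq_sum hN1, LinearMap.sum_apply, Finset.sum_range_succ']
    simp only [Nat.factorial_zero, Nat.cast_one, inv_one, pow_zero, LinearMap.smul_apply,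
      Module.End.one_apply, one_smul]
    rw [add_sub_cancel_right]
    apply Submodule.sum_mem
    intro k _
    apply hratS
    rw [pow_succ, Module.End.mul_apply, LinearMap.neg_apply, map_neg]
    apply Submodule.neg_mem
    have : ∀ k : ℕ, ∀ z ∈ S, ((-f) ^ k) z ∈ S := by
      intro k
      induction k with
      | zero => intro z hz; simpa using hz
      | succ k ih =>
        intro z hz
        rw [pow_succ, Module.End.mul_apply, LinearMap.neg_apply]
        exact ih _ (Submodule.neg_mem _ (hfS _ hz))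
    exact this k _ hx
  have h3 : f (exp e v) ∈ S := by
    have : exp e v = (exp e v - ((m.factorial : K)⁻¹) • (e ^ m) v) +
        ((m.factorial : K)⁻¹) • (e ^ m) v := by abel
    rw [this, map_add, map_smul]
    exact Submodule.add_mem _ (hfS _ h1) (Submodule.smul_mem _ _ (hfS1 m le_rfl))
  have h4 : y - ((m.factorial : K)⁻¹) • (e ^ m) v ∈ S := by
    have h5 := Submodule.add_mem _ (h2 _ h3) h1
    rw [hy2] at h5
    have : y - exp e v + (exp e v - ((m.factorial : K)⁻¹) • (e ^ m) v) =
        y - ((m.factorial : K)⁻¹) • (e ^ m) v := by abel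
    rwa [this] at h5
  -- the difference is an eigenvector
  set d := y - ((m.factorial : K)⁻¹) • (e ^ m) v with hd
  have h5 : d ∈ h.eigenspace (m : K) := by
    rw [Module.End.mem_eigenspace_iff, hd, map_sub, hhy, map_smul, h_e_pow t hμ m, smul_sub,
      smul_comm]
    congr 3
    ring
  have h6 : S ≤ ⨆ j, ⨆ (_ : j ≠ (m : K)), h.eigenspace j := by
    apply hSle
    intro l hl
    refine Submodule.mem_iSup_of_mem (2 * l - m : K) (Submodule.mem_iSup_of_mem ?_ ?_)
    · intro h0
      have : (l : K) = m := by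
        have h7 : (2 : K) * (l - m) = 0 := by linear_combination h0
        rcases mul_eq_zero.1 h7 with h8 | h8
        · exact absurd h8 two_ne_zero
        · exact sub_eq_zero.1 h8
      have : l = m := by exact_mod_cast this
      omega
    · rw [Module.End.mem_eigenspace_iff]
      exact h_e_pow t hμ l
  have h7 : d = 0 := by
    have h8 := (Module.End.eigenspaces_iSupIndep h) (m : K)
    exact (Submodule.disjoint_def.1 h8) d h5 (h6 h4)
  rw [hd, sub_eq_zero] at h7
  exact h7

end Sl2

/-- The operator `T ↦ e T + T e`. -/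
noncomputable def dbl (e : Module.End K V) : Module.End K (Module.End K V) :=
  LinearMap.mulLeft K e + LinearMap.mulRight K e

omit [CharZero K] in
lemma dbl_apply (e T : Module.End K V) : dbl e T = e * T + T * e := rfl

/-- The Weyl operator of a finite-dimensional representation of `sl(2)`. -/
theorem exists_weyl [Module.Finite K V] {h e f : Module.End K V} (t : Sl2 h e f) :
    ∃ w : Module.End K V, w * e = -(f * w) ∧ w * f = -(e * w) ∧
    (∀ (m : ℕ) (v : V), f v = 0 → h v = -(m : K) • v → w v = ((m.factorial : K)⁻¹) • (e ^ m) v) ∧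
    ∀ (r : ℕ) (T : Module.End K V), h * T - T * h = -((2 * r : ℕ) : K) • T →
      ((dbl e) ^ (2 * r + 1)) T = 0 →
      ((dbl e) ^ (2 * r)) T = ((2 * r).factorial : K) • (w * T * w) := by
  let _ : Module ℚ V := Module.compHom V (algebraMap ℚ K)
  have hne := t.nil_e
  have hnf := t.nil_f
  refine ⟨weyl e f, t.weyl_e hne hnf, t.weyl_f hne hnf,
    fun m v hv hμ => t.weyl_lowest hv hμ, ?_⟩
  intro r T hT hT1
  -- the representation on endomorphisms
  set HH : Module.End K (Module.End K V) := LinearMap.mulLeft K h - LinearMap.mulRight K h with hHH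
  have tt : Sl2 HH (dbl e) (dbl f) := by
    constructor
    · apply LinearMap.ext
      intro Y
      simp only [dbl, hHH, LinearMap.sub_apply, Module.End.mul_apply, LinearMap.add_apply,
        LinearMap.mulLeft_apply, LinearMap.mulRight_apply]
      have := t.ef
      calc e * (f * Y + Y * f) + (f * Y + Y * f) * e - (f * (e * Y + Y * e) + (e * Y + Y * e) * f)
          = (e * f - f * e) * Y - Y * (e * f - f * e) := by noncomm_ring
        _ = _ := by rw [this]
    · apply LinearMap.ext
      intro Y
      have h2 : (2 * dbl e) Y = 2 * (e * Y + Y * e) := by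
        rw [two_mul, LinearMap.add_apply, dbl_apply, two_mul]
      rw [h2]
      simp only [dbl, hHH, LinearMap.sub_apply, Module.End.mul_apply, LinearMap.add_apply,
        LinearMap.mulLeft_apply, LinearMap.mulRight_apply]
      have := t.he
      calc h * (e * Y + Y * e) - (e * Y + Y * e) * h - (e * (h * Y - Y * h) + (h * Y - Y * h) * e)
          = (h * e - e * h) * Y + Y * (h * e - e * h) := by noncomm_ring
        _ = _ := by rw [this]; noncomm_ring
    · apply LinearMap.ext
      intro Y
      have h2 : (-(2 * dbl f)) Y = -(2 * (f * Y + Y * f)) := by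
        rw [LinearMap.neg_apply, two_mul, LinearMap.add_apply, dbl_apply, two_mul]
      rw [h2]
      simp only [dbl, hHH, LinearMap.sub_apply, Module.End.mul_apply, LinearMap.add_apply,
        LinearMap.mulLeft_apply, LinearMap.mulRight_apply]
      have := t.hf
      calc h * (f * Y + Y * f) - (f * Y + Y * f) * h - (f * (h * Y - Y * h) + (h * Y - Y * h) * f)
          = (h * f - f * h) * Y + Y * (h * f - f * h) := by noncomm_ring
        _ = _ := by rw [this]; noncomm_ring
  have hu : HH T = -((2 * r : ℕ) : K) • T := by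
    rw [← hT]; rfl
  have hfT := tt.f_eq_zero hu hT1
  have hw := tt.weyl_lowest hfT hu
  -- the exponentials
  have hexp : ∀ {x : Module.End K V}, IsNilpotent x → ∀ Y : Module.End K V,
      exp (dbl x) Y = exp x * Y * exp x := by
    intro x hx Y
    have hl : IsNilpotent (LinearMap.mulLeft K x) := by
      obtain ⟨N, hN⟩ := hx
      exact ⟨N, by rw [LinearMap.pow_mulLeft, hN]; ext; simp⟩
    have hr : IsNilpotent (LinearMap.mulRight K x) := by
      obtain ⟨N, hN⟩ := hx
      exact ⟨N, by rw [LinearMap.pow_mulRight, hN]; ext; simp⟩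
    have hc : Commute (LinearMap.mulLeft K x) (LinearMap.mulRight K x) := by
      apply LinearMap.ext
      intro Z
      simp [mul_assoc]
    have e1 : exp (LinearMap.mulRight K x) Y = Y * exp x := by
      obtain ⟨N, hN⟩ := hx
      have hN' : (LinearMap.mulRight K x) ^ N = 0 := by
        rw [LinearMap.pow_mulRight, hN]; ext; simp
      rw [exp_eq_sum hN', exp_eq_sum hN, LinearMap.sum_apply, Finset.mul_sum]
      apply Finset.sum_congr rfl
      intro k _
      rw [LinearMap.smul_apply, LinearMap.pow_mulRight, LinearMap.mulRight_apply, mul_smul_comm]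
    have e2 : ∀ Z : Module.End K V, exp (LinearMap.mulLeft K x) Z = exp x * Z := by
      intro Z
      obtain ⟨N, hN⟩ := hx
      have hN' : (LinearMap.mulLeft K x) ^ N = 0 := by
        rw [LinearMap.pow_mulLeft, hN]; ext; simp
      rw [exp_eq_sum hN', exp_eq_sum hN, LinearMap.sum_apply, Finset.sum_mul]
      apply Finset.sum_congr rfl
      intro k _
      rw [LinearMap.smul_apply, LinearMap.pow_mulLeft, LinearMap.mulLeft_apply, smul_mul_assoc]
    rw [dbl, IsNilpotent.exp_add_of_commute hc hl hr, Module.End.mul_apply, e1, e2, mul_assoc]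
  have hneg : -(dbl f) = dbl (-f) := by
    apply LinearMap.ext
    intro Y
    rw [LinearMap.neg_apply, dbl_apply, dbl_apply]
    noncomm_ring
  have hw2 : weyl (dbl e) (dbl f) T = weyl e f * T * weyl e f := by
    rw [weyl, Module.End.mul_apply, Module.End.mul_apply, hneg, hexp hne, hexp hnf.neg, hexp hne,
      weyl]
    noncomm_ring
  rw [hw2] at hw
  rw [hw, smul_smul, mul_inv_cancel₀ (by exact_mod_cast Nat.factorial_ne_zero _), one_smul]

end Pool.Agent.H914
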