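import Pool.Agent.H90.G.S8.H914R2.Restr

/-!
# Positivity of the algebraic part
-/

open Finset Polynomial

namespace Pool.Agent.H914

variable {K : Type*} [Field K] [CharZero K] {V : Type*} [AddCommGroup V] [Module K V]
  [Module.Finite K V] {gr : ℕ → Submodule K V} {n : ℕ} {L : Module.End K V}
  {B : V →ₗ[K] V →ₗ[K] K} {C : ℕ → Set V}

/-- The trace on the algebraic part. -/
lemma trace_alg {w : Module.End K V} {κ : Type} [Fintype κ] {l : κ → ℕ} {x : κ → V} {φ : κ → ℚ}
    {p : Module.End K V} (hp : ProjData n B C w κ l x φ p) (A : Module.End K V) :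
    LinearMap.trace K V (A * p) = ∑ k, (φ k : K)⁻¹ * B (A (x k)) (w (x k)) := by
  have h1 : A * p = ∑ k, (φ k : K)⁻¹ • ((B.flip (w (x k))).smulRight (A (x k))) := by
    apply LinearMap.ext
    intro y
    rw [Module.End.mul_apply, hp.p_eq, map_sum, LinearMap.sum_apply]
    apply Finset.sum_congr rfl
    intro k _
    rw [map_smul, LinearMap.smul_apply, LinearMap.smulRight_apply, LinearMap.flip_apply, smul_smul]
  rw [h1, map_sum]
  apply Finset.sum_congr rfl
  intro k _
  rw [map_smul, LinearMap.trace_smulRight, LinearMap.flip_apply, smul_eq_mul]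

namespace AlgPart

variable (hC : AlgPart gr n L B C)
  {H Lam w : Module.End K V} (t : Sl2 H L Lam) (hw1 : w * L = -(Lam * w))
  (hw3 : ∀ (m : ℕ) (v : V), Lam v = 0 → H v = -(m : K) • v →
      w v = ((m.factorial : K)⁻¹) • (L ^ m) v)
  (hlow : ∀ i ≤ n, ∀ a ∈ gr i, (L ^ (n - i + 1)) a = 0 → Lam a = 0)
  (hH : ∀ i, ∀ a ∈ gr i, H a = ((i : K) - n) • a)

include hC t hw1 hw3 hlow hH

theorem apart_pos (hL : IsHom gr 2 L) (hbd : ∀ i, 2 * n + 1 ≤ i → gr i = ⊥)
    {κ : Type} [Fintype κ] {l : κ → ℕ} {x : κ → V} {φ : κ → ℚ} {p : Module.End K V}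
    (hp : ProjData n B C w κ l x φ p) {r : ℕ} {T T' ε : Module.End K V}
    (hε : ∀ l, ∀ c ∈ C l, ε c = c)
    (hTadj : ∀ a b, B (T a) b = B a (T' b))
    (hTC : ∀ l, ∀ c ∈ C l, r ≤ l → T c ∈ C (l - r))
    (hTC' : ∀ l, ∀ c ∈ C l, r ≤ l → T' c ∈ C (l - r))
    (hT0 : ∀ l, l < r → ∀ c ∈ C l, T c = 0) (hT0' : ∀ l, l < r → ∀ c ∈ C l, T' c = 0) :
    ∃ s : ℚ, (-1 : K) ^ (n + r) * LinearMap.trace K V
      (ε * (((2 * r).factorial : K) • (w * T * w)) * T' * p) = s ∧ 0 ≤ s ∧
      (s = 0 → ∀ l, ∀ c ∈ C l, T c = 0) := by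
  have key : ∀ k : κ, ∃ s : ℚ, (-1 : K) ^ (n + r) * ((φ k : K)⁻¹ *
      B ((ε * (((2 * r).factorial : K) • (w * T * w)) * T') (x k)) (w (x k))) = s ∧ 0 ≤ s ∧
      (s = 0 → T' (x k) = 0) := by
    intro k
    by_cases hk : l k < r
    · refine ⟨0, ?_, le_refl _, fun _ => hT0' _ hk _ (hp.mem k)⟩
      rw [Module.End.mul_apply, hT0' _ hk _ (hp.mem k), map_zero, map_zero, LinearMap.zero_apply]
      simp
    · have hk' : r ≤ l k := by omega
      have hln := hp.le k
      have hy : T' (x k) ∈ C (l k - r) := hTC' _ _ (hp.mem k) hk'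
      by_cases hy0 : T' (x k) = 0
      · refine ⟨0, ?_, le_refl _, fun _ => hy0⟩
        rw [Module.End.mul_apply, hy0, map_zero, map_zero, LinearMap.zero_apply]
        simp
      · obtain ⟨ψ, hψ, hψpos⟩ := hC.weyl_pos t hw1 hw3 hlow hH hL hbd hy hy0
        have hwy := hC.weyl_mem t hw1 hw3 hlow hH hL hbd (l := l k - r) (by omega) hy
        have hc : T (w (T' (x k))) ∈ C (n - l k) := by
          have := hTC _ _ hwy (by omega)
          rwa [show n - (l k - r) - r = n - l k by omega] at this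
        have hwc := hC.weyl_mem t hw1 hw3 hlow hH hL hbd (l := n - l k) (by omega) hc
        have e1 : B ((ε * (((2 * r).factorial : K) • (w * T * w)) * T') (x k)) (w (x k)) =
            ((2 * r).factorial : K) * ((-1) ^ n * ψ) := by
          rw [Module.End.mul_apply, Module.End.mul_apply, LinearMap.smul_apply, map_smul,
            Module.End.mul_apply, Module.End.mul_apply, hε _ _ hwc, map_smul, LinearMap.smul_apply,
            smul_eq_mul, hC.weyl_symm t hw1 hw3 hlow hH hL hbd hwc (hp.mem k),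
            hC.weyl_sq t hw1 hw3 hlow hH hL hbd hc, map_smul, smul_eq_mul,
            hC.symm _ _ (hC.sub _ _ (hp.mem k)), hTadj, ← hC.symm _ _ (hC.sub _ _ hy), hψ]
        refine ⟨((2 * r).factorial : ℚ) * ((-1) ^ r * ((φ k)⁻¹ * ψ)), ?_, ?_, ?_⟩
        · rw [e1]
          push_cast
          have h9 : (-1 : K) ^ n * (-1) ^ n = 1 := by rw [← mul_pow]; simp
          rw [pow_add]
          linear_combination ((-1 : K) ^ r * ((φ k : K)⁻¹ * (((2 * r).factorial : K) * ψ))) * h9
        · have h1 := hp.pos k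
          have h2 : 0 < (φ k)⁻¹ * (-1) ^ (l k) := by
            have h3 : (φ k)⁻¹ * (-1) ^ (l k) = ((-1) ^ (l k) * φ k)⁻¹ := by
              rw [mul_inv, mul_comm, ← inv_pow]; norm_num
            rw [h3]; positivity
          have h4 : (-1 : ℚ) ^ r * ((φ k)⁻¹ * ψ) =
              ((φ k)⁻¹ * (-1) ^ (l k)) * ((-1) ^ (l k - r) * ψ) := by
            have h5 : (-1 : ℚ) ^ (l k) = (-1) ^ (l k - r) * (-1) ^ r := by
              rw [← pow_add]; congr 1; omega
            have h6 : (-1 : ℚ) ^ (l k - r) * (-1) ^ (l k - r) = 1 := by rw [← mul_pow]; simp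
            rw [h5]
            linear_combination (-((φ k)⁻¹ * ψ * (-1 : ℚ) ^ r)) * h6
          rw [h4]
          positivity
        · intro h0
          exfalso
          have h1 := hp.pos k
          have h2 : φ k ≠ 0 := by
            intro h; rw [h, mul_zero] at h1; exact lt_irrefl _ h1
          have h3 : ψ ≠ 0 := by
            intro h; rw [h, mul_zero] at hψpos; exact lt_irrefl _ hψpos
          have h4 : ((2 * r).factorial : ℚ) ≠ 0 := by exact_mod_cast Nat.factorial_ne_zero _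
          have h5 : (-1 : ℚ) ^ r ≠ 0 := pow_ne_zero _ (by norm_num)
          exact (mul_ne_zero h4 (mul_ne_zero h5 (mul_ne_zero (inv_ne_zero h2) h3))) h0
  choose σ hσ hσ0 hσz using key
  refine ⟨∑ k, σ k, ?_, Finset.sum_nonneg (fun k _ => hσ0 k), ?_⟩
  · rw [trace_alg hp, Finset.mul_sum]
    push_cast
    exact Finset.sum_congr rfl (fun k _ => hσ k)
  · intro hs
    have h1 := (Finset.sum_eq_zero_iff_of_nonneg (fun k _ => hσ0 k)).1 hs
    have h2 : ∀ k, T' (x k) = 0 := fun k => hσz k (h1 k (Finset.mem_univ k))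
    have h3 : ∀ l, ∀ c ∈ C l, T' c = 0 := by
      intro l c hc
      rw [← hp.fix l c hc, hp.p_eq, map_sum]
      apply Finset.sum_eq_zero
      intro k _
      rw [map_smul, h2, smul_zero]
    intro l₀ c hc
    by_cases hl : l₀ < r
    · exact hT0 _ hl _ hc
    by_contra h0
    have hTc := hTC _ _ hc (by omega)
    obtain ⟨ψ, hψ, hψpos⟩ := hC.weyl_pos t hw1 hw3 hlow hH hL hbd hTc h0
    by_cases hln : l₀ ≤ n
    · have hw := hC.weyl_mem t hw1 hw3 hlow hH hL hbd (l := l₀ - r) (by omega) hTc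
      rw [hTadj, h3 _ _ hw, map_zero] at hψ
      have : ψ = 0 := by exact_mod_cast hψ.symm
      rw [this, mul_zero] at hψpos
      exact lt_irrefl _ hψpos
    · apply h0
      rw [hC.eq_zero_of_gt hbd (by omega) hc, map_zero]

end AlgPart

end Pool.Agent.H914
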