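import Pool.Agent.H90.G.S8.H914R2.Slices
import Pool.Agent.H90.G.S8.H914R2.GConv3

/-!
# The algebraic and the transcendental part of the cohomology
-/

open CategoryTheory AlgebraicGeometry Finset TensorProduct Polynomial

universe u v

namespace Pool.Agent.H914

open VarClass Obj WeilCohomology

variable {k : Type u} [Field k] {𝒱 : VarClass k} {ops : CycleOps 𝒱}
  {W : WeilCohomology.{u, v} ops} {X : 𝒱.Obj}

lemma spanCycles_eq (l : ℕ) : spanCycles W X l = Submodule.span W.K (algClasses W X l) := by
  rw [spanCycles]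
  congr 1
  ext c
  constructor
  · rintro ⟨p, hp, z, hz, rfl⟩
    obtain rfl : p = l := by exact_mod_cast hp
    exact ⟨z, hz, rfl⟩
  · rintro ⟨z, hz, rfl⟩
    exact ⟨l, rfl, z, hz, rfl⟩

lemma alg_mem_span {l : ℕ} {c : W.H X} (hc : c ∈ algClasses W X l) : c ∈ spanCycles W X l := by
  rw [spanCycles_eq]; exact Submodule.subset_span hc

lemma alg_zero (l : ℕ) : (0 : W.H X) ∈ algClasses W X l := ⟨0, SmVar.IsCyc.zero _ _, map_zero _⟩

lemma alg_add {l : ℕ} {a b : W.H X} (ha : a ∈ algClasses W X l) (hb : b ∈ algClasses W X l) :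
    a + b ∈ algClasses W X l := by
  obtain ⟨z, hz, rfl⟩ := ha
  obtain ⟨w, hw, rfl⟩ := hb
  exact ⟨z + w, hz.add hw, map_add _ _ _⟩

lemma alg_smul {l : ℕ} (q : ℚ) {a : W.H X} (ha : a ∈ algClasses W X l) :
    (q : W.K) • a ∈ algClasses W X l := by
  obtain ⟨z, hz, rfl⟩ := ha
  exact ⟨q • z, hz.smul q, W.cl_smul q z⟩

lemma alg_gr {l : ℕ} {a : W.H X} (ha : a ∈ algClasses W X l) : a ∈ W.gr X (2 * l) := by
  obtain ⟨z, hz, rfl⟩ := ha
  exact W.cl_mem hz

lemma span_gr {l : ℕ} {a : W.H X} (ha : a ∈ spanCycles W X l) : a ∈ W.gr X (2 * l) := by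
  have := spanCycles_deg ha
  rwa [show (2 * ((l : ℕ) : ℤ)) = ((2 * l : ℕ) : ℤ) by push_cast; ring, grZ_natCast] at this

lemma bil_eq_zero {i j : ℕ} {a b : W.H X} (ha : a ∈ W.gr X i) (hb : b ∈ W.gr X j)
    (hij : i + j ≠ 2 * X.dim) : bil W X a b = 0 :=
  W.tr_eq_zero (W.mul_mem ha hb) hij

lemma alg_rat {l l' : ℕ} {a b : W.H X} (ha : a ∈ algClasses W X l) (hb : b ∈ algClasses W X l') :
    ∃ s : ℚ, bil W X a b = s := by
  obtain ⟨z, hz, rfl⟩ := ha
  obtain ⟨z', hz', rfl⟩ := hb
  by_cases h : l + l' = X.dim
  · refine ⟨X.V.degCycle (ops.mul z z'), ?_⟩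
    rw [bil_apply, ← W.cl_mul, W.tr_cl (h ▸ ops.mul_mem hz hz')]
  · refine ⟨0, ?_⟩
    rw [bil_eq_zero (W.cl_mem hz) (W.cl_mem hz') (by omega), Rat.cast_zero]

lemma bil_even {l : ℕ} {a : W.H X} (ha : a ∈ W.gr X (2 * l)) (b : W.H X) :
    bil W X a b = bil W X b a := by
  rw [bil_apply, bil_apply, W.even_comm ha]

/-- The intersection form is nondegenerate on the span of the algebraic classes. -/
lemma cNondeg (hDX : HomEqNum W X) {l l' : ℕ} (hl : l + l' = X.dim) {u : W.H X}
    (hu : u ∈ spanCycles W X l) (h : ∀ b ∈ algClasses W X l', bil W X u b = 0) : u = 0 := by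
  rw [spanCycles_eq] at hu
  refine span_nondeg (bil W X) (algClasses W X l) (algClasses W X l') (alg_zero l)
    (fun a ha b hb => alg_add ha hb) (fun q a ha => alg_smul q ha)
    (fun a ha b hb => alg_rat ha hb) ?_ u hu h
  rintro _ ⟨z, hz, rfl⟩ h0
  apply hDX l (by omega) z hz
  intro w hw
  obtain rfl : l' = X.dim - l := by omega
  have h1 := h0 _ ⟨w, hw, rfl⟩
  have h2 := ops.mul_mem hz hw
  rw [hl] at h2
  rw [bil_apply, ← W.cl_mul, W.tr_cl h2] at h1
  exact_mod_cast h1

/-- Rank one operators given by algebraic classes. -/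
lemma rankOne_mem {l l' : ℕ} {c c' : W.H X} (hc : c ∈ spanCycles W X l)
    (hc' : c' ∈ spanCycles W X l') :
    ((bil W X).flip c').smulRight c ∈ KOp W X X ((l : ℤ) + l' - X.dim) := by
  rw [spanCycles_eq] at hc hc'
  induction hc using Submodule.span_induction with
  | mem c hc =>
    induction hc' using Submodule.span_induction with
    | mem c' hc' =>
      have h1 := corr_swap_tmul (W := W) (X := X) (Y := X) (alg_gr hc) (alg_gr hc')
      have h2 : ((bil W X).flip c').smulRight c =
          (W.tr X ∘ₗ LinearMap.mulLeft W.K c').smulRight c := by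
        apply LinearMap.ext
        intro a
        rw [LinearMap.smulRight_apply, LinearMap.smulRight_apply, LinearMap.flip_apply,
          LinearMap.comp_apply, LinearMap.mulLeft_apply, ← bil_apply, bil_even (alg_gr hc')]
      rw [h2, ← h1]
      obtain ⟨z, hz, rfl⟩ := hc
      obtain ⟨z', hz', rfl⟩ := hc'
      rw [← W.cl_pull, ← W.cl_pull, ← W.cl_mul, ← W.cl_pull]
      exact KOp.gen (p := l + l') (by push_cast; ring)
        (ops.pull_mem _ (ops.mul_mem (ops.pull_mem _ hz) (ops.pull_mem _ hz')))
    | zero =>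
      have : ((bil W X).flip 0).smulRight c = 0 := by
        apply LinearMap.ext; intro a; simp
      rw [this]; exact Submodule.zero_mem _
    | add x y _ _ hx hy =>
      have : ((bil W X).flip (x + y)).smulRight c = ((bil W X).flip x).smulRight c +
          ((bil W X).flip y).smulRight c := by
        apply LinearMap.ext; intro a; simp [add_smul]
      rw [this]; exact Submodule.add_mem _ hx hy
    | smul q x _ hx =>
      have : ((bil W X).flip (q • x)).smulRight c = q • ((bil W X).flip x).smulRight c := by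
        apply LinearMap.ext; intro a; simp [mul_smul]
      rw [this]; exact Submodule.smul_mem _ _ hx
  | zero =>
    have : ((bil W X).flip c').smulRight (0 : W.H X) = 0 := by
      apply LinearMap.ext; intro a; simp
    rw [this]; exact Submodule.zero_mem _
  | add x y _ _ hx hy =>
    have : ((bil W X).flip c').smulRight (x + y) = ((bil W X).flip c').smulRight x +
        ((bil W X).flip c').smulRight y := by
      apply LinearMap.ext; intro a; simp
    rw [this]; exact Submodule.add_mem _ hx hy
  | smul q x _ hx =>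
    have : ((bil W X).flip c').smulRight (q • x) = q • ((bil W X).flip c').smulRight x := by
      apply LinearMap.ext; intro a
      rw [LinearMap.smul_apply, LinearMap.smulRight_apply, LinearMap.smulRight_apply, smul_comm]
    rw [this]; exact Submodule.smul_mem _ _ hx

/-- The projectors to the spans of the algebraic classes. -/
structure CProj (W : WeilCohomology.{u, v} ops) (X : 𝒱.Obj) (π : ℕ → Module.End W.K (W.H X)) :
    Prop where
  fix : ∀ l : ℕ, l ≤ X.dim → ∀ u ∈ spanCycles W X l, π l u = u
  mem : ∀ (l : ℕ) a, π l a ∈ spanCycles W X l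
  adj : ∀ l : ℕ, l ≤ X.dim → ∀ a, ∀ c ∈ algClasses W X (X.dim - l), bil W X (π l a) c = bil W X a c
  kill : ∀ l : ℕ, l ≤ X.dim → ∀ a, (∀ c ∈ algClasses W X (X.dim - l), bil W X a c = 0) → π l a = 0
  alg : ∀ l : ℕ, ∀ A : Module.End W.K (W.H X), π l * A * π l ∈ KOp W X X 0

lemma exists_cProj (hDX : HomEqNum W X) : ∃ π, CProj W X π := by
  classical
  have key : ∀ l : ℕ, ∃ π : Module.End W.K (W.H X), l ≤ X.dim →
      (∀ u ∈ spanCycles W X l, π u = u) ∧ (∀ a, π a ∈ spanCycles W X l) ∧
      (∀ a, ∀ c ∈ algClasses W X (X.dim - l), bil W X (π a) c = bil W X a c) ∧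
      (∀ a, (∀ c ∈ algClasses W X (X.dim - l), bil W X a c = 0) → π a = 0) ∧
      (∀ A : Module.End W.K (W.H X), π * A * π ∈ KOp W X X 0) := by
    intro l
    by_cases hl : l ≤ X.dim
    swap
    · exact ⟨0, fun h => absurd h hl⟩
    set l' := X.dim - l with hl'
    have hll : l + l' = X.dim := by omega
    obtain ⟨N, c, c', hc, hc', hcc, hU, hU'⟩ := exists_dual_families (bil W X)
      (spanCycles W X l) (spanCycles W X l')
      (fun u hu h => cNondeg hDX hll hu (fun b hb => h b (alg_mem_span hb)))
      (fun u' hu' h => cNondeg hDX (show l' + l = X.dim by omega) hu' (fun b hb => by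
        rw [bil_even (span_gr hu')]
        exact h b (alg_mem_span hb)))
    refine ⟨∑ i, ((bil W X).flip (c' i)).smulRight (c i), fun _ => ?_⟩
    have hπ : ∀ a, (∑ i, ((bil W X).flip (c' i)).smulRight (c i)) a =
        ∑ i, bil W X a (c' i) • c i := by
      intro a
      rw [LinearMap.sum_apply]
      rfl
    set π := ∑ i, ((bil W X).flip (c' i)).smulRight (c i) with hπdef
    refine ⟨?_, ?_, ?_, ?_, ?_⟩
    · intro u hu
      rw [hπ]
      exact (hU u hu).symm
    · intro a
      rw [hπ]
      exact Submodule.sum_mem _ (fun i _ => Submodule.smul_mem _ _ (hc i))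
    · intro a c₀ hc₀
      rw [hπ, map_sum, LinearMap.sum_apply]
      conv_rhs => rw [hU' c₀ (alg_mem_span hc₀), map_sum]
      apply Finset.sum_congr rfl
      intro i _
      rw [map_smul, LinearMap.smul_apply, map_smul, smul_eq_mul, smul_eq_mul, mul_comm]
    · intro a ha
      rw [hπ]
      apply Finset.sum_eq_zero
      intro i _
      have h1 : ∀ u ∈ spanCycles W X l', bil W X a u = 0 := by
        intro u hu
        rw [spanCycles_eq] at hu
        induction hu using Submodule.span_induction with
        | mem u hu => exact ha u hu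
        | zero => rw [map_zero]
        | add x y _ _ hx hy => rw [map_add, hx, hy, add_zero]
        | smul q x _ hx => rw [map_smul, hx, smul_zero]
      rw [h1 _ (hc' i), zero_smul]
    · intro A
      have h1 : π * A * π = ∑ i, ((bil W X).flip (c' i)).smulRight (π (A (c i))) := by
        apply LinearMap.ext
        intro a
        rw [Module.End.mul_apply, Module.End.mul_apply, hπ a, map_sum, map_sum,
          LinearMap.sum_apply]
        apply Finset.sum_congr rfl
        intro i _
        rw [map_smul, map_smul]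
        rfl
      rw [h1]
      apply Submodule.sum_mem
      intro i _
      have h2 : π (A (c i)) ∈ spanCycles W X l := by
        rw [hπ]
        exact Submodule.sum_mem _ (fun i _ => Submodule.smul_mem _ _ (hc i))
      exact KOp.cast (rankOne_mem h2 (hc' i)) (by omega)
  choose π hπ using key
  refine ⟨fun l => if l ≤ X.dim then π l else 0, ?_, ?_, ?_, ?_, ?_⟩
  · intro l hl
    simp only [if_pos hl]
    exact (hπ l hl).1
  · intro l a
    by_cases hl : l ≤ X.dim
    · simp only [if_pos hl]
      exact (hπ l hl).2.1 a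
    · simp only [if_neg hl]
      exact Submodule.zero_mem _
  · intro l hl
    simp only [if_pos hl]
    exact (hπ l hl).2.2.1
  · intro l hl
    simp only [if_pos hl]
    exact (hπ l hl).2.2.2.1
  · intro l A
    by_cases hl : l ≤ X.dim
    · simp only [if_pos hl]
      exact (hπ l hl).2.2.2.2 A
    · simp only [if_neg hl, mul_zero]
      exact Submodule.zero_mem _

lemma mem_trans {a : W.H X} :
    a ∈ transcendental W X ↔ ∀ j, ∀ c ∈ algClasses W X j, bil W X a c = 0 := by
  rw [← Tpart_eq, mem_Tpart]

/-- The projector to the transcendental part. -/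
noncomputable def piT (π : ℕ → Module.End W.K (W.H X)) : Module.End W.K (W.H X) :=
  1 - ∑ l ∈ range (X.dim + 1), π l

namespace CProj

variable {π : ℕ → Module.End W.K (W.H X)} (h : CProj W X π)

include h

lemma idem {l : ℕ} (hl : l ≤ X.dim) : π l * π l = π l := by
  apply LinearMap.ext
  intro a
  rw [Module.End.mul_apply]
  exact h.fix l hl _ (h.mem l a)

lemma ortho {l l' : ℕ} (hl : l ≤ X.dim) (hl' : l' ≤ X.dim) (hne : l ≠ l') {u : W.H X}
    (hu : u ∈ spanCycles W X l') : π l u = 0 := by
  apply h.kill l hl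
  intro c hc
  exact bil_eq_zero (span_gr hu) (alg_gr hc) (by omega)

lemma trans {l : ℕ} (hl : l ≤ X.dim) {a : W.H X} (ha : a ∈ transcendental W X) : π l a = 0 :=
  h.kill l hl a (fun c hc => mem_trans.1 ha _ c hc)

lemma mem_KOp (l : ℕ) (hl : l ≤ X.dim) : π l ∈ KOp W X X 0 := by
  have := h.alg l 1
  rwa [mul_one, h.idem hl] at this

lemma piT_mem : piT π ∈ KOp W X X 0 := by
  apply Submodule.sub_mem _ (KOp.id X)
  exact Submodule.sum_mem _ (fun l hl => h.mem_KOp l (by
    have := Finset.mem_range.1 hl; omega))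

lemma piT_fix {a : W.H X} (ha : a ∈ transcendental W X) : piT π a = a := by
  rw [piT, LinearMap.sub_apply, Module.End.one_apply, LinearMap.sum_apply,
    Finset.sum_eq_zero, sub_zero]
  intro l hl
  exact h.trans (by have := Finset.mem_range.1 hl; omega) ha

lemma piT_trans (a : W.H X) : piT π a ∈ transcendental W X := by
  rw [mem_trans]
  intro j c hc
  by_cases hj : j ≤ X.dim
  · have h1 : bil W X (∑ l ∈ range (X.dim + 1), π l a) c = bil W X a c := by
      rw [map_sum, LinearMap.sum_apply, Finset.sum_eq_single (X.dim - j)]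
      · apply h.adj _ (by omega)
        rwa [show X.dim - (X.dim - j) = j by omega]
      · intro l hl hne
        have := Finset.mem_range.1 hl
        exact bil_eq_zero (span_gr (h.mem l a)) (alg_gr hc) (by omega)
      · intro h0
        exact absurd (Finset.mem_range.2 (by omega)) h0
    rw [piT, LinearMap.sub_apply, Module.End.one_apply, map_sub, LinearMap.sub_apply,
      LinearMap.sum_apply, h1, sub_self]
  · have h1 := alg_gr hc
    rw [W.gr_eq_bot X _ (by omega)] at h1
    rw [(Submodule.mem_bot _).1 h1, map_zero]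

lemma piT_idem : piT π * piT π = piT π := by
  apply LinearMap.ext
  intro a
  rw [Module.End.mul_apply]
  exact h.piT_fix (h.piT_trans a)

lemma piT_span {l : ℕ} (hl : l ≤ X.dim) {u : W.H X} (hu : u ∈ spanCycles W X l) :
    piT π u = 0 := by
  rw [piT, LinearMap.sub_apply, Module.End.one_apply, LinearMap.sum_apply,
    Finset.sum_eq_single l, h.fix l hl u hu, sub_self]
  · intro l' hl' hne
    exact h.ortho (by have := Finset.mem_range.1 hl'; omega) hl hne hu
  · intro h0
    exact absurd (Finset.mem_range.2 (by omega)) h0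

lemma decomp (a : W.H X) : a = piT π a + ∑ l ∈ range (X.dim + 1), π l a := by
  rw [piT, LinearMap.sub_apply, Module.End.one_apply, LinearMap.sum_apply, sub_add_cancel]

/-- Operators which preserve the algebraic and the transcendental part commute with the
projector. -/
lemma piT_comm {Z : Module.End W.K (W.H X)} (hT : ∀ a ∈ transcendental W X,
    Z a ∈ transcendental W X) (hC : ∀ l : ℕ, ∀ u ∈ spanCycles W X l, Z u ∈ spanCycles W X l) :
    Z * piT π = piT π * Z := by
  apply LinearMap.ext
  intro a
  rw [Module.End.mul_apply, Module.End.mul_apply]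
  conv_rhs => rw [h.decomp a]
  rw [map_add, map_add, h.piT_fix (hT _ (h.piT_trans a)), map_sum, map_sum,
    Finset.sum_eq_zero, add_zero]
  intro l hl
  exact h.piT_span (by have := Finset.mem_range.1 hl; omega) (hC l _ (h.mem l a))

end CProj

/-- Algebraic operators preserve the transcendental part. -/
lemma KOp.trans {d : ℤ} {Z : Module.End W.K (W.H X)} (hZ : Z ∈ KOp W X X d) {a : W.H X}
    (ha : a ∈ transcendental W X) : Z a ∈ transcendental W X := by
  rw [mem_trans] at ha ⊢
  intro j c hc
  obtain ⟨ψ, hψ, hadj⟩ := KOp.exists_adjoint hZ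
  rw [bil_apply, hadj]
  have h1 := KOp.map_span hψ (alg_mem_span hc)
  have key : ∀ i : ℤ, ∀ u ∈ spanCycles W X i, W.tr X (a * u) = 0 := by
    intro i u hu
    induction hu using Submodule.span_induction with
    | mem u hu =>
      obtain ⟨p, hp, z, hz, rfl⟩ := hu
      exact ha p _ ⟨z, hz, rfl⟩
    | zero => rw [mul_zero, map_zero]
    | add x y _ _ hx hy => rw [mul_add, map_add, hx, hy, add_zero]
    | smul q x _ hx => rw [mul_smul_comm, map_smul, hx, smul_zero]
  exact key _ _ h1

lemma KOp.span0 {Z : Module.End W.K (W.H X)} (hZ : Z ∈ KOp W X X 0) (l : ℕ) {u : W.H X}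
    (hu : u ∈ spanCycles W X l) : Z u ∈ spanCycles W X l := by
  have := KOp.map_span hZ hu
  rwa [add_zero] at this

lemma KOp.ofRop {d : ℤ} {Z : Module.End W.K (W.H X)} (hZ : ROp W X d Z) : Z ∈ KOp W X X d :=
  mem_KS_iff.1 (Submodule.subset_span hZ)

lemma proj_trans (i : ℕ) {a : W.H X} (ha : a ∈ transcendental W X) :
    proj (W.isInternal X) i a ∈ transcendental W X := by
  rw [mem_trans] at ha ⊢
  intro j c hc
  by_cases hij : i + 2 * j = 2 * X.dim
  · rw [← ha j c hc]
    refine gr_induction (W.isInternal X)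
      (p := fun a => bil W X (proj (W.isInternal X) i a) c = bil W X a c) ?_ ?_ a
    · intro l b hb
      by_cases hl : l = i
      · subst hl; rw [proj_same _ hb]
      · rw [proj_ne _ hb hl, map_zero, LinearMap.zero_apply,
          bil_eq_zero hb (alg_gr hc) (by omega)]
    · intro b b' hb hb'
      rw [map_add, map_add, LinearMap.add_apply, map_add, LinearMap.add_apply, hb, hb']
  · exact bil_eq_zero (proj_mem _ i a) (alg_gr hc) hij

lemma proj_span (i l : ℕ) {u : W.H X} (hu : u ∈ spanCycles W X l) :
    proj (W.isInternal X) i u ∈ spanCycles W X l := by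
  by_cases hi : 2 * l = i
  · subst hi
    rw [proj_same _ (span_gr hu)]
    exact hu
  · rw [proj_ne _ (span_gr hu) hi]
    exact Submodule.zero_mem _

end Pool.Agent.H914
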