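import Pool.Agent.H90.G.S8.H914R2.Graded

/-!
# Comparison of gradings through super traces
-/

open Polynomial Finset

namespace Pool.Agent.H914

section Defs

variable {K : Type*} [Field K] [CharZero K] {V : Type*} [AddCommGroup V] [Module K V]
  {gr : ℕ → Submodule K V}

/-- The weight operator, acting as `i - n` on the `i`-th graded piece. -/
noncomputable def wt (h : DirectSum.IsInternal gr) (n : ℕ) : Module.End K V :=
  scal h (fun i => ((node n i : ℚ) : K))

/-- The parity operator, acting as `(-1)^i` on the `i`-th graded piece. -/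
noncomputable def par (h : DirectSum.IsInternal gr) : Module.End K V :=
  scal h (fun i => (-1 : K) ^ i)

lemma par_mul_par (h : DirectSum.IsInternal gr) : par h * par h = 1 := by
  rw [par, scal_mul, ← scal_one h]
  congr 1
  funext i
  rw [← mul_pow]
  simp

lemma IsHom.wt_comm (h : DirectSum.IsInternal gr) {d : ℤ} {y : Module.End K V}
    (hy : IsHom gr d y) (n : ℕ) : wt h n * y = y * wt h n + (d : K) • y := by
  have h1 := hy.scal_comm h (fun j => (j : K) - n) (fun j => (j : K) + d - n)
    (fun j => by push_cast; ring)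
  have h2 : wt h n = scal h (fun i : ℕ => (((i : ℤ) : K) - n)) := by
    unfold wt node
    congr 1
    funext i
    push_cast
    ring
  have h3 : scal h (fun i : ℕ => (((i : ℤ) : K) + d - n)) =
      scal h (fun i : ℕ => (((i : ℤ) : K) - n)) + (d : K) • 1 := by
    apply gr_ext h
    intro i a ha
    rw [LinearMap.add_apply, scal_apply h _ ha, scal_apply h _ ha, LinearMap.smul_apply,
      Module.End.one_apply, ← add_smul]
    congr 1
    ring
  rw [h2]
  refine h1.trans ?_
  rw [h3, mul_add, mul_smul_comm, mul_one]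

lemma IsHom.par_comm (h : DirectSum.IsInternal gr) {d : ℤ} {y : Module.End K V}
    (hy : IsHom gr (2 * d) y) : par h * y = y * par h := by
  have h1 := hy.scal_comm h (fun j => (-1 : K) ^ j) (fun j => (-1 : K) ^ j)
    (fun j => by
      rw [zpow_add₀ (by norm_num : (-1 : K) ≠ 0), zpow_mul]
      norm_num)
  have h2 : par h = scal h (fun i : ℕ => (-1 : K) ^ (i : ℤ)) := by
    unfold par
    congr 1
    funext i
    rw [zpow_natCast]
  rw [h2]
  exact h1

lemma trace_comm_wt [Module.Finite K V] (h : DirectSum.IsInternal gr) (n : ℕ) {d : ℤ}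
    {u v : Module.End K V} (hu : IsHom gr d u) :
    LinearMap.trace K V ((u * v - v * u) * wt h n) = (d : K) * LinearMap.trace K V (u * v) := by
  have h1 := hu.wt_comm h n
  have h2 : v * u * wt h n = v * wt h n * u - (d : K) • (v * u) := by
    have : u * wt h n = wt h n * u - (d : K) • u := by rw [h1]; abel
    rw [mul_assoc, this, mul_sub, ← mul_assoc, mul_smul_comm]
  rw [sub_mul, h2, map_sub, map_sub, map_smul, LinearMap.trace_mul_comm K v u, smul_eq_mul]
  have h3 : LinearMap.trace K V (v * wt h n * u) = LinearMap.trace K V (u * v * wt h n) := by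
    rw [LinearMap.trace_mul_comm, mul_assoc]
  rw [h3]
  ring

end Defs

section Pair

variable {K₀ : Type*} [Field K₀] [CharZero K₀] {V₀ : Type*} [AddCommGroup V₀] [Module K₀ V₀]
  [Module.Finite K₀ V₀] {gr₀ : ℕ → Submodule K₀ V₀} (h₀ : DirectSum.IsInternal gr₀)
  {K : Type*} [Field K] [CharZero K] {V : Type*} [AddCommGroup V] [Module K V]
  [Module.Finite K V] {gr : ℕ → Submodule K V} (h : DirectSum.IsInternal gr)

/-- A relation between operators of degree zero on two graded spaces (in the application: being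
induced by a common algebraic correspondence), compatible with the operations and with super
traces. -/
structure PairRel (P : Module.End K₀ V₀ → Module.End K V → Prop) : Prop where
  one : P 1 1
  add : ∀ {x x' y y'}, P x y → P x' y' → P (x + x') (y + y')
  mul : ∀ {x x' y y'}, P x y → P x' y' → P (x * x') (y * y')
  smul : ∀ (q : ℚ) {x y}, P x y → P ((q : K₀) • x) ((q : K) • y)
  tr : ∀ {x y}, P x y → ∃ q : ℚ, LinearMap.trace K₀ V₀ (par h₀ * x) = q ∧
    LinearMap.trace K V (par h * y) = q
  hom : ∀ {x y}, P x y → IsHom gr 0 y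

variable {h₀ h} {P : Module.End K₀ V₀ → Module.End K V → Prop}

namespace PairRel

variable (hP : PairRel h₀ h P)

include hP

lemma zero : P 0 0 := by
  have := hP.smul 0 hP.one
  simpa using this

lemma neg {x y} (hxy : P x y) : P (-x) (-y) := by
  have := hP.smul (-1) hxy
  simpa using this

lemma sub {x x' y y'} (hxy : P x y) (hxy' : P x' y') : P (x - x') (y - y') := by
  rw [sub_eq_add_neg, sub_eq_add_neg]
  exact hP.add hxy (hP.neg hxy')

lemma sum {ι : Type*} {s : Finset ι} {x : ι → Module.End K₀ V₀} {y : ι → Module.End K V}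
    (hxy : ∀ i ∈ s, P (x i) (y i)) : P (∑ i ∈ s, x i) (∑ i ∈ s, y i) := by
  classical
  induction s using Finset.induction_on with
  | empty => simpa using hP.zero
  | insert a s ha ih =>
    rw [Finset.sum_insert ha, Finset.sum_insert ha]
    exact hP.add (hxy a (by simp)) (ih (fun i hi => hxy i (by simp [hi])))

lemma pow {x y} (hxy : P x y) (r : ℕ) : P (x ^ r) (y ^ r) := by
  induction r with
  | zero => simpa using hP.one
  | succ r ih => rw [pow_succ, pow_succ]; exact hP.mul ih hxy

lemma ev {x y} (hxy : P x y) (f : ℚ[X]) : P (ev x f) (H914.ev y f) := by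
  induction f using Polynomial.induction_on' with
  | add p q hp hq => rw [map_add, map_add]; exact hP.add hp hq
  | monomial r d =>
    have h1 : H914.ev x (monomial r d) = (d : K₀) • x ^ r := by
      rw [← C_mul_X_pow_eq_monomial, map_mul, map_pow, ev_C, ev_X, smul_mul_assoc, one_mul]
    have h2 : H914.ev y (monomial r d) = (d : K) • y ^ r := by
      rw [← C_mul_X_pow_eq_monomial, map_mul, map_pow, ev_C, ev_X, smul_mul_assoc, one_mul]
    rw [h1, h2]
    exact hP.smul d (hP.pow hxy r)

end PairRel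

variable {n : ℕ}

/-- The Hermite projectors of the weight operator. -/
lemma ev_wt_herm (h : DirectSum.IsInternal gr) (hbd : ∀ i, 2 * n + 1 ≤ i → gr i = ⊥) {N : ℕ}
    (hN : 1 ≤ N) {i : ℕ} (hi : i ∈ range (2 * n + 1)) :
    ev (wt h n) (herm n N i) = proj h i := by
  have key : ∀ f : ℚ[X], ev (wt h n) f = scal h (fun j => ((f.eval (node n j) : ℚ) : K)) := by
    intro f
    induction f using Polynomial.induction_on' with
    | add p q hp hq =>
      rw [map_add, hp, hq, scal_add]
      congr 1
      funext j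
      rw [eval_add]; push_cast; ring
    | monomial r d =>
      rw [← C_mul_X_pow_eq_monomial, map_mul, map_pow, ev_C, ev_X, wt, scal_pow, smul_mul_assoc,
        one_mul]
      apply gr_ext h
      intro j a ha
      rw [LinearMap.smul_apply, scal_apply h _ ha, scal_apply h _ ha, smul_smul]
      congr 1
      simp
  rw [key]
  apply gr_ext h
  intro j a ha
  rw [scal_apply h _ ha]
  by_cases hj : j < 2 * n + 1
  · by_cases hij : j = i
    · subst hij
      rw [eval_herm_self n hN, Rat.cast_one, one_smul, proj_same h ha]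
    · rw [eval_herm_ne hN (Finset.mem_range.2 hj) hij, Rat.cast_zero, zero_smul,
        proj_ne h ha hij]
  · rw [hbd j (by omega)] at ha
    rw [(Submodule.mem_bot _).1 ha]
    simp

variable (n) in
/-- First comparison theorem: the projectors. -/
theorem compare_proj (hP : PairRel h₀ h P)
    (hbd₀ : ∀ i, 2 * n + 1 ≤ i → gr₀ i = ⊥) (hbd : ∀ i, 2 * n + 1 ≤ i → gr i = ⊥)
    {ι : Type*} (s : Finset ι) (d : ι → ℤ) (u₀ v₀ : ι → Module.End K₀ V₀)
    (u v : ι → Module.End K V)
    (hu₀ : ∀ i ∈ s, IsHom gr₀ (2 * d i) (u₀ i))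
    (hu : ∀ i ∈ s, IsHom gr (2 * d i) (u i))
    (huv : ∀ i ∈ s, P (u₀ i * v₀ i) (u i * v i)) (hvu : ∀ i ∈ s, P (v₀ i * u₀ i) (v i * u i))
    (hx₀ : ∑ i ∈ s, (u₀ i * v₀ i - v₀ i * u₀ i) = wt h₀ n)
    (D1 : ∑ i ∈ range (2 * n + 1), Module.finrank K (gr i) ≤
      ∑ i ∈ range (2 * n + 1), Module.finrank K₀ (gr₀ i))
    (D2 : ∑ i ∈ range (2 * n + 1), node n i ^ 2 * Module.finrank K (gr i) ≤
      ∑ i ∈ range (2 * n + 1), node n i ^ 2 * Module.finrank K₀ (gr₀ i))
    {N : ℕ} (hN : 1 ≤ N) (hNV : ∑ i ∈ range (2 * n + 1), Module.finrank K₀ (gr₀ i) ≤ N) :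
    ∀ i ∈ range (2 * n + 1),
      ev (∑ i ∈ s, (u i * v i - v i * u i)) (herm n N i) = proj h i ∧
      Module.finrank K (gr i) = Module.finrank K₀ (gr₀ i) := by
  set x₀ := ∑ i ∈ s, (u₀ i * v₀ i - v₀ i * u₀ i) with hx₀'
  set x := ∑ i ∈ s, (u i * v i - v i * u i) with hx'
  set β : ℕ → ℕ := fun i => Module.finrank K₀ (gr₀ i) with hβ
  have hPx : P x₀ x := hP.sum (fun i hi => hP.sub (huv i hi) (hvu i hi))
  have hxhom : IsHom gr 0 x := hP.hom hPx
  have hfinV : Module.finrank K V = ∑ i ∈ range (2 * n + 1), Module.finrank K (gr i) :=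
    finrank_eq_sum h hbd
  have hεx : par h * x = x * par h := by
    have := IsHom.par_comm (d := 0) h (y := x) (by simpa using hxhom)
    exact this
  -- super traces of powers
  have H1 : ∀ r : ℕ, LinearMap.trace K V (par h * x ^ r) =
      ∑ j ∈ range (2 * n + 1), ((-1) ^ j * (β j : K)) * ((node n j : ℚ) : K) ^ r := by
    intro r
    obtain ⟨q, hq₀, hq⟩ := hP.tr (hP.pow hPx r)
    rw [hq]
    rw [hx₀, wt, scal_pow, par, scal_mul, trace_scal h₀ hbd₀] at hq₀
    have h1 : ((∑ j ∈ range (2 * n + 1), ((-1) ^ j * (β j : ℚ)) * (node n j) ^ r : ℚ) : K₀) =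
        (q : K₀) := by
      rw [← hq₀]
      push_cast
      apply Finset.sum_congr rfl
      intro j _
      simp only [hβ]
      ring
    have h2 : q = ∑ j ∈ range (2 * n + 1), ((-1) ^ j * (β j : ℚ)) * (node n j) ^ r := by
      exact_mod_cast h1.symm
    rw [h2]
    push_cast
    rfl
  have hdimle : Module.finrank K V ≤ ∑ j ∈ range (2 * n + 1), β j := by
    rw [hfinV]; exact D1
  obtain ⟨S1, S2, S3, S4, S5, S6⟩ := spectral (par_mul_par h) hεx H1 hdimle hN
    (hdimle.trans hNV)
  set p : ℕ → Module.End K V := fun i => ev x (herm n N i) with hp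
  have hPp : ∀ i ∈ range (2 * n + 1), P (proj h₀ i) (p i) := by
    intro i hi
    have := hP.ev hPx (herm n N i)
    rw [hx₀, ev_wt_herm h₀ hbd₀ hN hi] at this
    exact this
  have hphom : ∀ i ∈ range (2 * n + 1), IsHom gr 0 (p i) := fun i hi => hP.hom (hPp i hi)
  -- the parity operator
  have hpar : par h = ∑ i ∈ range (2 * n + 1), (((-1 : ℚ) ^ i : ℚ) : K) • p i := by
    calc par h = par h * ∑ i ∈ range (2 * n + 1), p i := by rw [S3, mul_one]
      _ = ∑ i ∈ range (2 * n + 1), (((-1 : ℚ) ^ i : ℚ) : K) • p i := by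
        rw [Finset.mul_sum]
        apply Finset.sum_congr rfl
        intro i hi
        rw [S5 i hi]; push_cast; rfl
  have hpar₀ : par h₀ = ∑ i ∈ range (2 * n + 1), (((-1 : ℚ) ^ i : ℚ) : K₀) • proj h₀ i := by
    rw [par, scal_eq_sum h₀ hbd₀]
    push_cast; rfl
  have hPpar : P (par h₀) (par h) := by
    rw [hpar, hpar₀]
    exact hP.sum (fun i hi => hP.smul _ (hPp i hi))
  have htr : ∀ {y₀ y}, P y₀ y → ∃ q : ℚ, LinearMap.trace K₀ V₀ y₀ = q ∧
      LinearMap.trace K V y = q := by
    intro y₀ y hy
    obtain ⟨q, hq₀, hq⟩ := hP.tr (hP.mul hPpar hy)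
    rw [← mul_assoc, par_mul_par, one_mul] at hq₀ hq
    exact ⟨q, hq₀, hq⟩
  -- `tr (x T)`
  set T := wt h n with hT
  have htrxT : LinearMap.trace K V (x * T) =
      ((∑ i ∈ range (2 * n + 1), node n i ^ 2 * (β i : ℚ) : ℚ) : K) := by
    choose! t ht₀ ht using fun i (hi : i ∈ s) => htr (huv i hi)
    have e1 : LinearMap.trace K V (x * T) = ((∑ i ∈ s, (2 * d i : ℤ) * t i : ℚ) : K) := by
      rw [hx', Finset.sum_mul, map_sum]
      push_cast
      apply Finset.sum_congr rfl
      intro i hi
      rw [trace_comm_wt h n (hu i hi), ht i hi]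
      push_cast; ring
    have e2 : LinearMap.trace K₀ V₀ (x₀ * wt h₀ n) = ((∑ i ∈ s, (2 * d i : ℤ) * t i : ℚ) : K₀) := by
      rw [hx₀', Finset.sum_mul, map_sum]
      push_cast
      apply Finset.sum_congr rfl
      intro i hi
      rw [trace_comm_wt h₀ n (hu₀ i hi), ht₀ i hi]
      push_cast; ring
    have e3 : LinearMap.trace K₀ V₀ (x₀ * wt h₀ n) =
        ((∑ i ∈ range (2 * n + 1), node n i ^ 2 * (β i : ℚ) : ℚ) : K₀) := by
      rw [hx₀, wt, scal_mul, trace_scal h₀ hbd₀]
      push_cast
      apply Finset.sum_congr rfl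
      intro i _
      simp only [hβ]
      ring
    have e4 : (∑ i ∈ s, (2 * d i : ℤ) * t i : ℚ) =
        ∑ i ∈ range (2 * n + 1), node n i ^ 2 * (β i : ℚ) := by
      exact_mod_cast e2.symm.trans e3
    rw [e1, e4]
  -- the semisimple part
  set S := ∑ i ∈ range (2 * n + 1), ((node n i : ℚ) : K) • p i with hS
  have hTcomm : ∀ {y}, IsHom gr 0 y → T * y = y * T := by
    intro y hy
    have := hy.wt_comm h n
    simpa using this
  have htrST : LinearMap.trace K V (S * T) =
      ((∑ i ∈ range (2 * n + 1), node n i ^ 2 * (β i : ℚ) : ℚ) : K) := by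
    have hSh : IsHom gr 0 S := IsHom.sum (fun i hi => (hphom i hi).smul _)
    have hc : Commute (x - S) T := (hTcomm (hxhom.sub hSh)).symm
    have hnil : IsNilpotent ((x - S) * T) := hc.isNilpotent_mul_right S6
    have := (LinearMap.isNilpotent_trace_of_isNilpotent hnil).eq_zero
    rw [sub_mul, map_sub, sub_eq_zero] at this
    rw [← this, htrxT]
  have hps : ∀ i ∈ range (2 * n + 1), p i * p i = p i := fun i hi => S1 i hi
  have hpo : ∀ i ∈ range (2 * n + 1), ∀ j, i ≠ j → p i * p j = 0 := fun i hi j hij => S2 i hi j hij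
  have hSS : S * S = ∑ i ∈ range (2 * n + 1), (((node n i) ^ 2 : ℚ) : K) • p i := by
    rw [hS, Finset.sum_mul_sum]
    apply Finset.sum_congr rfl
    intro i hi
    rw [Finset.sum_eq_single i]
    · rw [smul_mul_smul_comm, hps i hi]; congr 1; push_cast; ring
    · intro j _ hji
      rw [smul_mul_smul_comm, hpo i hi j (Ne.symm hji), smul_zero]
    · intro hi'; exact absurd hi hi'
  have htrSS : LinearMap.trace K V (S * S) =
      ((∑ i ∈ range (2 * n + 1), node n i ^ 2 * (β i : ℚ) : ℚ) : K) := by
    rw [hSS, map_sum]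
    push_cast
    apply Finset.sum_congr rfl
    intro i hi
    have : LinearMap.trace K V (p i) = (β i : K) := S4 i hi
    rw [map_smul, this, smul_eq_mul]
  have htrTT : LinearMap.trace K V (T * T) =
      ((∑ i ∈ range (2 * n + 1), node n i ^ 2 * (Module.finrank K (gr i) : ℚ) : ℚ) : K) := by
    rw [hT, wt, scal_mul, trace_scal h hbd]
    push_cast
    apply Finset.sum_congr rfl
    intro i _
    ring
  -- the mixed projectors
  set π : ℕ → Module.End K V := fun j => proj h j with hπ
  have hπp : ∀ i ∈ range (2 * n + 1), ∀ j, π j * p i = p i * π j :=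
    fun i hi j => (hphom i hi).proj_comm h j
  have hidem : ∀ i ∈ range (2 * n + 1), ∀ j, (π j * p i) * (π j * p i) = π j * p i := by
    intro i hi j
    calc (π j * p i) * (π j * p i) = π j * (p i * π j) * p i := by
          simp only [mul_assoc]
      _ = (π j * π j) * (p i * p i) := by rw [← hπp i hi j]; simp only [mul_assoc]
      _ = π j * p i := by rw [hps i hi, hπ]; simp only [proj_mul_proj]
  have hTsum : T = ∑ j ∈ range (2 * n + 1), ((node n j : ℚ) : K) • π j := by
    rw [hT, wt, scal_eq_sum h hbd]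
  have hπsum : ∑ j ∈ range (2 * n + 1), π j = 1 := sum_proj h hbd
  have hdiff : ∀ c : ℕ → ℕ → ℚ, LinearMap.trace K V (∑ j ∈ range (2 * n + 1),
      ∑ i ∈ range (2 * n + 1), ((c j i : ℚ) : K) • (π j * p i)) =
      ((∑ j ∈ range (2 * n + 1), ∑ i ∈ range (2 * n + 1),
        c j i * (Module.finrank K (LinearMap.range (π j * p i)) : ℚ) : ℚ) : K) := by
    intro c
    rw [map_sum]
    push_cast
    apply Finset.sum_congr rfl
    intro j _
    rw [map_sum]
    apply Finset.sum_congr rfl
    intro i hi
    rw [map_smul, trace_idem (hidem i hi j), smul_eq_mul]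
  have hsq : T * T - S * T - S * T + S * S = ∑ j ∈ range (2 * n + 1), ∑ i ∈ range (2 * n + 1),
      (((node n j - node n i) ^ 2 : ℚ) : K) • (π j * p i) := by
    have f1 : T * T = ∑ j ∈ range (2 * n + 1), ∑ i ∈ range (2 * n + 1),
        ((node n j ^ 2 : ℚ) : K) • (π j * p i) := by
      have : T * T = ∑ j ∈ range (2 * n + 1), ((node n j ^ 2 : ℚ) : K) • π j := by
        rw [hT, wt, scal_mul, scal_eq_sum h hbd]
        apply Finset.sum_congr rfl
        intro j _
        push_cast
        rw [sq]
      rw [this]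
      apply Finset.sum_congr rfl
      intro j _
      rw [← Finset.smul_sum, ← Finset.mul_sum, S3, mul_one]
    have f2 : S * S = ∑ j ∈ range (2 * n + 1), ∑ i ∈ range (2 * n + 1),
        ((node n i ^ 2 : ℚ) : K) • (π j * p i) := by
      rw [Finset.sum_comm, hSS]
      apply Finset.sum_congr rfl
      intro i _
      rw [← Finset.smul_sum, ← Finset.sum_mul, hπsum, one_mul]
    have f3 : S * T = ∑ j ∈ range (2 * n + 1), ∑ i ∈ range (2 * n + 1),
        ((node n j * node n i : ℚ) : K) • (π j * p i) := by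
      rw [Finset.sum_comm, hTsum, hS, Finset.sum_mul_sum]
      apply Finset.sum_congr rfl
      intro i hi
      apply Finset.sum_congr rfl
      intro j _
      rw [smul_mul_smul_comm, ← hπp i hi j]
      congr 1
      push_cast; ring
    rw [f1, f2, f3, ← Finset.sum_sub_distrib, ← Finset.sum_sub_distrib, ← Finset.sum_add_distrib]
    apply Finset.sum_congr rfl
    intro j _
    rw [← Finset.sum_sub_distrib, ← Finset.sum_sub_distrib, ← Finset.sum_add_distrib]
    apply Finset.sum_congr rfl
    intro i _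
    rw [← sub_smul, ← sub_smul, ← add_smul]
    congr 1
    push_cast; ring
  have hfinal : (∑ j ∈ range (2 * n + 1), ∑ i ∈ range (2 * n + 1),
      (node n j - node n i) ^ 2 * (Module.finrank K (LinearMap.range (π j * p i)) : ℚ)) =
      (∑ i ∈ range (2 * n + 1), node n i ^ 2 * (Module.finrank K (gr i) : ℚ)) -
      ∑ i ∈ range (2 * n + 1), node n i ^ 2 * (β i : ℚ) := by
    have h1 := congrArg (LinearMap.trace K V) hsq
    rw [hdiff, map_add, map_sub, map_sub, htrTT, htrST, htrSS] at h1
    have h2 : ((∑ j ∈ range (2 * n + 1), ∑ i ∈ range (2 * n + 1),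
      (node n j - node n i) ^ 2 * (Module.finrank K (LinearMap.range (π j * p i)) : ℚ) : ℚ) : K) =
      (((∑ i ∈ range (2 * n + 1), node n i ^ 2 * (Module.finrank K (gr i) : ℚ)) -
      ∑ i ∈ range (2 * n + 1), node n i ^ 2 * (β i : ℚ) : ℚ) : K) := by
      rw [← h1, Rat.cast_sub]; ring
    exact_mod_cast h2
  have hterm : ∀ j ∈ range (2 * n + 1), ∀ i ∈ range (2 * n + 1),
      0 ≤ (node n j - node n i) ^ 2 * (Module.finrank K (LinearMap.range (π j * p i)) : ℚ) :=
    fun j _ i _ => mul_nonneg (sq_nonneg _) (Nat.cast_nonneg _)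
  have hzero : ∀ j ∈ range (2 * n + 1), ∀ i ∈ range (2 * n + 1),
      (node n j - node n i) ^ 2 * (Module.finrank K (LinearMap.range (π j * p i)) : ℚ) = 0 := by
    have hle : (∑ j ∈ range (2 * n + 1), ∑ i ∈ range (2 * n + 1),
      (node n j - node n i) ^ 2 * (Module.finrank K (LinearMap.range (π j * p i)) : ℚ)) ≤ 0 := by
      rw [hfinal]
      have := D2
      simp only [hβ]
      linarith
    have heq : (∑ j ∈ range (2 * n + 1), ∑ i ∈ range (2 * n + 1),
      (node n j - node n i) ^ 2 * (Module.finrank K (LinearMap.range (π j * p i)) : ℚ)) = 0 :=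
      le_antisymm hle (Finset.sum_nonneg (fun j hj => Finset.sum_nonneg (hterm j hj)))
    intro j hj
    have := (Finset.sum_eq_zero_iff_of_nonneg
      (fun j hj => Finset.sum_nonneg (hterm j hj))).1 heq j hj
    exact (Finset.sum_eq_zero_iff_of_nonneg (hterm j hj)).1 this
  have hπp0 : ∀ j ∈ range (2 * n + 1), ∀ i ∈ range (2 * n + 1), j ≠ i → π j * p i = 0 := by
    intro j hj i hi hji
    have h1 := hzero j hj i hi
    have h2 : (node n j - node n i) ^ 2 ≠ 0 := pow_ne_zero _ (sub_ne_zero.2 (node_inj hji))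
    have h3 : (Module.finrank K (LinearMap.range (π j * p i)) : ℚ) = 0 :=
      (mul_eq_zero.1 h1).resolve_left h2
    apply eq_zero_of_idem_of_trace_eq_zero (hidem i hi j)
    rw [trace_idem (hidem i hi j)]
    exact_mod_cast h3
  intro i hi
  have hpi : p i = π i := by
    have h1 : π i * p i = p i := by
      calc π i * p i = (∑ j ∈ range (2 * n + 1), π j) * p i := by
            rw [Finset.sum_mul, Finset.sum_eq_single i]
            · intro j hj hji; exact hπp0 j hj i hi hji
            · intro hi'; exact absurd hi hi'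
        _ = p i := by rw [hπsum, one_mul]
    have h2 : π i * p i = π i := by
      calc π i * p i = π i * ∑ j ∈ range (2 * n + 1), p j := by
            rw [Finset.mul_sum, Finset.sum_eq_single i]
            · intro j hj hji; exact hπp0 i hi j hj (Ne.symm hji)
            · intro hi'; exact absurd hi hi'
        _ = π i := by rw [S3, mul_one]
    rw [← h1, h2]
  refine ⟨hpi, ?_⟩
  have h1 : LinearMap.trace K V (p i) = (β i : K) := S4 i hi
  rw [hpi] at h1
  have h2 : LinearMap.trace K V (proj h i) = (β i : K) := h1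
  rw [trace_proj h i] at h2
  exact_mod_cast h2

end Pair

end Pool.Agent.H914
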