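import Pool.Agent.H90.G.S8.H914R2.Core3
import Pool.Agent.H90.G.S8.H914R2.LefDefs

/-!
# Lefschetz structures
-/

open Polynomial Finset

namespace Pool.Agent.H914

section Lef

lemma finrank_map_of_inj {K : Type*} [Field K] {V : Type*} [AddCommGroup V] [Module K V]
    {W : Type*} [AddCommGroup W] [Module K W] {S : Submodule K V} {f : V →ₗ[K] W}
    (hf : ∀ a ∈ S, f a = 0 → a = 0) : Module.finrank K (S.map f) = Module.finrank K S := by
  rw [← LinearMap.range_domRestrict]
  apply LinearMap.finrank_range_of_inj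
  rw [← LinearMap.ker_eq_bot, LinearMap.ker_eq_bot']
  rintro ⟨a, ha⟩ h0
  exact Subtype.ext (hf a ha h0)

variable {K : Type*} [Field K] {V : Type*} [AddCommGroup V] [Module K V]

variable {gr : ℕ → Submodule K V} {n : ℕ} {L Lam : Module.End K V}

lemma IsHom.apply_mem {d : ℕ} {y : Module.End K V} (hy : IsHom gr d y) {i : ℕ} {a : V}
    (ha : a ∈ gr i) : y a ∈ gr (i + d) := by
  have := hy i a (by rw [grZ_natCast]; exact ha)
  rw [← Nat.cast_add, grZ_natCast] at this
  exact this

lemma pow_L_mem (hL : IsHom gr 2 L) {i : ℕ} {a : V} (ha : a ∈ gr i) (j : ℕ) :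
    (L ^ j) a ∈ gr (i + 2 * j) := by
  have h1 : IsHom gr ((2 * j : ℕ) : ℤ) (L ^ j) := by
    have := hL.pow j
    rw [show ((2 * j : ℕ) : ℤ) = j * 2 by push_cast; ring]
    exact this
  exact h1.apply_mem ha

lemma prim_split (hL : IsHom gr 2 L) (hbd : ∀ i, 2 * n + 1 ≤ i → gr i = ⊥)
    (hHL : HardLef gr n L) {i : ℕ} (hi : i ≤ n) {a : V} (ha : a ∈ gr i) :
    (L ^ (n - i + 1)) a = 0 ∨
      (2 ≤ i ∧ ∃ b ∈ gr (i - 2), (L ^ (n - i + 1)) (a - L b) = 0) := by
  by_cases h2 : 2 ≤ i
  · right
    refine ⟨h2, ?_⟩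
    have h1 := pow_L_mem hL ha (n - i + 1)
    rw [show i + 2 * (n - i + 1) = 2 * n - (i - 2) by omega] at h1
    obtain ⟨b, hb, hb'⟩ := (hHL (i - 2) (by omega)).2 _ h1
    refine ⟨b, hb, ?_⟩
    rw [map_sub, ← hb', sub_eq_zero, show n - (i - 2) = (n - i + 1) + 1 by omega, pow_succ,
      Module.End.mul_apply]
  · left
    have h1 := pow_L_mem hL ha (n - i + 1)
    rw [hbd _ (by omega)] at h1
    exact (Submodule.mem_bot _).1 h1

/-- Induction along the primitive decomposition, in degrees at most `n`. -/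
lemma lef_induction (hL : IsHom gr 2 L) (hbd : ∀ i, 2 * n + 1 ≤ i → gr i = ⊥)
    (hHL : HardLef gr n L) {p : ℕ → V → Prop}
    (hadd : ∀ i a b, p i a → p i b → p i (a + b))
    (hprim : ∀ i ≤ n, ∀ a ∈ gr i, (L ^ (n - i + 1)) a = 0 → ∀ j, p (i + 2 * j) ((L ^ j) a)) :
    ∀ i ≤ n, ∀ a ∈ gr i, ∀ j, p (i + 2 * j) ((L ^ j) a) := by
  intro i
  induction i using Nat.strong_induction_on with
  | _ i ih =>
    intro hi a ha j
    rcases prim_split hL hbd hHL hi ha with h | ⟨h2, b, hb, h⟩
    · exact hprim i hi a ha h j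
    · have hLb : L b ∈ gr i := by
        have := pow_L_mem hL hb 1
        rw [pow_one, show i - 2 + 2 * 1 = i by omega] at this
        exact this
      have e1 := hprim i hi (a - L b) (Submodule.sub_mem _ ha hLb) h j
      have e2 := ih (i - 2) (by omega) (by omega) b hb (j + 1)
      rw [show i - 2 + 2 * (j + 1) = i + 2 * j by omega, pow_succ, Module.End.mul_apply] at e2
      have := hadd _ _ _ e1 e2
      rwa [← map_add, sub_add_cancel] at this

/-- Induction along the primitive decomposition. -/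
lemma lef_induction' (h : DirectSum.IsInternal gr) (hL : IsHom gr 2 L)
    (hbd : ∀ i, 2 * n + 1 ≤ i → gr i = ⊥)
    (hHL : HardLef gr n L) {p : V → Prop}
    (hadd : ∀ a b, p a → p b → p (a + b))
    (hprim : ∀ i ≤ n, ∀ a ∈ gr i, (L ^ (n - i + 1)) a = 0 → ∀ j, p ((L ^ j) a)) (a : V) :
    p a := by
  have key := lef_induction hL hbd hHL (p := fun _ a => p a) (fun _ => hadd) hprim
  refine gr_induction h ?_ hadd a
  intro i a ha
  by_cases hi : i ≤ n
  · exact key i hi a ha 0
  · by_cases hi2 : i ≤ 2 * n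
    · obtain ⟨b, hb, hb'⟩ := (hHL (2 * n - i) (by omega)).2 a
        (by rw [show 2 * n - (2 * n - i) = i by omega]; exact ha)
      rw [← hb']
      exact key _ (by omega) b hb _
    · rw [hbd i (by omega)] at ha
      rw [(Submodule.mem_bot _).1 ha]
      exact key 0 (by omega) 0 (Submodule.zero_mem _) 0

lemma lam_pow (hLam : IsLam gr n L Lam) {i : ℕ} (hi : i ≤ n) {a : V} (ha : a ∈ gr i)
    (hp : (L ^ (n - i + 1)) a = 0) {j : ℕ} (hj : j ≤ n - i) :
    ∀ m ≤ j, (Lam ^ m) ((L ^ j) a) = (L ^ (j - m)) a := by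
  intro m
  induction m with
  | zero => intro _; simp
  | succ m ih =>
    intro hm
    rw [pow_succ', Module.End.mul_apply, ih (by omega)]
    have := ((hLam i hi a ha hp).2 (j - m - 1) (by omega))
    rw [show j - m - 1 + 1 = j - m by omega] at this
    rw [this, show j - (m + 1) = j - m - 1 by omega]

lemma lam_pow_gt (hLam : IsLam gr n L Lam) {i : ℕ} (hi : i ≤ n) {a : V} (ha : a ∈ gr i)
    (hp : (L ^ (n - i + 1)) a = 0) {j m : ℕ} (hj : j ≤ n - i) (hm : j < m) :
    (Lam ^ m) ((L ^ j) a) = 0 := by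
  obtain ⟨c, rfl⟩ := Nat.exists_eq_add_of_lt hm
  rw [show j + c + 1 = c + 1 + j by ring, pow_add, Module.End.mul_apply,
    lam_pow hLam hi ha hp hj j le_rfl, Nat.sub_self, pow_zero, Module.End.one_apply, pow_succ,
    Module.End.mul_apply, (hLam i hi a ha hp).1, map_zero]

lemma L_pow_gt {i : ℕ} {a : V} (hp : (L ^ (n - i + 1)) a = 0) {j : ℕ} (hj : n - i < j) :
    (L ^ j) a = 0 := by
  obtain ⟨c, rfl⟩ := Nat.exists_eq_add_of_lt hj
  rw [show n - i + c + 1 = c + (n - i + 1) by ring, pow_add, Module.End.mul_apply, hp, map_zero]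

/-- The weight operator is a sum of commutators. -/
lemma sum_comm_eq_wt [CharZero K] (h : DirectSum.IsInternal gr) (hL : IsHom gr 2 L)
    (hbd : ∀ i, 2 * n + 1 ≤ i → gr i = ⊥)
    (hHL : HardLef gr n L) (hLam : IsLam gr n L Lam) :
    ∑ m ∈ range n, (L ^ (m + 1) * Lam ^ (m + 1) - Lam ^ (m + 1) * L ^ (m + 1)) = wt h n := by
  apply LinearMap.ext
  intro a
  refine lef_induction' h hL hbd hHL (p := fun a =>
    (∑ m ∈ range n, (L ^ (m + 1) * Lam ^ (m + 1) - Lam ^ (m + 1) * L ^ (m + 1))) a = wt h n a)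
    ?_ ?_ a
  · intro a b ha hb
    rw [map_add, map_add, ha, hb]
  · intro i hi a ha hp j
    by_cases hj : j ≤ n - i
    · have hmem : (L ^ j) a ∈ gr (i + 2 * j) := pow_L_mem hL ha j
      rw [wt, scal_apply h _ hmem, LinearMap.sum_apply]
      have e1 : ∀ m, (L ^ (m + 1)) ((Lam ^ (m + 1)) ((L ^ j) a)) =
          (if m < j then (1 : K) else 0) • (L ^ j) a := by
        intro m
        by_cases hm : m < j
        · rw [lam_pow hLam hi ha hp hj (m + 1) hm, if_pos hm, one_smul, ← Module.End.mul_apply,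
            ← pow_add, show m + 1 + (j - (m + 1)) = j by omega]
        · rw [lam_pow_gt hLam hi ha hp hj (by omega), map_zero, if_neg hm, zero_smul]
      have e2 : ∀ m, (Lam ^ (m + 1)) ((L ^ (m + 1)) ((L ^ j) a)) =
          (if m < n - i - j then (1 : K) else 0) • (L ^ j) a := by
        intro m
        rw [← Module.End.mul_apply (L ^ (m + 1)), ← pow_add]
        by_cases hm : m < n - i - j
        · rw [lam_pow hLam hi ha hp (by omega) (m + 1) (by omega), if_pos hm, one_smul,
            show m + 1 + j - (m + 1) = j by omega]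
        · rw [L_pow_gt hp (by omega), map_zero, if_neg hm, zero_smul]
      have e3 : ∀ m ∈ range n, (L ^ (m + 1) * Lam ^ (m + 1) - Lam ^ (m + 1) * L ^ (m + 1))
          ((L ^ j) a) = ((if m < j then (1 : K) else 0) - (if m < n - i - j then (1 : K) else 0)) •
            (L ^ j) a := by
        intro m _
        rw [LinearMap.sub_apply, Module.End.mul_apply, Module.End.mul_apply, e1, e2, sub_smul]
      rw [Finset.sum_congr rfl e3, ← Finset.sum_smul]
      congr 1
      rw [Finset.sum_sub_distrib, Finset.sum_boole, Finset.sum_boole]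
      have c1 : ((range n).filter (fun m => m < j)).card = j := by
        rw [show (range n).filter (fun m => m < j) = range j by
          ext m; simp only [mem_filter, mem_range]; omega]
        exact card_range j
      have c2 : ((range n).filter (fun m => m < n - i - j)).card = n - i - j := by
        rw [show (range n).filter (fun m => m < n - i - j) = range (n - i - j) by
          ext m; simp only [mem_filter, mem_range]; omega]
        exact card_range _
      rw [c1, c2]
      have : ((n - i - j : ℕ) : K) = (n : K) - i - j := by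
        rw [Nat.cast_sub hj, Nat.cast_sub hi]
      rw [this, node]
      push_cast
      ring
    · rw [L_pow_gt hp (by omega), map_zero, map_zero]

lemma lam_pow_L_pow (hL : IsHom gr 2 L) (hbd : ∀ i, 2 * n + 1 ≤ i → gr i = ⊥)
    (hHL : HardLef gr n L) (hLam : IsLam gr n L Lam) {c : ℕ} (hc : c ≤ n) {a : V}
    (ha : a ∈ gr (n - c)) : (Lam ^ c) ((L ^ c) a) = a := by
  have key := lef_induction hL hbd hHL
    (p := fun i a => ∀ c, i + c = n → (Lam ^ c) ((L ^ c) a) = a)
    (by intro i a b ha hb c hc; rw [map_add, map_add, ha c hc, hb c hc])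
    (by
      intro i hi a ha hp j c hc
      rw [← Module.End.mul_apply (L ^ c), ← pow_add,
        lam_pow hLam hi ha hp (by omega) c (by omega), show c + j - c = j by omega])
  have := key (n - c) (by omega) a ha 0 c (by omega)
  simpa using this

end Lef

/-- The universal expression, in terms of `L` and `lam`, for the inverse of `L ^ c` in degree
`n + c`. -/
noncomputable def thetaOp {K : Type*} [Field K] [CharZero K] {V : Type*} [AddCommGroup V]
    [Module K V] (n N : ℕ) (x L lam : Module.End K V) (c : ℕ) : Module.End K V :=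
  (∑ r ∈ range N, (ev x (herm n N (n - c)) -
    ev x (herm n N (n - c)) * (lam ^ c * L ^ c) * ev x (herm n N (n - c))) ^ r) *
    ev x (herm n N (n - c)) * lam ^ c * ev x (herm n N (n + c))

/-- The universal expression, in terms of `L` and `lam`, for the Lambda-operator. -/
noncomputable def phiOp {K : Type*} [Field K] [CharZero K] {V : Type*} [AddCommGroup V]
    [Module K V] (n N : ℕ) (x L lam : Module.End K V) : Module.End K V :=
  (∑ d ∈ range (n - 1), thetaOp n N x L lam (d + 2) * L ^ (d + 1) * ev x (herm n N (n - d))) +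
    ∑ d ∈ range n, L ^ d * thetaOp n N x L lam (d + 1) * ev x (herm n N (n + (d + 1)))

section Pair

variable {K₀ : Type*} [Field K₀] [CharZero K₀] {V₀ : Type*} [AddCommGroup V₀] [Module K₀ V₀]
  [Module.Finite K₀ V₀] {gr₀ : ℕ → Submodule K₀ V₀} {h₀ : DirectSum.IsInternal gr₀}
  {K : Type*} [Field K] [CharZero K] {V : Type*} [AddCommGroup V] [Module K V]
  [Module.Finite K V] {gr : ℕ → Submodule K V} {h : DirectSum.IsInternal gr}
  {P : Module.End K₀ V₀ → Module.End K V → Prop} {n : ℕ}

/-- Elements related to zero are nilpotent, once the parity operators are related. -/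
lemma PairRel.isNilpotent (hP : PairRel h₀ h P) (hpar : P (par h₀) (par h)) {y : Module.End K V}
    (hy : P 0 y) : IsNilpotent y := by
  apply isNilpotent_of_trace_pow
  intro r
  have h1 : P 0 (y ^ (r + 1)) := by
    have := hP.pow hy (r + 1)
    rwa [zero_pow (by omega)] at this
  obtain ⟨q, hq₀, hq⟩ := hP.tr (hP.mul hpar h1)
  rw [mul_zero, mul_zero, map_zero] at hq₀
  have : q = 0 := by exact_mod_cast hq₀.symm
  rw [← mul_assoc, par_mul_par, one_mul, this] at hq
  simpa using hq

/-- **Comparison theorem for Lefschetz structures.** -/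
theorem compare_lef (hP : PairRel h₀ h P)
    (hbd₀ : ∀ i, 2 * n + 1 ≤ i → gr₀ i = ⊥) (hbd : ∀ i, 2 * n + 1 ≤ i → gr i = ⊥)
    {L₀ lam₀ : Module.End K₀ V₀} {L lam : Module.End K V}
    (hL₀ : IsHom gr₀ 2 L₀) (hL : IsHom gr 2 L)
    (hLl : ∀ m, P (L₀ ^ m * lam₀ ^ m) (L ^ m * lam ^ m))
    (hlL : ∀ m, P (lam₀ ^ m * L₀ ^ m) (lam ^ m * L ^ m))
    (hHL₀ : HardLef gr₀ n L₀) (hLam₀ : IsLam gr₀ n L₀ lam₀)
    (D1 : ∑ i ∈ range (2 * n + 1), Module.finrank K (gr i) ≤
      ∑ i ∈ range (2 * n + 1), Module.finrank K₀ (gr₀ i))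
    (D2 : ∑ i ∈ range (2 * n + 1), node n i ^ 2 * Module.finrank K (gr i) ≤
      ∑ i ∈ range (2 * n + 1), node n i ^ 2 * Module.finrank K₀ (gr₀ i))
    {N : ℕ} (hN : 1 ≤ N) (hNV : ∑ i ∈ range (2 * n + 1), Module.finrank K₀ (gr₀ i) ≤ N) :
    HardLef gr n L ∧ IsLam gr n L (phiOp n N
      (∑ m ∈ range n, (L ^ (m + 1) * lam ^ (m + 1) - lam ^ (m + 1) * L ^ (m + 1))) L lam) ∧
    (∀ i ∈ range (2 * n + 1), ev (∑ m ∈ range n, (L ^ (m + 1) * lam ^ (m + 1) -
      lam ^ (m + 1) * L ^ (m + 1))) (herm n N i) = proj h i) ∧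
    (∀ i ∈ range (2 * n + 1), Module.finrank K (gr i) = Module.finrank K₀ (gr₀ i)) := by
  have hLpow₀ : ∀ m : ℕ, IsHom gr₀ (2 * (m : ℤ)) (L₀ ^ m) := fun m => by
    have := hL₀.pow m
    rwa [mul_comm] at this
  have hLpow : ∀ m : ℕ, IsHom gr (2 * (m : ℤ)) (L ^ m) := fun m => by
    have := hL.pow m
    rwa [mul_comm] at this
  have hwt₀ := sum_comm_eq_wt h₀ hL₀ hbd₀ hHL₀ hLam₀
  have key := compare_proj n hP hbd₀ hbd (range n) (fun m => ((m + 1 : ℕ) : ℤ))
    (fun m => L₀ ^ (m + 1)) (fun m => lam₀ ^ (m + 1)) (fun m => L ^ (m + 1))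
    (fun m => lam ^ (m + 1)) (fun m _ => hLpow₀ (m + 1)) (fun m _ => hLpow (m + 1))
    (fun m _ => hLl (m + 1)) (fun m _ => hlL (m + 1)) hwt₀ D1 D2 hN hNV
  set x := ∑ m ∈ range n, (L ^ (m + 1) * lam ^ (m + 1) - lam ^ (m + 1) * L ^ (m + 1)) with hx
  set x₀ := ∑ m ∈ range n, (L₀ ^ (m + 1) * lam₀ ^ (m + 1) - lam₀ ^ (m + 1) * L₀ ^ (m + 1))
    with hx₀
  have hPx : P x₀ x := hP.sum (fun m _ => hP.sub (hLl (m + 1)) (hlL (m + 1)))
  have hp : ∀ i ∈ range (2 * n + 1), ev x (herm n N i) = proj h i := fun i hi => (key i hi).1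
  have hdim : ∀ i ∈ range (2 * n + 1), Module.finrank K (gr i) = Module.finrank K₀ (gr₀ i) :=
    fun i hi => (key i hi).2
  have hPp : ∀ i ∈ range (2 * n + 1), P (proj h₀ i) (proj h i) := by
    intro i hi
    have := hP.ev hPx (herm n N i)
    rwa [hwt₀, ev_wt_herm h₀ hbd₀ hN hi, hp i hi] at this
  have hPpar : P (par h₀) (par h) := by
    have e : ∀ {K' : Type _} [Field K'] [CharZero K'] {V' : Type _} [AddCommGroup V']
        [Module K' V'] {gr' : ℕ → Submodule K' V'} (h' : DirectSum.IsInternal gr')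
        (_ : ∀ i, 2 * n + 1 ≤ i → gr' i = ⊥),
        par h' = ∑ i ∈ range (2 * n + 1), (((-1 : ℚ) ^ i : ℚ) : K') • proj h' i := by
      intro K' _ _ V' _ _ gr' h' hbd'
      rw [par, scal_eq_sum h' hbd']
      push_cast; rfl
    have e' : par h = ∑ i ∈ range (2 * n + 1), (((-1 : ℚ) ^ i : ℚ) : K) • proj h i := by
      rw [par, scal_eq_sum h hbd]
      push_cast; rfl
    rw [e h₀ hbd₀, e']
    exact hP.sum (fun i hi => hP.smul _ (hPp i hi))
  have hfinV : Module.finrank K V ≤ N := by
    rw [finrank_eq_sum h hbd]; exact D1.trans hNV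
  -- the operators `theta`
  have htheta : ∀ c ≤ n, ∀ a ∈ gr (n - c), thetaOp n N x L lam c ((L ^ c) a) = a := by
    intro c hc a ha
    have hi1 : n - c ∈ range (2 * n + 1) := Finset.mem_range.2 (by omega)
    have hi2 : n + c ∈ range (2 * n + 1) := Finset.mem_range.2 (by omega)
    set π := proj h (n - c) with hπ
    set ν := π - π * (lam ^ c * L ^ c) * π with hν
    have hPν : P 0 ν := by
      have h1 : P (proj h₀ (n - c) - proj h₀ (n - c) * (lam₀ ^ c * L₀ ^ c) * proj h₀ (n - c)) ν :=
        hP.sub (hPp _ hi1) (hP.mul (hP.mul (hPp _ hi1) (hlL c)) (hPp _ hi1))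
      have h2 : proj h₀ (n - c) - proj h₀ (n - c) * (lam₀ ^ c * L₀ ^ c) * proj h₀ (n - c) = 0 := by
        rw [sub_eq_zero]
        apply LinearMap.ext
        intro b
        have hb := proj_mem h₀ (n - c) b
        simp only [Module.End.mul_apply]
        rw [lam_pow_L_pow hL₀ hbd₀ hHL₀ hLam₀ hc hb, proj_same h₀ hb]
      rwa [h2] at h1
    have hνN : ν ^ N = 0 := pow_eq_zero_of_nilp (hP.isNilpotent hPpar hPν) hfinV
    have hνπ : ν * π = ν := by
      rw [hν, sub_mul, mul_assoc (π * (lam ^ c * L ^ c)), hπ, proj_mul_proj]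
    have hsum : (∑ r ∈ range N, ν ^ r) * (1 - ν) = 1 := by
      have := geom_sum_mul_neg ν N
      rw [hνN, sub_zero] at this
      exact this
    have hLca : (L ^ c) a ∈ gr (n + c) := by
      have := pow_L_mem hL ha c
      rwa [show n - c + 2 * c = n + c by omega] at this
    have e1 : thetaOp n N x L lam c ((L ^ c) a) =
        ((∑ r ∈ range N, ν ^ r) * (π * (lam ^ c * L ^ c) * π)) a := by
      unfold thetaOp
      rw [hp _ hi1, hp _ hi2]
      simp only [Module.End.mul_apply]
      rw [proj_same h hLca, hπ, proj_same h ha]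
    have e2 : π * (lam ^ c * L ^ c) * π = (1 - ν) * π := by
      rw [sub_mul, one_mul, hνπ, hν]; abel
    rw [e1, e2, ← mul_assoc, hsum, one_mul, hπ, proj_same h ha]
  have hHL : HardLef gr n L := by
    intro i hi
    have hc : n - i ≤ n := by omega
    have hinj : ∀ a ∈ gr i, (L ^ (n - i)) a = 0 → a = 0 := by
      intro a ha h0
      have := htheta (n - i) hc a (by rw [show n - (n - i) = i by omega]; exact ha)
      rw [h0, map_zero] at this
      exact this.symm
    refine ⟨hinj, ?_⟩
    -- dimension count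
    have hmap : (gr i).map (L ^ (n - i)) ≤ gr (2 * n - i) := by
      rintro _ ⟨a, ha, rfl⟩
      have := pow_L_mem hL ha (n - i)
      rwa [show i + 2 * (n - i) = 2 * n - i by omega] at this
    have h1 : Module.finrank K ((gr i).map (L ^ (n - i))) = Module.finrank K (gr i) :=
      finrank_map_of_inj hinj
    have h2 : Module.finrank K₀ (gr₀ i) = Module.finrank K₀ (gr₀ (2 * n - i)) := by
      have e : (gr₀ i).map (L₀ ^ (n - i)) = gr₀ (2 * n - i) := by
        apply le_antisymm
        · rintro _ ⟨a, ha, rfl⟩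
          have := pow_L_mem hL₀ ha (n - i)
          rwa [show i + 2 * (n - i) = 2 * n - i by omega] at this
        · intro b hb
          obtain ⟨a, ha, hab⟩ := (hHL₀ i hi).2 b hb
          exact ⟨a, ha, hab⟩
      rw [← e]
      exact (finrank_map_of_inj (hHL₀ i hi).1).symm
    have h3 : (gr i).map (L ^ (n - i)) = gr (2 * n - i) := by
      apply Submodule.eq_of_le_of_finrank_eq hmap
      rw [h1, hdim i (Finset.mem_range.2 (by omega)), h2,
        hdim (2 * n - i) (Finset.mem_range.2 (by omega))]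
    intro b hb
    rw [← h3] at hb
    obtain ⟨a, ha, hab⟩ := hb
    exact ⟨a, ha, hab⟩
  refine ⟨hHL, ?_, hp, hdim⟩
  -- the Lambda operator
  set Φ := phiOp n N x L lam with hΦ
  have hΦlow : ∀ d ≤ n, ∀ y ∈ gr (n - d), Φ y =
      if d + 2 ≤ n then thetaOp n N x L lam (d + 2) ((L ^ (d + 1)) y) else 0 := by
    intro d hd y hy
    rw [hΦ, phiOp, LinearMap.add_apply, LinearMap.sum_apply, LinearMap.sum_apply]
    have s2 : ∑ e ∈ range n, (L ^ e * thetaOp n N x L lam (e + 1) *
        ev x (herm n N (n + (e + 1)))) y = 0 := by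
      apply Finset.sum_eq_zero
      intro e he
      rw [Finset.mem_range] at he
      rw [Module.End.mul_apply, hp _ (Finset.mem_range.2 (by omega)),
        proj_ne h hy (by omega), map_zero]
    rw [s2, add_zero]
    by_cases h2 : d + 2 ≤ n
    · rw [if_pos h2, Finset.sum_eq_single d]
      · rw [Module.End.mul_apply, hp _ (Finset.mem_range.2 (by omega)), proj_same h hy,
          Module.End.mul_apply]
      · intro e he hed
        rw [Finset.mem_range] at he
        rw [Module.End.mul_apply, hp _ (Finset.mem_range.2 (by omega)),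
          proj_ne h hy (by omega), map_zero]
      · intro he; exact absurd (Finset.mem_range.2 (by omega)) he
    · rw [if_neg h2]
      apply Finset.sum_eq_zero
      intro e he
      rw [Finset.mem_range] at he
      rw [Module.End.mul_apply, hp _ (Finset.mem_range.2 (by omega)),
        proj_ne h hy (by omega), map_zero]
  have hΦhigh : ∀ d < n, ∀ y ∈ gr (n + (d + 1)), Φ y =
      (L ^ d) (thetaOp n N x L lam (d + 1) y) := by
    intro d hd y hy
    rw [hΦ, phiOp, LinearMap.add_apply, LinearMap.sum_apply, LinearMap.sum_apply]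
    have s1 : ∑ e ∈ range (n - 1), (thetaOp n N x L lam (e + 2) * L ^ (e + 1) *
        ev x (herm n N (n - e))) y = 0 := by
      apply Finset.sum_eq_zero
      intro e he
      rw [Finset.mem_range] at he
      rw [Module.End.mul_apply, hp _ (Finset.mem_range.2 (by omega)),
        proj_ne h hy (by omega), map_zero]
    rw [s1, zero_add, Finset.sum_eq_single d]
    · rw [Module.End.mul_apply, hp _ (Finset.mem_range.2 (by omega)), proj_same h hy,
        Module.End.mul_apply]
    · intro e he hed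
      rw [Finset.mem_range] at he
      rw [Module.End.mul_apply, hp _ (Finset.mem_range.2 (by omega)),
        proj_ne h hy (by omega), map_zero]
    · intro he; exact absurd (Finset.mem_range.2 hd) he
  intro i hi a ha hprim
  constructor
  · rw [hΦlow (n - i) (by omega) a (by rw [show n - (n - i) = i by omega]; exact ha), hprim,
      map_zero]
    split_ifs <;> rfl
  · intro j hj
    have hmem := pow_L_mem hL ha (j + 1)
    have hmem' := pow_L_mem hL ha j
    by_cases hw : i + 2 * (j + 1) ≤ n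
    · set d := n - (i + 2 * (j + 1)) with hd
      rw [hΦlow d (by omega) _ (by rw [show n - d = i + 2 * (j + 1) by omega]; exact hmem),
        if_pos (by omega), ← Module.End.mul_apply (L ^ (d + 1)), ← pow_add,
        show d + 1 + (j + 1) = (d + 2) + j by ring, pow_add, Module.End.mul_apply]
      exact htheta (d + 2) (by omega) _ (by rw [show n - (d + 2) = i + 2 * j by omega]; exact hmem')
    · set d := i + 2 * (j + 1) - n - 1 with hd
      have hmem2 : (L ^ (j + 1)) a ∈ gr (n + (d + 1)) := by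
        rw [show n + (d + 1) = i + 2 * (j + 1) by omega]; exact hmem
      rw [hΦhigh d (by omega) _ hmem2]
      have e1 : (L ^ (j + 1)) a = (L ^ (d + 1)) ((L ^ (j - d)) a) := by
        rw [← Module.End.mul_apply, ← pow_add, show d + 1 + (j - d) = j + 1 by omega]
      have hmem3 := pow_L_mem hL ha (j - d)
      rw [e1, htheta (d + 1) (by omega) _
        (by rw [show n - (d + 1) = i + 2 * (j - d) by omega]; exact hmem3),
        ← Module.End.mul_apply, ← pow_add, show d + (j - d) = j by omega]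

end Pair

end Pool.Agent.H914
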