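import Pool.Agent.H90.G.S8.H914R2.CorrDefs

/-!
# Composites of correspondences along words: definitions
-/

open CategoryTheory AlgebraicGeometry

universe u v

namespace Pool.Agent.H914

open VarClass Obj WeilCohomology

variable {k : Type u} [Field k] {𝒱 : VarClass k} {ops : CycleOps 𝒱}

/-- The height of a word: the number of letters `true` minus the number of letters `false`. -/
def height (w : List Bool) : ℤ := (w.count true : ℤ) - w.count false

/-- The composite, along the word `w`, of the correspondences `a` (letter `true`, of codimension
`n + 1`) and `b` (letter `false`, of codimension `n - 1`) on `X × X`, the first letter acting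
first; it is set to zero as soon as its codimension `n + height w` would be negative. -/
noncomputable def wordCyc (ops : CycleOps 𝒱) (X : 𝒱.Obj) (a b : (X.prod X).Cycles) :
    List Bool → (X.prod X).Cycles
  | [] => ops.push (diag X) X.V.fundCycle
  | x :: w => if 0 ≤ (X.dim : ℤ) + height w ∧ 0 ≤ (X.dim : ℤ) + height (x :: w) then
      compCyc ops (if x then a else b) (wordCyc ops X a b w) else 0

/-- The intersection number of the diagonal of `X × X` with the composite, along the balanced word
`w`, of the correspondence `Δ_* D` and the correspondence `z`. -/
noncomputable def wordNumber (ops : CycleOps 𝒱) (X : 𝒱.Obj) (D : X.Cycles)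
    (z : (X.prod X).Cycles) (w : List Bool) : ℚ :=
  X.V.degCycle (ops.pull (diag X) (wordCyc ops X (ops.push (diag X) D) z w))

end Pool.Agent.H914
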