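import Pool.Agent.H90.G.S8.H914R2.LefB
import Pool.Agent.H90.G.S8.H914R2.WordCycDefs
import Pool.Agent.H90.G.S8.H914R2.Span

/-!
# A numerical criterion for the standard conjecture B
-/

open CategoryTheory AlgebraicGeometry Finset Polynomial

universe u v

namespace Pool.Agent.H914

open VarClass Obj WeilCohomology

variable {k : Type u} [Field k] {𝒱 : VarClass k} {ops : CycleOps 𝒱}

section

variable {X : 𝒱.Obj}

lemma height_true (w : List Bool) : height (true :: w) = height w + 1 := by
  unfold height
  simp only [List.count_cons]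
  simp
  ring

lemma height_false (w : List Bool) : height (false :: w) = height w - 1 := by
  unfold height
  simp only [List.count_cons]
  simp
  ring

lemma wordCyc_spec {D : X.Cycles} (hD : X.IsCyc 1 D) (hn : 1 ≤ X.dim) {z : (X.prod X).Cycles}
    (hz : (X.prod X).IsCyc (X.dim - 1) z) (w : List Bool) :
    (0 ≤ (X.dim : ℤ) + height w → (X.prod X).IsCyc ((X.dim : ℤ) + height w).toNat
      (wordCyc ops X (ops.push (diag X) D) z w)) ∧
    ∀ W : WeilCohomology.{u, v} ops,
      W.corr (W.cl _ (wordCyc ops X (ops.push (diag X) D) z w)) =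
        opW (LinearMap.mulLeft W.K (W.cl X D)) (W.corr (W.cl _ z)) w := by
  have hpush : (X.prod X).IsCyc (X.dim + 1) (ops.push (diag X) D) :=
    ops.push_mem _ hD (by simp only [dim_prod]; omega)
  have hcorr : ∀ W : WeilCohomology.{u, v} ops, W.corr (W.cl _ (ops.push (diag X) D)) =
      LinearMap.mulLeft W.K (W.cl X D) := by
    intro W
    apply LinearMap.ext
    intro a
    rw [W.cl_push, corr_diag, LinearMap.mulLeft_apply]
  have hlam : ∀ W : WeilCohomology.{u, v} ops, IsHom (W.gr X) (-2) (W.corr (W.cl _ z)) := by
    intro W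
    have := (realized_corr (ops := ops) hn hz).isHom W
    simpa using this
  have hhom : ∀ (W : WeilCohomology.{u, v} ops) (w : List Bool), IsHom (W.gr X) (2 * height w)
      (opW (LinearMap.mulLeft W.K (W.cl X D)) (W.corr (W.cl _ z)) w) :=
    fun W w => opW_isHom (isHom_mulLeft W hD) (hlam W) w
  have hneg : ∀ (W : WeilCohomology.{u, v} ops) (w : List Bool), (X.dim : ℤ) + height w < 0 →
      opW (LinearMap.mulLeft W.K (W.cl X D)) (W.corr (W.cl _ z)) w = 0 := by
    intro W w hw
    exact eq_zero_of_isHom (W.isInternal X) (W.gr_eq_bot X) (by omega) (hhom W w)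
  induction w with
  | nil =>
    constructor
    · intro _
      have : ((X.dim : ℤ) + height []).toNat = X.dim := by simp [height]
      rw [this]
      exact ops.push_mem _ X.V.fundCycle_mem (by simp only [dim_prod]; omega)
    · intro W
      apply LinearMap.ext
      intro a
      change W.corr (W.cl _ (ops.push (diag X) X.V.fundCycle)) a = a
      rw [W.cl_push, corr_diag, W.cl_fund, one_mul]
  | cons x w ih =>
    obtain ⟨ih1, ih2⟩ := ih
    constructor
    · intro h0
      rw [wordCyc]
      split_ifs with h1 h2
      · subst h2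
        have hh := height_true w
        exact compCyc_mem hpush (ih1 h1.1) (by omega)
      · have hx : x = false := by simpa using h2
        subst hx
        have hh := height_false w
        exact compCyc_mem hz (ih1 h1.1) (by omega)
      · exact SmVar.IsCyc.zero _ _
    · intro W
      rw [wordCyc]
      split_ifs with h1 h2
      · subst h2
        rw [corr_compCyc W (ih1 h1.1), ih2 W, hcorr W]
        rfl
      · have hx : x = false := by simpa using h2
        subst hx
        rw [corr_compCyc W (ih1 h1.1), ih2 W]
        rfl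
      · rw [map_zero, corr_zero]
        by_cases h3 : 0 ≤ (X.dim : ℤ) + height w
        · have h4 : (X.dim : ℤ) + height (x :: w) < 0 := by
            by_contra h4
            exact h1 ⟨h3, by omega⟩
          exact (hneg W _ h4).symm
        · have h5 := hneg W w (by omega)
          cases x with
          | true => simp only [opW]; rw [h5, zero_mul]
          | false => simp only [opW]; rw [h5, zero_mul]

/-- The Lefschetz trace formula for words. -/
lemma wordNumber_eq {D : X.Cycles} (hD : X.IsCyc 1 D) (hn : 1 ≤ X.dim) {z : (X.prod X).Cycles}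
    (hz : (X.prod X).IsCyc (X.dim - 1) z) {w : List Bool} (hw : w.count true = w.count false)
    (W : WeilCohomology.{u, v} ops) :
    LinearMap.trace W.K (W.H X) (par (W.isInternal X) *
      opW (LinearMap.mulLeft W.K (W.cl X D)) (W.corr (W.cl _ z)) w) =
      (wordNumber ops X D z w : W.K) := by
  obtain ⟨h1, h2⟩ := wordCyc_spec (ops := ops) hD hn hz w
  rw [← h2 W, trace_par_corr, ← cl_pull]
  have h3 : ((X.dim : ℤ) + height w).toNat = X.dim := by
    unfold height
    rw [hw]
    simp
  have h4 := h1 (by unfold height; rw [hw]; simp)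
  rw [h3] at h4
  rw [tr_cl _ (ops.pull_mem _ h4)]
  rfl

/-- Poincare duality for the Betti numbers. -/
lemma betti_symm_le (W : WeilCohomology.{u, v} ops) {i j : ℕ} (hij : i + j = 2 * X.dim) :
    W.betti X i ≤ W.betti X j := by
  set φ : W.gr X i →ₗ[W.K] Module.Dual W.K (W.gr X j) :=
    { toFun := fun a => W.tr X ∘ₗ LinearMap.mulLeft W.K (a : W.H X) ∘ₗ (W.gr X j).subtype
      map_add' := by
        intro a b
        ext c
        simp [add_mul]
      map_smul' := by
        intro a b
        ext c
        simp } with hφ
  have hinj : Function.Injective φ := by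
    rw [← LinearMap.ker_eq_bot, LinearMap.ker_eq_bot']
    rintro ⟨a, ha⟩ h0
    apply Subtype.ext
    apply W.nondeg
    intro c
    refine gr_induction (W.isInternal X) (p := fun c => W.tr X (a * c) = 0) ?_ ?_ c
    · intro m c hc
      by_cases hm : m = j
      · subst hm
        exact congrArg (fun F => F ⟨c, hc⟩) h0
      · exact W.tr_eq_zero (W.mul_mem ha hc) (by omega)
    · intro c c' hc hc'
      rw [mul_add, map_add, hc, hc', add_zero]
  have h1 := LinearMap.finrank_le_finrank_of_injective hinj
  rwa [Subspace.dual_finrank_eq] at h1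

lemma betti_symm (W : WeilCohomology.{u, v} ops) {i : ℕ} (hi : i ≤ X.dim) :
    W.betti X (2 * X.dim - i) = W.betti X i :=
  le_antisymm (betti_symm_le W (by omega)) (betti_symm_le W (by omega))

/-- **Numerical criterion for the standard conjecture B.** -/
theorem numerical_criterion (hn : 1 ≤ X.dim) (D : X.Cycles) (hD : X.IsCyc 1 D)
    (W : WeilCohomology.{u, v} ops) :
    (HardLefschetz W X D ∧ ∃ z, (X.prod X).IsCyc (X.dim - 1) z ∧ InducesLambda W X D z) ↔
    (∀ i, i + 2 ≤ X.dim → W.betti X i ≤ W.betti X (i + 2)) ∧
      ∃ z, (X.prod X).IsCyc (X.dim - 1) z ∧ ∀ w : List Bool, w.count true = w.count false →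
        w.length ≤ 2 * (∑ i ∈ range (2 * X.dim + 1), W.betti X i) ^ 2 →
        wordNumber ops X D z w = expectedTrace X.dim (W.betti X) w := by
  have hfinW := finrank_eq_sum (W.isInternal X) (hbdW W)
  constructor
  · rintro ⟨hHL, z, hz, hLam⟩
    refine ⟨?_, z, hz, ?_⟩
    · intro i hi
      have h1 : ∀ a ∈ W.gr X i, LinearMap.mulLeft W.K (W.cl X D) a = 0 → a = 0 := by
        intro a ha h0
        apply (hHL i (by omega)).1 a ha
        rw [show X.dim - i = (X.dim - i - 1) + 1 by omega, pow_succ, Module.End.mul_apply, h0,
          map_zero]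
      have h2 := finrank_map_of_inj h1
      unfold WeilCohomology.betti
      rw [← h2]
      apply Submodule.finrank_mono
      rintro _ ⟨a, ha, rfl⟩
      have := pow_L_mem (isHom_mulLeft W hD) ha 1
      simpa using this
    · intro w hw _
      have h1 := trace_word (W.isInternal X) (isHom_mulLeft W hD) (hbdW W) hHL hLam hw
      have h2 := wordNumber_eq (ops := ops) hD hn hz hw W
      rw [par] at h2
      rw [h2] at h1
      exact_mod_cast h1
  · rintro ⟨hb, z, hz, hword⟩
    have hlam : IsHom (W.gr X) (-2) (W.corr (W.cl _ z)) := by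
      have := (realized_corr (ops := ops) hn hz).isHom W
      simpa using this
    obtain ⟨V₀, i1, i2, i3, gr₀, hint, L₀, Lam₀, hbd₀, hL₀, hLam₀h, hHL₀, hLam₀, hdim₀⟩ :=
      exists_model W.K X.dim (W.betti X) hb (fun i hi => betti_symm W hi)
    have hfin₀ : Module.finrank W.K V₀ = ∑ i ∈ range (2 * X.dim + 1), W.betti X i := by
      rw [finrank_eq_sum hint hbd₀]
      apply Finset.sum_congr rfl
      intro i hi
      exact hdim₀ i (by rw [Finset.mem_range] at hi; omega)
    have hexp : ∀ w : List Bool, expectedTrace X.dim (fun i => Module.finrank W.K (gr₀ i)) w =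
        expectedTrace X.dim (W.betti X) w := by
      intro w
      unfold expectedTrace
      apply Finset.sum_congr rfl
      intro i hi
      rw [Finset.mem_range] at hi
      beta_reduce
      rw [hdim₀ i (by omega)]
      congr 2
      split_ifs
      · rw [hdim₀ (i - 2) (by omega)]
      · rfl
    have htr₀ : ∀ w : List Bool, w.count true = w.count false →
        LinearMap.trace W.K V₀ (par hint * opW L₀ Lam₀ w) =
          (expectedTrace X.dim (W.betti X) w : W.K) := by
      intro w hw
      have h1 := trace_word hint hL₀ hbd₀ hHL₀ hLam₀ hw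
      rw [hexp w] at h1
      exact h1
    have htr : ∀ w : List Bool, w.count true = w.count false →
        LinearMap.trace W.K (W.H X) (par (W.isInternal X) *
          opW (LinearMap.mulLeft W.K (W.cl X D)) (W.corr (W.cl _ z)) w) =
          (expectedTrace X.dim (W.betti X) w : W.K) := by
      intro w hw
      rw [← htr₀ w hw]
      symm
      apply trace_of_short hint (W.isInternal X) hL₀ hLam₀h (isHom_mulLeft W hD) hlam
        (2 * (∑ i ∈ range (2 * X.dim + 1), W.betti X i) ^ 2)
      · rw [hfin₀, hfinW]
        unfold WeilCohomology.betti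
        nlinarith
      · intro w hw hlen
        rw [htr₀ w hw, wordNumber_eq (ops := ops) hD hn hz hw W, hword w hw hlen]
        push_cast
        rfl
    have hP := wRel_pairRel hint (W.isInternal X) hL₀ hLam₀h (isHom_mulLeft W hD) hlam
      (expectedTrace X.dim (W.betti X)) htr₀ htr
    have hdims : ∀ i ∈ range (2 * X.dim + 1),
        Module.finrank W.K (W.gr X i) = Module.finrank W.K (gr₀ i) := by
      intro i hi
      rw [hdim₀ i (by rw [Finset.mem_range] at hi; omega)]
      rfl
    set N := ∑ i ∈ range (2 * X.dim + 1), Module.finrank W.K (gr₀ i) + 1 with hN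
    have key := compare_lef (N := N) hP hbd₀ (hbdW W) hL₀ (isHom_mulLeft W hD) wRel_Ll wRel_lL
      hHL₀ hLam₀ (Finset.sum_congr rfl hdims).le
      (Finset.sum_congr rfl (fun i hi => by rw [hdims i hi])).le (by omega)
      (by rw [hN]; exact Nat.le_succ _)
    refine ⟨key.1, ?_⟩
    rcases realized_phiOp (ops := ops) hD (realized_corr (ops := ops) hn hz) X.dim N with
      ⟨q, hq, Z, hZ, hZW⟩ | ⟨h1, _⟩
    · obtain rfl : q = X.dim - 1 := by omega
      refine ⟨Z, hZ, ?_⟩
      have h1 := key.2.1
      have h2 := hZW W
      beta_reduce at h2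
      rw [h2] at h1
      exact h1
    · omega

end

end Pool.Agent.H914
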