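import Pool.Agent.H90.G.S8.H914R2.WeilBasic

/-!
# Families of operators realised by algebraic correspondences
-/

open CategoryTheory AlgebraicGeometry Finset Polynomial

universe u v

namespace Pool.Agent.H914

open VarClass Obj WeilCohomology

variable {k : Type u} [Field k] {𝒱 : VarClass k} {ops : CycleOps 𝒱}

lemma compCyc_mem {X Y Z : 𝒱.Obj} {p q r : ℕ} {z : (X.prod Y).Cycles} {w : (Y.prod Z).Cycles}
    (hz : (X.prod Y).IsCyc p z) (hw : (Y.prod Z).IsCyc q w)
    (h : p + q = r + Y.dim) : (X.prod Z).IsCyc r (compCyc ops z w) := by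
  apply ops.push_mem _ (ops.mul_mem (ops.pull_mem _ hz) (ops.pull_mem _ hw))
  simp only [dim_prod]
  omega

lemma corr_compCyc (W : WeilCohomology.{u, v} ops) {X Y Z : 𝒱.Obj} {q : ℕ}
    {z : (X.prod Y).Cycles} {w : (Y.prod Z).Cycles} (hw : (Y.prod Z).IsCyc q w) :
    W.corr (W.cl _ (compCyc ops z w)) = W.corr (W.cl _ w) ∘ₗ W.corr (W.cl _ z) := by
  rw [compCyc, W.cl_push, W.cl_mul, W.cl_pull, W.cl_pull, W.corr_comp _ (W.cl_mem hw)]

/-- Operators of very negative degree vanish. -/
lemma eq_zero_of_isHom {K : Type*} [Field K] {V : Type*} [AddCommGroup V] [Module K V]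
    {gr : ℕ → Submodule K V} (h : DirectSum.IsInternal gr) {n : ℕ}
    (hbd : ∀ i, 2 * n < i → gr i = ⊥) {d : ℤ} (hd : d < -(2 * n : ℤ)) {y : Module.End K V}
    (hy : IsHom gr d y) : y = 0 := by
  apply gr_ext h
  intro i a ha
  rw [LinearMap.zero_apply]
  by_cases hi : 2 * n < i
  · rw [hbd i hi] at ha
    rw [(Submodule.mem_bot _).1 ha, map_zero]
  · have := hy i a (by rw [grZ_natCast]; exact ha)
    rw [grZ_of_neg (by omega)] at this
    exact (Submodule.mem_bot _).1 this

/-- The families of operators (one for each Weil cohomology theory) of degree `2d` which are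
realised by an algebraic correspondence. -/
def Realized (ops : CycleOps 𝒱) (X : 𝒱.Obj) (d : ℤ)
    (Y : ∀ W : WeilCohomology.{u, v} ops, Module.End W.K (W.H X)) : Prop :=
  (∃ q : ℕ, (q : ℤ) = X.dim + d ∧ ∃ z, (X.prod X).IsCyc q z ∧
    ∀ W : WeilCohomology.{u, v} ops, Y W = W.corr (W.cl _ z)) ∨
  ((X.dim : ℤ) + d < 0 ∧ ∀ W : WeilCohomology.{u, v} ops, Y W = 0)

namespace Realized

variable {X : 𝒱.Obj} {d e : ℤ}
  {Y Y' : ∀ W : WeilCohomology.{u, v} ops, Module.End W.K (W.H X)}

lemma congr (h : Realized ops X d Y) (h' : ∀ W, Y' W = Y W) : Realized ops X d Y' := by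
  have : Y' = Y := funext h'
  rwa [this]

lemma cast (h : Realized ops X d Y) (hde : d = e) : Realized ops X e Y := hde ▸ h

lemma isHom (h : Realized ops X d Y) (W : WeilCohomology.{u, v} ops) :
    IsHom (W.gr X) (2 * d) (Y W) := by
  rcases h with ⟨q, hq, z, hz, hY⟩ | ⟨_, hY⟩
  · rw [hY]
    have := W.corr_isHom (W.cl_mem hz)
    rwa [show (q : ℤ) - X.dim = d by omega] at this
  · rw [hY]; exact isHom_zero _

lemma add (h : Realized ops X d Y) (h' : Realized ops X d Y') :
    Realized ops X d (fun W => Y W + Y' W) := by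
  rcases h with ⟨q, hq, z, hz, hY⟩ | ⟨hd, hY⟩
  · rcases h' with ⟨q', hq', z', hz', hY'⟩ | ⟨hd', _⟩
    · obtain rfl : q = q' := by omega
      refine Or.inl ⟨q, hq, z + z', hz.add hz', fun W => ?_⟩
      beta_reduce
      rw [hY, hY', map_add, corr_add]
    · omega
  · rcases h' with ⟨q', hq', z', hz', hY'⟩ | ⟨hd', hY'⟩
    · omega
    · exact Or.inr ⟨hd, fun W => by beta_reduce; rw [hY, hY', add_zero]⟩

lemma smul (q : ℚ) (h : Realized ops X d Y) :
    Realized ops X d (fun W => (q : W.K) • Y W) := by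
  rcases h with ⟨p, hp, z, hz, hY⟩ | ⟨hd, hY⟩
  · refine Or.inl ⟨p, hp, q • z, hz.smul q, fun W => ?_⟩
    beta_reduce
    rw [hY, cl_smul, corr_smul]
  · exact Or.inr ⟨hd, fun W => by beta_reduce; rw [hY, smul_zero]⟩

lemma mul (h : Realized ops X d Y) (h' : Realized ops X e Y') :
    Realized ops X (d + e) (fun W => Y W * Y' W) := by
  by_cases hde : (X.dim : ℤ) + (d + e) < 0
  · refine Or.inr ⟨hde, fun W => ?_⟩
    have h1 := (h.isHom W).mul (h'.isHom W)
    exact eq_zero_of_isHom (W.isInternal X) (W.gr_eq_bot X) (by omega) h1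
  · rcases h with ⟨q, hq, z, hz, hY⟩ | ⟨hd, hY⟩
    · rcases h' with ⟨q', hq', z', hz', hY'⟩ | ⟨hd', hY'⟩
      · refine Or.inl ⟨(X.dim + (d + e)).toNat, by omega, compCyc ops z' z,
          compCyc_mem hz' hz (by omega), fun W => ?_⟩
        beta_reduce
        rw [hY, hY', corr_compCyc W hz]
        rfl
      · refine Or.inl ⟨(X.dim + (d + e)).toNat, by omega, 0, SmVar.IsCyc.zero _ _, fun W => ?_⟩
        beta_reduce
        rw [hY', mul_zero, map_zero, corr_zero]
    · refine Or.inl ⟨(X.dim + (d + e)).toNat, by omega, 0, SmVar.IsCyc.zero _ _, fun W => ?_⟩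
      beta_reduce
      rw [hY, zero_mul, map_zero, corr_zero]

lemma zero (d : ℤ) : Realized.{u, v} ops X d (fun _ => 0) := by
  by_cases hd : (X.dim : ℤ) + d < 0
  · exact Or.inr ⟨hd, fun _ => rfl⟩
  · refine Or.inl ⟨(X.dim + d).toNat, by omega, 0, SmVar.IsCyc.zero _ _, fun W => ?_⟩
    rw [map_zero, corr_zero]

lemma neg (h : Realized ops X d Y) : Realized ops X d (fun W => - Y W) :=
  (h.smul (-1)).congr (fun W => by
    rw [Rat.cast_neg, Rat.cast_one]
    exact (neg_one_smul W.K (Y W)).symm)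

lemma sub (h : Realized ops X d Y) (h' : Realized ops X d Y') :
    Realized ops X d (fun W => Y W - Y' W) :=
  (h.add h'.neg).congr (fun W => sub_eq_add_neg _ _)

lemma sum {ι : Type*} {s : Finset ι}
    {F : ι → ∀ W : WeilCohomology.{u, v} ops, Module.End W.K (W.H X)}
    (h : ∀ i ∈ s, Realized ops X d (F i)) :
    Realized ops X d (fun W => ∑ i ∈ s, F i W) := by
  classical
  induction s using Finset.induction_on with
  | empty => exact (zero d).congr (fun _ => Finset.sum_empty)
  | insert a s ha ih =>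
    exact ((h a (by simp)).add (ih (fun i hi => h i (by simp [hi])))).congr
      (fun W => Finset.sum_insert ha)

/-- Multiplication by the class of a cycle. -/
lemma mulLeft {p : ℕ} {D : X.Cycles} (hD : X.IsCyc p D) :
    Realized.{u, v} ops X p (fun W => LinearMap.mulLeft W.K (W.cl X D)) := by
  refine Or.inl ⟨X.dim + p, by push_cast; ring, ops.push (diag X) D,
    ops.push_mem _ hD (by simp only [dim_prod]; omega), fun W => ?_⟩
  apply LinearMap.ext
  intro a
  rw [W.cl_push, corr_diag, LinearMap.mulLeft_apply]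

lemma one : Realized.{u, v} ops X 0 (fun _ => 1) := by
  have := mulLeft (ops := ops) (X := X) X.V.fundCycle_mem
  refine (this.cast Nat.cast_zero).congr (fun W => ?_)
  apply LinearMap.ext
  intro a
  rw [LinearMap.mulLeft_apply, W.cl_fund, one_mul, Module.End.one_apply]

lemma pow (h : Realized ops X d Y) (m : ℕ) :
    Realized ops X (m * d) (fun W => Y W ^ m) := by
  induction m with
  | zero => exact (one.cast (by simp)).congr (fun W => pow_zero _)
  | succ m ih => exact ((ih.mul h).cast (by push_cast; ring)).congr (fun W => pow_succ _ _)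

lemma pow0 (h : Realized ops X 0 Y) (m : ℕ) : Realized ops X 0 (fun W => Y W ^ m) :=
  (h.pow m).cast (mul_zero _)

lemma ev (h : Realized ops X 0 Y) (f : ℚ[X]) :
    Realized ops X 0 (fun W => H914.ev (Y W) f) := by
  induction f using Polynomial.induction_on' with
  | add p q hp hq => exact (hp.add hq).congr (fun W => map_add _ _ _)
  | monomial r c =>
    refine ((h.pow0 r).smul c).congr (fun W => ?_)
    rw [← C_mul_X_pow_eq_monomial, map_mul, map_pow, ev_C, ev_X, smul_mul_assoc, one_mul]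

end Realized

/-- The relation between operators in two Weil cohomology theories: being realised by a common
algebraic correspondence of degree zero. -/
def relOp (X : 𝒱.Obj) (W₀ W : WeilCohomology.{u, v} ops) (y₀ : Module.End W₀.K (W₀.H X))
    (y : Module.End W.K (W.H X)) : Prop :=
  ∃ Y, Realized ops X 0 Y ∧ Y W₀ = y₀ ∧ Y W = y

lemma relOp_pairRel (X : 𝒱.Obj) (W₀ W : WeilCohomology.{u, v} ops) :
    PairRel (W₀.isInternal X) (W.isInternal X) (relOp X W₀ W) where
  one := ⟨_, Realized.one, rfl, rfl⟩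
  add := by
    rintro _ _ _ _ ⟨Y, hY, rfl, rfl⟩ ⟨Y', hY', rfl, rfl⟩
    exact ⟨_, hY.add hY', rfl, rfl⟩
  mul := by
    rintro _ _ _ _ ⟨Y, hY, rfl, rfl⟩ ⟨Y', hY', rfl, rfl⟩
    exact ⟨_, (hY.mul hY').cast (by simp), rfl, rfl⟩
  smul := by
    rintro q _ _ ⟨Y, hY, rfl, rfl⟩
    exact ⟨_, hY.smul q, rfl, rfl⟩
  tr := by
    rintro _ _ ⟨Y, hY, rfl, rfl⟩
    rcases hY with ⟨q, hq, z, hz, hY⟩ | ⟨hd, _⟩
    · obtain rfl : q = X.dim := by omega
      refine ⟨X.V.degCycle (ops.pull (diag X) z), ?_, ?_⟩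
      · rw [hY, trace_par_corr, ← cl_pull, tr_cl _ (ops.pull_mem _ hz)]
      · rw [hY, trace_par_corr, ← cl_pull, tr_cl _ (ops.pull_mem _ hz)]
    · omega
  hom := by
    rintro _ _ ⟨Y, hY, rfl, rfl⟩
    simpa using hY.isHom W

lemma relOp_symm {X : 𝒱.Obj} {W₀ W : WeilCohomology.{u, v} ops} {y₀ y}
    (h : relOp X W₀ W y₀ y) : relOp X W W₀ y y₀ := by
  obtain ⟨Y, hY, h1, h2⟩ := h
  exact ⟨Y, hY, h2, h1⟩

end Pool.Agent.H914
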