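import Pool.Agent.H90.G.S8.H914R2.AProj

/-!
# The projector onto the algebraic part, with an orthogonal family
-/

open Finset

namespace Pool.Agent.H914

variable {K : Type*} [Field K] [CharZero K] {V : Type*} [AddCommGroup V] [Module K V]
  [Module.Finite K V]

namespace AlgPart

variable {gr : ℕ → Submodule K V} {n : ℕ} {L : Module.End K V}
  {B : V →ₗ[K] V →ₗ[K] K} {C : ℕ → Set V} (hC : AlgPart gr n L B C)
  {H Lam w : Module.End K V} (t : Sl2 H L Lam) (hw1 : w * L = -(Lam * w))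
  (hw3 : ∀ (m : ℕ) (v : V), Lam v = 0 → H v = -(m : K) • v →
      w v = ((m.factorial : K)⁻¹) • (L ^ m) v)
  (hlow : ∀ i ≤ n, ∀ a ∈ gr i, (L ^ (n - i + 1)) a = 0 → Lam a = 0)
  (hH : ∀ i, ∀ a ∈ gr i, H a = ((i : K) - n) • a)

include hC t hw1 hw3 hlow hH

/-- The projector onto the algebraic part, given by an orthogonal family. -/
theorem exists_projData' (hL : IsHom gr 2 L) (hbd : ∀ i, 2 * n + 1 ≤ i → gr i = ⊥) :
    ∃ (κ : Type) (_ : Fintype κ) (l : κ → ℕ) (x : κ → V) (φ : κ → ℚ) (p : Module.End K V),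
      ProjData n B C w κ l x φ p ∧ ∀ k k', k ≠ k' → B (x k) (w (x k')) = 0 := by
  classical
  set Φ : V →ₗ[K] V →ₗ[K] K := B.compl₂ w with hΦ
  have hΦa : ∀ a b, Φ a b = B a (w b) := fun a b => rfl
  have hfam : ∀ l, ∃ (N : ℕ) (x : Fin N → V), (∀ i, x i ∈ C l ∧ x i ≠ 0) ∧
      (∀ i j, i ≠ j → Φ (x i) (x j) = 0) ∧ ∀ c ∈ C l, (∀ i, Φ c (x i) = 0) → c = 0 := by
    intro l
    apply exists_orthogonal Φ (C l)
    · intro a ha b hb
      exact hC.weyl_symm t hw1 hw3 hlow hH hL hbd ha hb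
    · intro a ha ha0 h0
      obtain ⟨s, hs1, hs2⟩ := hC.weyl_pos t hw1 hw3 hlow hH hL hbd ha ha0
      rw [hΦa, hs1] at h0
      have : s = 0 := by exact_mod_cast h0
      rw [this, mul_zero] at hs2
      exact lt_irrefl _ hs2
  choose N X hX ho hmax using hfam
  set κ := Σ l : Fin (n + 1), Fin (N l) with hκ
  set l : κ → ℕ := fun k => (k.1 : ℕ) with hl
  set x : κ → V := fun k => X k.1 k.2 with hx
  have hval : ∀ k : κ, ∃ s : ℚ, B (x k) (w (x k)) = s ∧ 0 < (-1) ^ (l k) * s := fun k =>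
    hC.weyl_pos t hw1 hw3 hlow hH hL hbd (hX _ k.2).1 (hX _ k.2).2
  choose φ hφ hφpos using hval
  have hφ0 : ∀ k, (φ k : K) ≠ 0 := by
    intro k h0
    have h1 : φ k = 0 := by exact_mod_cast h0
    have := hφpos k
    rw [h1, mul_zero] at this
    exact lt_irrefl _ this
  have hmem : ∀ k, x k ∈ C (l k) := fun k => (hX _ k.2).1
  have hle : ∀ k, l k ≤ n := fun k => by have := k.1.2; simp only [hl]; omega
  -- degree reasons
  have hdeg : ∀ l₁ l₂, l₁ ≠ l₂ → l₂ ≤ n → ∀ a ∈ C l₁, ∀ b ∈ C l₂, B a (w b) = 0 := by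
    intro l₁ l₂ hne h2 a ha b hb
    have h3 := hC.sub _ _ (hC.weyl_mem t hw1 hw3 hlow hH hL hbd h2 hb)
    by_cases h1 : l₁ ≤ n
    · exact hC.deg _ _ _ (hC.sub _ _ ha) _ h3 (by omega)
    · rw [hC.eq_zero_of_gt hbd (by omega) ha]; simp
  have horth : ∀ k k', k ≠ k' → B (x k) (w (x k')) = 0 := by
    intro k k' hne
    by_cases h1 : l k = l k'
    · obtain ⟨⟨a, ha⟩, i⟩ := k
      obtain ⟨⟨b, hb⟩, i'⟩ := k'
      simp only [hl] at h1
      subst h1
      have : i ≠ i' := by rintro rfl; exact hne rfl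
      exact ho a i i' this
    · exact hdeg _ _ h1 (hle k') _ (hmem k) _ (hmem k')
  set p : Module.End K V := ∑ k, (φ k : K)⁻¹ • ((B.flip (w (x k))).smulRight (x k)) with hp
  have hpe : ∀ y, p y = ∑ k, ((φ k : K)⁻¹ * B y (w (x k))) • x k := by
    intro y
    rw [hp, LinearMap.sum_apply]
    apply Finset.sum_congr rfl
    intro k _
    rw [LinearMap.smul_apply, LinearMap.smulRight_apply, LinearMap.flip_apply, smul_smul]
  have hpx : ∀ y k, B (y - p y) (w (x k)) = 0 := by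
    intro y k
    rw [map_sub, LinearMap.sub_apply, hpe, map_sum, LinearMap.sum_apply, Finset.sum_eq_single k]
    · rw [map_smul, LinearMap.smul_apply, hφ, smul_eq_mul]
      field_simp [hφ0 k]
      ring
    · intro k' _ hk'
      rw [map_smul, LinearMap.smul_apply, horth k' k hk', smul_zero]
    · intro h; exact absurd (Finset.mem_univ k) h
  have hfix : ∀ l₀, ∀ c ∈ C l₀, p c = c := by
    intro l₀ c hc
    by_cases hln : l₀ ≤ n
    swap
    · rw [hC.eq_zero_of_gt hbd (by omega) hc, map_zero]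
    have h1 : p c ∈ C l₀ := by
      rw [hpe]
      apply hC.sum_mem
      intro k _
      by_cases h2 : l k = l₀
      · have hr : ∃ s : ℚ, B c (w (x k)) = s := by
          exact hC.rat _ _ _ hc _ (hC.weyl_mem t hw1 hw3 hlow hH hL hbd (hle k) (hmem k))
        obtain ⟨s, hs⟩ := hr
        have h3 := hC.smul _ ((φ k)⁻¹ * s) _ (hmem k)
        rw [h2] at h3
        rw [hs]
        push_cast at h3
        exact h3
      · rw [hdeg l₀ (l k) (Ne.symm h2) (hle k) c hc _ (hmem k), mul_zero, zero_smul]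
        exact hC.zero _
    have h4 : c - p c ∈ C l₀ := by
      have h5 := hC.add _ _ hc _ (hC.smul _ (-1) _ h1)
      simpa [sub_eq_add_neg] using h5
    have h6 : c - p c = 0 := by
      apply hmax l₀ _ h4
      intro i
      exact hpx c ⟨⟨l₀, by omega⟩, i⟩
    exact (sub_eq_zero.1 h6).symm
  refine ⟨κ, inferInstance, l, x, φ, p, ⟨hle, hmem, hφ, hφpos, hpe, hfix, ?_, ?_⟩, horth⟩
  · intro y l₀ c hc
    by_cases hln : l₀ ≤ n
    swap
    · rw [hC.eq_zero_of_gt hbd (by omega) hc, map_zero]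
    have h1 := hC.weyl_mem t hw1 hw3 hlow hH hL hbd hln hc
    have h2 := hC.weyl_sq t hw1 hw3 hlow hH hL hbd hc
    have h3 : B (y - p y) (w (w c)) = 0 := by
      rw [← hfix _ _ h1, hpe (w c), map_sum, map_sum]
      apply Finset.sum_eq_zero
      intro k _
      rw [map_smul, map_smul, hpx, smul_zero]
    rw [h2, map_smul, smul_eq_zero] at h3
    rcases h3 with h4 | h4
    · exact absurd h4 (pow_ne_zero _ (by norm_num))
    · exact h4
  · intro y hy
    rw [hpe]
    apply Finset.sum_eq_zero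
    intro k _
    rw [hy _ _ (hC.weyl_mem t hw1 hw3 hlow hH hL hbd (hle k) (hmem k)), mul_zero, zero_smul]

end AlgPart

end Pool.Agent.H914
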