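import Pool.Agent.H90.G.S8.H914R2.PEnd
import Pool.Agent.H90.G.S8.H914R2.CPart
import Pool.Agent.H90.G.S8.H914R2.HLam
import Pool.Agent.H90.G.S8.H914R2.PProj

/-!
# The real structure on the cohomology of a single variety
-/

open CategoryTheory AlgebraicGeometry Finset Polynomial

universe u v w

namespace Pool.Agent.H914

open VarClass Obj WeilCohomology

variable {k : Type u} [Field k] {𝒱 : VarClass k} {ops : CycleOps 𝒱}
  {W : WeilCohomology.{u, v} ops} {X Y Z : 𝒱.Obj} {𝓡 : RealField W.K}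

/-- The Lefschetz representation and the projector onto the algebraic part. -/
structure Setup (W : WeilCohomology.{u, v} ops) (X : 𝒱.Obj) (D : X.Cycles)
    (Lam : Module.End W.K (W.H X)) (κ : Type) [Fintype κ] (l : κ → ℕ) (x : κ → W.H X) (φ : κ → ℚ)
    (p : Module.End W.K (W.H X)) : Prop where
  hD : X.IsCyc 1 D
  hHL : HardLefschetz W X D
  sl2 : Sl2 (wt (W.isInternal X) X.dim) (LinearMap.mulLeft W.K (W.cl X D)) Lam
  hC : AlgPart (W.gr X) X.dim (LinearMap.mulLeft W.K (W.cl X D)) (bil W X) (algClasses W X)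
  hp : ProjData X.dim (bil W X) (algClasses W X)
    (wey (LinearMap.mulLeft W.K (W.cl X D)) Lam) κ l x φ p
  orth : ∀ k k', k ≠ k' → bil W X (x k)
    (wey (LinearMap.mulLeft W.K (W.cl X D)) Lam (x k')) = 0
  weyl_mem : ∀ l ≤ X.dim, ∀ c ∈ algClasses W X l,
    wey (LinearMap.mulLeft W.K (W.cl X D)) Lam c ∈ algClasses W X (X.dim - l)

/-- The operator on a primitive class in the middle degree. -/
lemma wt_mid {y : W.H X} (hy : y ∈ W.gr X X.dim) :
    wt (W.isInternal X) X.dim y = -((0 : ℕ) : W.K) • y := by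
  rw [wt, scal_apply _ _ hy, node]
  congr 1
  push_cast
  ring

lemma exists_setup {D : X.Cycles} (hD : X.IsCyc 1 D) (hHL : HardLefschetz W X D)
    (hA : LefschetzA W X D) (hH : HodgeType W X D) :
    ∃ (Lam : Module.End W.K (W.H X)) (κ : Type) (_ : Fintype κ) (l : κ → ℕ) (x : κ → W.H X)
      (φ : κ → ℚ) (p : Module.End W.K (W.H X)), Setup W X D Lam κ l x φ p := by
  classical
  have hC := algPart hD hA hH
  have hLh : IsHom (W.gr X) 2 (LinearMap.mulLeft W.K (W.cl X D)) := mulLeft_isHom hD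
  have hbd : ∀ i, 2 * X.dim + 1 ≤ i → W.gr X i = ⊥ := W_hbd
  obtain ⟨Lam, t, -, -⟩ := exists_sl2 (W.isInternal X) hLh hbd hHL
  set L : Module.End W.K (W.H X) := LinearMap.mulLeft W.K (W.cl X D) with hL
  have hw1 : wey L Lam * L = -(Lam * wey L Lam) := wey_e t
  have hw3 : ∀ (m : ℕ) (v : W.H X), Lam v = 0 → wt (W.isInternal X) X.dim v = -(m : W.K) • v →
      wey L Lam v = ((m.factorial : W.K)⁻¹) • (L ^ m) v := fun m v hv hm => wey_lowest t hv hm
  have hHw : ∀ i, ∀ a ∈ W.gr X i, wt (W.isInternal X) X.dim a = ((i : W.K) - X.dim) • a := by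
    intro i a ha
    rw [wt, scal_apply _ _ ha, node]
    push_cast; rfl
  have hlow : ∀ i ≤ X.dim, ∀ a ∈ W.gr X i, (L ^ (X.dim - i + 1)) a = 0 → Lam a = 0 := by
    intro i hi a ha h0
    refine t.f_eq_zero (M := X.dim - i) ?_ h0
    rw [hHw i a ha, Nat.cast_sub hi]
    congr 1
    ring
  obtain ⟨κ, hκ, l, x, φ, p, hp, ho⟩ := hC.exists_projData' t hw1 hw3 hlow hHw hLh hbd
  exact ⟨Lam, κ, hκ, l, x, φ, p, hD, hHL, t, hC, hp, ho, fun l hl c hc =>
    hC.weyl_mem t hw1 hw3 hlow hHw hLh hbd hl hc⟩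

namespace Setup

variable {D : X.Cycles} {Lam : Module.End W.K (W.H X)} {κ : Type} [Fintype κ] {l : κ → ℕ}
  {x : κ → W.H X} {φ : κ → ℚ} {p : Module.End W.K (W.H X)} (h : Setup W X D Lam κ l x φ p)

include h

lemma wx_mem (k : κ) : wey (LinearMap.mulLeft W.K (W.cl X D)) Lam (x k) ∈
    algClasses W X (X.dim - l k) := h.weyl_mem _ (h.hp.le k) _ (h.hp.mem k)

lemma B_deg {i : ℕ} {y : W.H X} (hy : y ∈ W.gr X i) (k : κ) (hk : 2 * l k ≠ i) :
    bil W X y (wey (LinearMap.mulLeft W.K (W.cl X D)) Lam (x k)) = 0 := by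
  have h1 := h.hp.le k
  exact bil_eq_zero hy (alg_gr (h.wx_mem k)) (by omega)

lemma p_deg {i : ℕ} {y : W.H X} (hy : y ∈ W.gr X i) : p y ∈ W.gr X i := by
  rw [h.hp.p_eq]
  apply Submodule.sum_mem
  intro k _
  by_cases hk : 2 * l k = i
  · apply Submodule.smul_mem
    rw [← hk]
    exact alg_gr (h.hp.mem k)
  · rw [h.B_deg hy k hk, mul_zero, zero_smul]
    exact Submodule.zero_mem _

lemma compl_mem (y : W.H X) : y - p y ∈ transcendental W X := by
  rw [← Tpart_eq]
  exact h.hp.compl y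

lemma p_kill {y : W.H X} (hy : y ∈ transcendental W X) : p y = 0 := by
  rw [← Tpart_eq] at hy
  exact h.hp.kill y hy

lemma eq_p (hmid : transcendental W X ≤ W.gr X X.dim) {i : ℕ} {y : W.H X} (hy : y ∈ W.gr X i)
    (hi : i ≠ X.dim) : y = p y := by
  have h1 : y - p y ∈ W.gr X i := Submodule.sub_mem _ hy (h.p_deg hy)
  have h2 := hmid (h.compl_mem y)
  have h3 := proj_same (W.isInternal X) h1
  rw [proj_ne (W.isInternal X) h2 (Ne.symm hi)] at h3
  exact (sub_eq_zero.1 h3.symm)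

lemma alg_mul_trans (hmid : transcendental W X ≤ W.gr X X.dim) {j : ℕ} {c : W.H X}
    (hc : c ∈ algClasses W X j) (hj : 1 ≤ j) {t : W.H X} (ht : t ∈ transcendental W X) :
    c * t = 0 := by
  apply W.nondeg
  intro b
  refine gr_induction (W.isInternal X) (p := fun b => W.tr X (c * t * b) = 0) ?_ ?_ b
  · intro i b hb
    by_cases hi : i = X.dim
    · have h1 := W.mul_mem (W.mul_mem (alg_gr hc) (hmid ht)) hb
      exact W.tr_eq_zero h1 (by omega)
    · rw [h.eq_p hmid hb hi, h.hp.p_eq, Finset.mul_sum, map_sum]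
      apply Finset.sum_eq_zero
      intro k _
      have h1 : c * t * x k = t * (c * x k) := by
        rw [W.even_comm (alg_gr hc) t, mul_assoc]
      obtain ⟨z, hz, rfl⟩ := hc
      obtain ⟨z', hz', hx⟩ := h.hp.mem k
      have h2 := mem_trans.1 ht _ _ ⟨ops.mul z z', ops.mul_mem hz hz', W.cl_mul z z'⟩
      rw [mul_smul_comm, map_smul, h1, ← hx]
      rw [bil_apply] at h2
      rw [h2, smul_zero]
  · intro a b ha hb
    rw [mul_add, map_add, ha, hb, add_zero]

lemma exists_top (h1 : (1 : W.H X) ≠ 0) : ∃ b ∈ algClasses W X X.dim, ∃ r : ℚ, r ≠ 0 ∧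
    W.tr X b = r ∧ ∀ y ∈ W.gr X (2 * X.dim), y = (W.tr X y * (r : W.K)⁻¹) • b := by
  obtain ⟨b, hb, hb0⟩ := Pool.Agent.H914.exists_top (W := W) h.hD h.hHL h1
  obtain ⟨z, hz, rfl⟩ := hb
  rw [W.tr_cl hz] at hb0
  have hr : X.V.degCycle z ≠ 0 := by
    intro h0
    rw [h0, Rat.cast_zero] at hb0
    exact hb0 rfl
  refine ⟨_, ⟨z, hz, rfl⟩, X.V.degCycle z, hr, W.tr_cl hz, ?_⟩
  intro y hy
  rw [← sub_eq_zero]
  apply W.nondeg
  intro d
  have hmem : y - (W.tr X y * ((X.V.degCycle z : ℚ) : W.K)⁻¹) • W.cl X z ∈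
      W.gr X (2 * X.dim) := Submodule.sub_mem _ hy (Submodule.smul_mem _ _ (W.cl_mem hz))
  refine gr_induction (W.isInternal X) (p := fun d => W.tr X ((y -
    (W.tr X y * ((X.V.degCycle z : ℚ) : W.K)⁻¹) • W.cl X z) * d) = 0) ?_ ?_ d
  · intro i d hd
    by_cases hi : i = 0
    · subst hi
      rw [W.gr_zero, Submodule.mem_span_singleton] at hd
      obtain ⟨c, rfl⟩ := hd
      rw [mul_smul_comm, mul_one, map_smul, map_sub, map_smul, W.tr_cl hz, smul_eq_mul,
        smul_eq_mul, mul_assoc, inv_mul_cancel₀ hb0, mul_one, sub_self, mul_zero]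
    · exact W.tr_eq_zero (W.mul_mem hmem hd) (by omega)
  · intro a b ha hb
    rw [mul_add, map_add, ha, hb, add_zero]

lemma alg_zero_rat (h1 : (1 : W.H X) ≠ 0) {c : W.H X} (hc : c ∈ algClasses W X 0) :
    ∃ r : ℚ, c = (r : W.K) • (1 : W.H X) := by
  obtain ⟨b, hb, r, hr, hbr, -⟩ := h.exists_top h1
  have h2 := alg_gr hc
  rw [mul_zero, W.gr_zero, Submodule.mem_span_singleton] at h2
  obtain ⟨t, rfl⟩ := h2
  obtain ⟨s, hs⟩ := alg_rat hc hb
  rw [bil_apply, smul_mul_assoc, one_mul, map_smul, hbr, smul_eq_mul] at hs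
  refine ⟨s / r, ?_⟩
  congr 1
  have hr' : (r : W.K) ≠ 0 := by exact_mod_cast hr
  push_cast
  rw [eq_div_iff hr', hs]

/-- The component of a class in the algebraic part. -/
lemma p_span (y : W.H X) : p y ∈ Submodule.span W.K {c | ∃ j, c ∈ algClasses W X j} := by
  rw [h.hp.p_eq]
  apply Submodule.sum_mem
  intro k _
  apply Submodule.smul_mem
  exact Submodule.subset_span ⟨_, h.hp.mem k⟩

end Setup

/-- The properties of the eigenvectors in the transcendental cohomology. -/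
structure TProps (W : WeilCohomology.{u, v} ops) (X : 𝒱.Obj) (ψ : X ⟶ X) (𝓡 : RealField W.K)
    {A : Type v} (al : A → W.K) (vec : A → W.H X) (kap : A → W.K) (bar : A → A)
    (η : A → Bool) : Prop where
  mid : transcendental W X ≤ W.gr X X.dim
  trans : ∀ a, vec a ∈ transcendental W X
  span : transcendental W X ≤ Submodule.span W.K (Set.range vec)
  F_vec : ∀ a, W.map ψ (vec a) = al a • vec a
  bar_bar : ∀ a, bar (bar a) = a
  eta_bar : ∀ a, η (bar a) = !(η a)
  form_bar : ∀ a, W.tr X (vec a * vec (bar a)) = kap a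
  form_ne : ∀ a b, b ≠ bar a → W.tr X (vec a * vec b) = 0
  kap_mul : ∀ a, kap a * kap (bar a) = 1
  cj_kap : ∀ a, 𝓡.Cj (kap a) (kap (bar a))
  cj_al : ∀ a, 𝓡.Cj (al a) (al (bar a))
  al_inj : Function.Injective al

/-- The real structure. -/
def VRof (𝓡 : RealField W.K) {A : Type v} (vec : A → W.H X) (bar : A → A) :
    Submodule 𝓡.R (W.H X) :=
  Submodule.span 𝓡.R ({c | ∃ j, c ∈ algClasses W X j} ∪
    {y | ∃ a z z', 𝓡.Cj z z' ∧ y = z • vec a + z' • vec (bar a)})

namespace TProps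

variable {ψ : X ⟶ X} {A : Type v} {al : A → W.K} {vec : A → W.H X} {kap : A → W.K}
  {bar : A → A} {η : A → Bool} (T : TProps W X ψ 𝓡 al vec kap bar η)

include T

lemma bar_ne (a : A) : a ≠ bar a := by
  intro h0
  have h1 := T.eta_bar a
  rw [← h0] at h1
  cases h2 : η a <;> rw [h2] at h1 <;> simp at h1

lemma bar_inj {a b : A} (h : bar a = bar b) : a = b := by
  rw [← T.bar_bar a, h, T.bar_bar]

lemma kap_bar (a : A) : (-1 : W.K) ^ X.dim * kap (bar a) = kap a := by
  have h1 := T.form_bar (bar a)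
  rw [T.bar_bar, W.comm (T.mid (T.trans (bar a))) (T.mid (T.trans a)), map_smul, T.form_bar,
    smul_eq_mul] at h1
  rw [← h1, ← mul_assoc, ← pow_add]
  have : Even (X.dim + X.dim * X.dim) := by
    rw [show X.dim + X.dim * X.dim = X.dim * (X.dim + 1) by ring]
    exact Nat.even_mul_succ_self _
  rw [this.neg_one_pow, one_mul]

lemma one_ne (a : A) : (1 : W.H X) ≠ 0 := by
  intro h0
  have h1 : ∀ y : W.H X, y = 0 := fun y => by rw [← one_mul y, h0, zero_mul]
  have h2 := T.kap_mul a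
  rw [← T.form_bar a, h1 (vec a * vec (bar a)), map_zero, zero_mul] at h2
  exact zero_ne_one h2

end TProps

end Pool.Agent.H914
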