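import Pool.Agent.H90.G.S8.H914R2.PBase2

/-!
# The real structure on the cohomology of a single variety: the good variety
-/

open CategoryTheory AlgebraicGeometry Finset Polynomial

universe u v w

namespace Pool.Agent.H914

open VarClass Obj WeilCohomology

variable {k : Type u} [Field k] {𝒱 : VarClass k} {ops : CycleOps 𝒱}
  {W : WeilCohomology.{u, v} ops} {X Y Z : 𝒱.Obj} {𝓡 : RealField W.K}

section Mul

variable {D : X.Cycles} {Lam : Module.End W.K (W.H X)} {κ : Type} [Fintype κ] {l : κ → ℕ}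
  {x : κ → W.H X} {φ : κ → ℚ} {p : Module.End W.K (W.H X)} (h : Setup W X D Lam κ l x φ p)
  {ψ : X ⟶ X} {A : Type v} {al : A → W.K} {vec : A → W.H X} {kap : A → W.K}
  {bar : A → A} {η : A → Bool} (T : TProps W X ψ 𝓡 al vec kap bar η)

include h T

lemma alg_mul_vec {j : ℕ} {c : W.H X} (hc : c ∈ algClasses W X j) (a : A) {z z' : W.K}
    (hz : 𝓡.Cj z z') : c * (z • vec a + z' • vec (bar a)) ∈ VRof 𝓡 vec bar := by
  by_cases hj : 1 ≤ j
  · rw [mul_add, mul_smul_comm, mul_smul_comm, h.alg_mul_trans T.mid hc hj (T.trans a),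
      h.alg_mul_trans T.mid hc hj (T.trans (bar a)), smul_zero, smul_zero, add_zero]
    exact Submodule.zero_mem _
  · obtain rfl : j = 0 := by omega
    obtain ⟨r, rfl⟩ := h.alg_zero_rat (T.one_ne a) hc
    rw [smul_mul_assoc, one_mul]
    exact VR_smul (RealField.ratCast_mem r) (vec_VR a hz)

lemma vec_mul_vec (a b : A) {z z' y y' : W.K} (hz : 𝓡.Cj z z') (hy : 𝓡.Cj y y') :
    (z • vec a + z' • vec (bar a)) * (y • vec b + y' • vec (bar b)) ∈ VRof 𝓡 vec bar := by
  obtain ⟨t, ht, r, hr, htr, hgr⟩ := h.exists_top (T.one_ne a)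
  have hmem : ∀ c (z z' : W.K), z • vec c + z' • vec (bar c) ∈ W.gr X X.dim := fun c z z' =>
    Submodule.add_mem _ (Submodule.smul_mem _ _ (T.mid (T.trans c)))
      (Submodule.smul_mem _ _ (T.mid (T.trans _)))
  have h1 := W.mul_mem (hmem a z z') (hmem b y y')
  rw [← two_mul] at h1
  rw [hgr _ h1]
  apply VR_smul _ (alg_VR ht)
  apply MulMemClass.mul_mem
  · have e1 : W.tr X ((z • vec a + z' • vec (bar a)) * (y • vec b + y' • vec (bar b))) =
        z * y * W.tr X (vec a * vec b) + z * y' * W.tr X (vec a * vec (bar b)) +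
        (z' * y * W.tr X (vec (bar a) * vec b) +
          z' * y' * W.tr X (vec (bar a) * vec (bar b))) := by
      rw [mul_add, add_mul, add_mul, map_add, map_add, map_add]
      simp only [smul_mul_smul_comm, map_smul, smul_eq_mul]
      ring
    rw [e1]
    have f2 : W.tr X (vec (bar a) * vec a) = kap (bar a) := by
      have := T.form_bar (bar a)
      rwa [T.bar_bar] at this
    by_cases hb : b = a
    · subst hb
      rw [T.form_ne b b (T.bar_ne b), T.form_bar, f2, T.form_ne (bar b) (bar b)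
        (T.bar_ne (bar b)), mul_zero, mul_zero, zero_add, add_zero]
      exact (((hz.mul hy.symm).mul (T.cj_kap b))).add_mem
    · by_cases hb' : b = bar a
      · subst hb'
        rw [T.bar_bar, T.form_bar, T.form_ne a a (T.bar_ne a), f2,
          T.form_ne (bar a) (bar a) (T.bar_ne (bar a)), mul_zero, mul_zero, zero_add, add_zero]
        exact (((hz.mul hy).mul (T.cj_kap a))).add_mem
      · rw [T.form_ne a b hb', T.form_ne a (bar b) (fun h0 => hb (T.bar_inj h0)),
          T.form_ne (bar a) b (fun h0 => hb (by rw [h0, T.bar_bar])),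
          T.form_ne (bar a) (bar b) (fun h0 => hb' (by
            have := congrArg bar h0
            rwa [T.bar_bar, T.bar_bar] at this))]
        simp only [mul_zero, add_zero]
        exact zero_mem _
  · have := RealField.ratCast_mem (𝓡 := 𝓡) (r⁻¹)
    push_cast at this
    exact this

lemma VR_mul : ∀ y ∈ VRof 𝓡 vec bar, ∀ z ∈ VRof 𝓡 vec bar, y * z ∈ VRof 𝓡 vec bar := by
  intro y hy z hz
  induction hy using Submodule.span_induction with
  | mem y hy =>
    induction hz using Submodule.span_induction with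
    | mem z hz =>
      rcases hy with ⟨j, hy⟩ | ⟨a, s, s', hs, rfl⟩
      · rcases hz with ⟨j', hz⟩ | ⟨b, t, t', ht, rfl⟩
        · obtain ⟨y, hy, rfl⟩ := hy
          obtain ⟨z, hz, rfl⟩ := hz
          exact alg_VR ⟨ops.mul y z, ops.mul_mem hy hz, W.cl_mul y z⟩
        · exact alg_mul_vec h T hy b ht
      · rcases hz with ⟨j', hz⟩ | ⟨b, t, t', ht, rfl⟩
        · rw [← W.even_comm (alg_gr hz)]
          exact alg_mul_vec h T hz a hs
        · exact vec_mul_vec h T a b hs ht
    | zero => rw [mul_zero]; exact Submodule.zero_mem _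
    | add z z' _ _ hz hz' => rw [mul_add]; exact Submodule.add_mem _ hz hz'
    | smul r z _ hz =>
      have : y * (r • z) = r • (y * z) := mul_smul_comm _ _ _
      rw [this]; exact Submodule.smul_mem _ _ hz
  | zero => rw [zero_mul]; exact Submodule.zero_mem _
  | add y y' _ _ hy hy' => rw [add_mul]; exact Submodule.add_mem _ hy hy'
  | smul r y _ hy =>
    have : (r • y) * z = r • (y * z) := smul_mul_assoc _ _ _
    rw [this]; exact Submodule.smul_mem _ _ hy

end Mul

section Good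

variable {ι : Type w} {P : ι → 𝒱.Obj} (𝓛 : LabelData W P 𝓡)

/-- The monomials on a member of the family. -/
def baseM (j : ι) (s : Multiset 𝓛.Lab) (d : ℕ) (a : W.H (P j)) : Prop :=
  (s = 0 ∧ a ∈ algClasses W (P j) d) ∨ ∃ x : 𝓛.A j, s = {⟨j, x⟩} ∧ d = 0 ∧ a = 𝓛.vec j x

variable {𝓛} {j : ι} {D : (P j).Cycles} {Lam : Module.End W.K (W.H (P j))} {κ : Type} [Fintype κ]
  {l : κ → ℕ} {x : κ → W.H (P j)} {φ : κ → ℚ} {p : Module.End W.K (W.H (P j))}
  (h : Setup W (P j) D Lam κ l x φ p) {ψ : P j ⟶ P j} [Fintype (𝓛.A j)]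
  {kap : 𝓛.A j → W.K} {bar : 𝓛.A j → 𝓛.A j} {η : 𝓛.A j → Bool}
  (T : TProps W (P j) ψ 𝓡 (𝓛.al j) (𝓛.vec j) kap bar η)

include h T

/-- **A member of the family is good.** -/
theorem base_good (hV : 𝓛.VR j = VRof 𝓡 (𝓛.vec j) bar)
    (hgam : ∀ a, 𝓛.gam j a = (-1 : W.K) ^ ((P j).dim.choose 2) * kap a) {q : ℕ}
    (hF : FrobeniusOnCycles W (P j) ψ q) :
    GoodVar 𝓛 q (P j) D ψ Lam (starX W (P j) D Lam l x φ (𝓛.vec j) bar) (𝓛.VR j)
      (baseM 𝓛 j) where
  hD := h.hD
  sl2 := h.sl2
  S_deg := star_deg h T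
  frame := by rw [hV]; exact base_frame h T
  S_mem := by rw [hV]; exact star_VR h T
  one_mem := by
    rw [hV]
    exact alg_VR ⟨(P j).V.fundCycle, SmVar.fundCycle_mem _, W.cl_fund _⟩
  mul_mem := by rw [hV]; exact VR_mul h T
  span_M := by
    intro y
    have e1 : y = p y + (y - p y) := by abel
    rw [e1]
    apply Submodule.add_mem
    · refine Submodule.span_mono ?_ (h.p_span y)
      rintro c ⟨i, hc⟩
      exact ⟨0, i, Or.inl ⟨rfl, hc⟩⟩
    · refine Submodule.span_mono ?_ (T.span (h.compl_mem y))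
      rintro _ ⟨a, rfl⟩
      exact ⟨{⟨j, a⟩}, 0, Or.inr ⟨a, rfl, rfl, rfl⟩⟩
  M_deg := by
    rintro s d a (⟨rfl, ha⟩ | ⟨y, rfl, rfl, rfl⟩)
    · rw [LabelData.wdeg_zero, add_zero]
      exact alg_gr ha
    · have : 𝓛.wdeg {⟨j, y⟩} = (P j).dim := by simp [LabelData.wdeg]
      rw [this, mul_zero, zero_add]
      exact T.mid (T.trans y)
  M_F := by
    rintro s d a (⟨rfl, ha⟩ | ⟨y, rfl, rfl, rfl⟩)
    · obtain ⟨z, hz, rfl⟩ := ha
      obtain ⟨m, hm, hmz⟩ := hF d z hz
      rw [cl_pull_iter] at hmz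
      refine ⟨m, hm, ?_⟩
      rw [hmz, LabelData.alp_zero, mul_one, ← pow_mul, mul_comm]
    · refine ⟨1, le_rfl, ?_⟩
      have : 𝓛.alp {⟨j, y⟩} = 𝓛.al j y := by simp [LabelData.alp]
      rw [this, pow_one, pow_one, pow_zero, one_mul]
      exact T.F_vec y
  M_S := by
    rintro s d a (⟨rfl, ha⟩ | ⟨y, rfl, rfl, rfl⟩)
    · rw [star_alg h T ha]
      apply Submodule.smul_mem
      by_cases hd : d ≤ (P j).dim
      · exact Submodule.subset_span ⟨_, Or.inl ⟨rfl, h.weyl_mem d hd a ha⟩⟩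
      · have h1 := alg_gr ha
        rw [W.gr_eq_bot _ _ (by omega)] at h1
        rw [(Submodule.mem_bot _).1 h1, map_zero]
        exact Submodule.zero_mem _
    · rw [star_vec h T]
      apply Submodule.smul_mem
      exact Submodule.subset_span ⟨0, Or.inr ⟨y, rfl, rfl, rfl⟩⟩
  M_w := by
    rintro s d a (⟨rfl, ha⟩ | ⟨y, rfl, rfl, rfl⟩)
    · rw [star_alg h T ha, LabelData.wdeg_zero, LabelData.gmp_zero, mul_one, add_zero]
      congr 1
      have e1 : (2 * d).choose 2 = d + 2 * (d * (d - 1)) := by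
        rw [Nat.choose_two_right]
        rcases d with _ | d
        · rfl
        · have : 2 * (d + 1) * (2 * (d + 1) - 1) = 2 * ((d + 1) + 2 * ((d + 1) * d)) := by
            rw [show 2 * (d + 1) - 1 = 2 * d + 1 by omega]; ring
          rw [this, Nat.mul_div_cancel_left _ (by norm_num : 0 < 2)]
          rfl
      rw [e1, pow_add, pow_mul]
      simp
    · have e1 : 𝓛.wdeg {⟨j, y⟩} = (P j).dim := by simp [LabelData.wdeg]
      have e2 : 𝓛.gmp {⟨j, y⟩} = 𝓛.gam j y := by simp [LabelData.gmp]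
      have hmem := T.mid (T.trans y)
      have e3 : LinearMap.mulLeft W.K (W.cl (P j) D) (𝓛.vec j y) = 0 :=
        h.alg_mul_trans T.mid ⟨D, h.hD, rfl⟩ le_rfl (T.trans y)
      have hwt := wt_mid hmem
      have e4 : Lam (𝓛.vec j y) = 0 := by
        apply h.sl2.f_eq_zero hwt
        rw [zero_add, pow_one]
        exact e3
      have e5 := wey_lowest h.sl2 e4 hwt
      rw [Nat.factorial_zero, Nat.cast_one, inv_one, one_smul, pow_zero,
        Module.End.one_apply] at e5
      rw [star_vec h T, e1, e2, e5, mul_zero, zero_add, hgam, ← mul_assoc, ← mul_pow]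
      simp
  M_list := by
    rintro s d a (⟨rfl, ha⟩ | ⟨y, rfl, rfl, rfl⟩)
    · refine ⟨a, [], Submodule.subset_span ⟨?_, Submodule.subset_span ⟨d, ha⟩⟩, alg_gr ha,
        by simp, rfl, by simp⟩
      rw [hV]
      exact alg_VR ha
    · refine ⟨1, [⟨j, 𝟙 _, y⟩], Submodule.subset_span ⟨?_, algR_one⟩, ?_, ?_, rfl, ?_⟩
      · rw [hV]
        exact alg_VR ⟨(P j).V.fundCycle, SmVar.fundCycle_mem _, W.cl_fund _⟩
      · exact W.one_mem _
      · intro c hc
        rw [List.mem_singleton] at hc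
        subst hc
        intro y hy
        change W.map (𝟙 _) y ∈ _
        rw [W.map_id]
        exact hy
      · rw [List.map_singleton, List.prod_singleton, one_mul]
        change _ = W.map (𝟙 _) _
        rw [W.map_id]

end Good

end Pool.Agent.H914
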