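import Pool.Agent.H90.G.S8.H914R2.TPos
import Pool.Agent.H90.G.S8.H914R2.Core5
import Pool.Agent.H90.G.S8.H914R2.KDesc

/-!
# Extension of scalars to an algebraic closure
-/

open Finset Polynomial TensorProduct

namespace Pool.Agent.H914

variable {K : Type*} [Field K] [CharZero K] {V : Type*} [AddCommGroup V] [Module K V]
  [Module.Finite K V]

/-- The endomorphism `G` has simple spectrum: its minimal polynomial is squarefree of degree the
dimension. -/
def HasSimple (G : Module.End K V) : Prop :=
  ∃ P : K[X], Squarefree P ∧ P.natDegree = Module.finrank K V ∧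
    ∀ Q : K[X], aeval G Q = 0 → P ∣ Q

section BC

variable (Kb : Type*) [Field Kb] [Algebra K Kb]

omit [CharZero K] [Module.Finite K V] in
lemma bc_mul (A B : Module.End K V) : (A * B).baseChange Kb = A.baseChange Kb * B.baseChange Kb :=
  map_mul (Module.End.baseChangeHom K Kb V) A B

omit [CharZero K] [Module.Finite K V] in
lemma bc_sub (A B : Module.End K V) : (A - B).baseChange Kb = A.baseChange Kb - B.baseChange Kb :=
  map_sub (Module.End.baseChangeHom K Kb V) A B

omit [CharZero K] [Module.Finite K V] in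
lemma bc_add (A B : Module.End K V) : (A + B).baseChange Kb = A.baseChange Kb + B.baseChange Kb :=
  map_add (Module.End.baseChangeHom K Kb V) A B

omit [CharZero K] [Module.Finite K V] in
lemma bc_one : (1 : Module.End K V).baseChange Kb = 1 :=
  map_one (Module.End.baseChangeHom K Kb V)

omit [CharZero K] [Module.Finite K V] in
lemma bc_pow (A : Module.End K V) (k : ℕ) : (A ^ k).baseChange Kb = A.baseChange Kb ^ k :=
  map_pow (Module.End.baseChangeHom K Kb V) A k

omit [CharZero K] [Module.Finite K V] in
lemma bc_smul (c : K) (A : Module.End K V) : (c • A).baseChange Kb =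
    (algebraMap K Kb c) • A.baseChange Kb := by
  rw [algebraMap_smul]
  exact map_smul (Module.End.baseChangeHom K Kb V) c A

omit [CharZero K] [Module.Finite K V] in
lemma bc_zero : (0 : Module.End K V).baseChange Kb = 0 :=
  map_zero (Module.End.baseChangeHom K Kb V)

omit [CharZero K] [Module.Finite K V] in
lemma bc_inj {A B : Module.End K V} (h : A.baseChange Kb = B.baseChange Kb) : A = B :=
  LinearMap.baseChangeHom_injective K V Kb h

omit [CharZero K] [Module.Finite K V] in
lemma bc_aeval (A : Module.End K V) (p : K[X]) : (aeval A p).baseChange Kb =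
    aeval (A.baseChange Kb) (p.map (algebraMap K Kb)) := by
  rw [Polynomial.aeval_map_algebraMap]
  exact (Polynomial.aeval_algHom_apply (Module.End.baseChangeHom K Kb V) A p).symm

omit [CharZero K] [Module.Finite K V] in
lemma bc_dbl (A T : Module.End K V) (k : ℕ) : (((dbl A) ^ k) T).baseChange Kb =
    ((dbl (A.baseChange Kb)) ^ k) (T.baseChange Kb) := by
  induction k with
  | zero => simp
  | succ k ih =>
    rw [pow_succ', Module.End.mul_apply, pow_succ', Module.End.mul_apply, dbl_apply, dbl_apply,
      bc_add, bc_mul, bc_mul, ih]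

end BC

/-- A basis of eigenvectors over an algebraically closed field. -/
theorem exists_eigenbasis (Kb : Type*) [Field Kb] [Algebra K Kb] [IsAlgClosed Kb]
    {G : Module.End K V} (hG : HasSimple G) : ∃ (S : Finset Kb)
    (b : Module.Basis S Kb (Kb ⊗[K] V)), ∀ i, (G.baseChange Kb) (b i) = (i : Kb) • b i := by
  classical
  obtain ⟨P, hsq, hdeg, hP⟩ := hG
  set χ := LinearMap.charpoly G with hχ
  have hχm : χ.Monic := LinearMap.charpoly_monic G
  have hχd : χ.natDegree = Module.finrank K V := LinearMap.charpoly_natDegree G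
  obtain ⟨R, hR⟩ := hP χ (LinearMap.aeval_self_charpoly G)
  have hP0 : P ≠ 0 := by
    rintro rfl
    rw [zero_mul] at hR
    exact hχm.ne_zero hR
  have hR0 : R ≠ 0 := by
    rintro rfl
    rw [mul_zero] at hR
    exact hχm.ne_zero hR
  have hRd : R.natDegree = 0 := by
    have := Polynomial.natDegree_mul hP0 hR0
    rw [← hR] at this
    omega
  have hRu : IsUnit R := by
    rw [Polynomial.natDegree_eq_zero] at hRd
    obtain ⟨c, rfl⟩ := hRd
    have : c ≠ 0 := by rintro rfl; simp at hR0
    exact (isUnit_iff_ne_zero.2 this).map C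
  have hχsq : Squarefree χ := by
    have : Associated P χ := ⟨hRu.unit, by rw [hR]; rfl⟩
    exact this.squarefree_iff.1 hsq
  have hsep : χ.Separable := PerfectField.separable_iff_squarefree.2 hχsq
  set χ' := LinearMap.charpoly (G.baseChange Kb) with hχ'
  have hχ'eq : χ' = χ.map (algebraMap K Kb) := LinearMap.charpoly_baseChange G Kb
  have hsep' : χ'.Separable := by rw [hχ'eq]; exact hsep.map
  have hχ'd : χ'.natDegree = Module.finrank Kb (Kb ⊗[K] V) := LinearMap.charpoly_natDegree _
  set S : Finset Kb := χ'.roots.toFinset with hS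
  have hcard : S.card = Module.finrank Kb (Kb ⊗[K] V) := by
    rw [hS, Multiset.toFinset_card_of_nodup (Polynomial.nodup_roots hsep'),
      ← hχ'd]
    exact (Polynomial.splits_iff_card_roots.1 (IsAlgClosed.splits χ'))
  have heig : ∀ i : S, ∃ v : Kb ⊗[K] V, Module.End.HasEigenvector (G.baseChange Kb) (i : Kb) v := by
    rintro ⟨i, hi⟩
    have h1 : χ'.IsRoot i := by
      rw [hS, Multiset.mem_toFinset, Polynomial.mem_roots'] at hi
      exact hi.2
    exact ((Module.End.hasEigenvalue_iff_isRoot_charpoly _ _).2 h1).exists_hasEigenvector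
  choose v hv using heig
  have hli : LinearIndependent Kb v :=
    Module.End.eigenvectors_linearIndependent' (G.baseChange Kb) (fun i : S => (i : Kb))
      Subtype.coe_injective v hv
  have hc : Fintype.card S = Module.finrank Kb (Kb ⊗[K] V) := by rw [Fintype.card_coe, hcard]
  by_cases hne : Nonempty S
  · refine ⟨S, basisOfLinearIndependentOfCardEqFinrank hli hc, fun i => ?_⟩
    rw [coe_basisOfLinearIndependentOfCardEqFinrank]
    exact (Module.End.mem_eigenspace_iff.1 (hv i).1)
  · have hS0 : IsEmpty S := not_nonempty_iff.1 hne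
    have : Module.finrank Kb (Kb ⊗[K] V) = 0 := by rw [← hc]; exact Fintype.card_eq_zero
    have hsub : Subsingleton (Kb ⊗[K] V) := Module.finrank_zero_iff.1 this
    exact ⟨S, Module.Basis.empty _, fun i => (hS0.false i).elim⟩

omit [CharZero K] [Module.Finite K V] in
lemma trace_eig {ι : Type*} [Fintype ι] (b : Module.Basis ι K V) {Z : Module.End K V} {z : ι → K}
    (hZ : ∀ i, Z (b i) = z i • b i) : LinearMap.trace K V Z = ∑ i, z i := by
  classical
  rw [LinearMap.trace_eq_matrix_trace K b, Matrix.trace]
  apply Finset.sum_congr rfl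
  intro i _
  rw [Matrix.diag_apply, LinearMap.toMatrix_apply, hZ]
  simp

omit [CharZero K] [Module.Finite K V] in
lemma ev_eq {F : Type*} [Field F] [CharZero F] {W : Type*} [AddCommGroup W] [Module F W]
    (A : Module.End F W) (g : ℚ[X]) : ev A g = aeval A (g.map (algebraMap ℚ F)) := rfl

omit [Module.Finite K V] in
lemma bc_ev (Kb : Type*) [Field Kb] [CharZero Kb] [Algebra K Kb] (A : Module.End K V) (g : ℚ[X]) :
    (ev A g).baseChange Kb = ev (A.baseChange Kb) g := by
  rw [ev_eq, ev_eq, bc_aeval, Polynomial.map_map]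
  congr 2
  exact Subsingleton.elim _ _

/-- **Rationality.** An operator commuting with an operator `G` with simple spectrum is a rational
polynomial in `G` if the super traces are rational. -/
theorem exists_rat_of_traces {G U ε : Module.End K V} (hG : HasSimple G) (hU : U * G = G * U)
    (hε : ε * G = G * ε) (hεε : ε * ε = 1)
    (htr0 : ∀ k : ℕ, ∃ s : ℚ, LinearMap.trace K V (ε * G ^ k) = s)
    (htr1 : ∀ k : ℕ, ∃ s : ℚ, LinearMap.trace K V (ε * (U * G ^ k)) = s) :
    ∃ g : ℚ[X], U = ev G g := by
  classical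
  set Kb := AlgebraicClosure K
  obtain ⟨S, b, hb⟩ := exists_eigenbasis Kb hG
  set G₁ := G.baseChange Kb with hG₁
  set U₁ := U.baseChange Kb with hU₁
  set ε₁ := ε.baseChange Kb with hε₁
  have hinj : Function.Injective (fun i : S => (i : Kb)) := Subtype.coe_injective
  have hUG : U₁ * G₁ = G₁ * U₁ := by rw [hU₁, hG₁, ← bc_mul, ← bc_mul, hU]
  have hεG : ε₁ * G₁ = G₁ * ε₁ := by rw [hε₁, hG₁, ← bc_mul, ← bc_mul, hε]
  have hdiag : ∀ {A : Module.End Kb (Kb ⊗[K] V)}, A * G₁ = G₁ * A → ∀ i, ∃ c : Kb,
      A (b i) = c • b i := by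
    intro A hA i
    apply eig_unique hb hinj (i := i)
    rw [← Module.End.mul_apply, ← hA, Module.End.mul_apply, hb, map_smul]
  choose u hu using hdiag hUG
  choose e he using hdiag hεG
  have he0 : ∀ i, e i ≠ 0 := by
    intro i h0
    have h1 : (ε₁ * ε₁) (b i) = b i := by rw [hε₁, ← bc_mul, hεε, bc_one]; rfl
    rw [Module.End.mul_apply, he, map_smul, he, h0, zero_smul] at h1
    exact b.ne_zero i h1.symm
  -- interpolation
  set p : Kb[X] := Lagrange.interpolate Finset.univ (fun i : S => (i : Kb)) u with hp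
  have hpe : ∀ i : S, p.eval (i : Kb) = u i := fun i =>
    Lagrange.eval_interpolate_at_node u hinj.injOn (Finset.mem_univ i)
  obtain ⟨ret, hret⟩ := exists_retract Kb
  choose α hα using htr0
  choose β hβ using htr1
  have hpow : ∀ (k : ℕ) (i : S), (G₁ ^ k) (b i) = (i : Kb) ^ k • b i := by
    intro k i
    induction k with
    | zero => simp
    | succ k ih => rw [pow_succ', Module.End.mul_apply, ih, map_smul, hb, smul_smul, pow_succ]
  have hα' : ∀ k : ℕ, ∑ i : S, e i * (i : Kb) ^ k = (α k : Kb) := by
    intro k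
    have h1 : LinearMap.trace Kb _ (ε₁ * G₁ ^ k) = (α k : Kb) := by
      rw [hε₁, hG₁, ← bc_pow, ← bc_mul, LinearMap.trace_baseChange, hα, map_ratCast]
    rw [← h1]
    rw [trace_eig b (z := fun i => e i * (i : Kb) ^ k)]
    intro i
    rw [Module.End.mul_apply, hpow, map_smul, he, smul_smul, mul_comm]
  have hβ' : ∀ k : ℕ, ∑ i : S, e i * u i * (i : Kb) ^ k = (β k : Kb) := by
    intro k
    have h1 : LinearMap.trace Kb _ (ε₁ * (U₁ * G₁ ^ k)) = (β k : Kb) := by
      rw [hε₁, hG₁, hU₁, ← bc_pow, ← bc_mul, ← bc_mul, LinearMap.trace_baseChange, hβ,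
        map_ratCast]
    rw [← h1]
    rw [trace_eig b (z := fun i => e i * u i * (i : Kb) ^ k)]
    intro i
    rw [Module.End.mul_apply, Module.End.mul_apply, hpow, map_smul, hu, map_smul, map_smul, he,
      smul_smul, smul_smul]
    congr 1
    ring
  set N := p.natDegree with hN
  set g : ℚ[X] := ∑ s ∈ range (N + 1), C (ret (p.coeff s)) * X ^ s with hg
  have hgeval : ∀ x : Kb, (g.map (algebraMap ℚ Kb)).eval x =
      ∑ s ∈ range (N + 1), ((ret (p.coeff s) : ℚ) : Kb) * x ^ s := by
    intro x
    rw [hg, Polynomial.map_sum, eval_finsetSum]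
    apply Finset.sum_congr rfl
    intro s _
    simp
  have hrel : ∀ k : ℕ, ∑ s ∈ range (N + 1), ret (p.coeff s) * α (s + k) = β k := by
    intro k
    have h1 : ∑ s ∈ range (N + 1), p.coeff s * (α (s + k) : Kb) = (β k : Kb) := by
      rw [← hβ' k]
      have h2 : ∀ i ∈ (Finset.univ : Finset S), e i * u i * (i : Kb) ^ k =
          ∑ s ∈ range (N + 1), p.coeff s * (e i * (i : Kb) ^ (s + k)) := by
        intro i _
        rw [← hpe i, Polynomial.eval_eq_sum_range, mul_assoc, Finset.sum_mul, Finset.mul_sum]
        apply Finset.sum_congr rfl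
        intro s _
        rw [pow_add]; ring
      rw [Finset.sum_congr rfl h2, Finset.sum_comm]
      apply Finset.sum_congr rfl
      intro s _
      rw [← hα', Finset.mul_sum]
    have h3 := congrArg ret h1
    rw [map_sum, ret_ratCast hret] at h3
    rw [← h3]
    apply Finset.sum_congr rfl
    intro s _
    rw [ret_mul]
  have hzero : ∀ k : ℕ, ∑ i : S, e i * (u i - (g.map (algebraMap ℚ Kb)).eval (i : Kb)) *
      (i : Kb) ^ k = 0 := by
    intro k
    have h1 : ∑ i : S, e i * (g.map (algebraMap ℚ Kb)).eval (i : Kb) * (i : Kb) ^ k = (β k : Kb) := by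
      rw [← hrel k]
      push_cast
      have h2 : ∀ i ∈ (Finset.univ : Finset S),
          e i * (g.map (algebraMap ℚ Kb)).eval (i : Kb) * (i : Kb) ^ k =
          ∑ s ∈ range (N + 1), ((ret (p.coeff s) : ℚ) : Kb) * (e i * (i : Kb) ^ (s + k)) := by
        intro i _
        rw [hgeval, mul_assoc, Finset.sum_mul, Finset.mul_sum]
        apply Finset.sum_congr rfl
        intro s _
        rw [pow_add]; ring
      rw [Finset.sum_congr rfl h2, Finset.sum_comm]
      apply Finset.sum_congr rfl
      intro s _
      rw [← hα', Finset.mul_sum]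
    have h4 : ∑ i : S, e i * (u i - (g.map (algebraMap ℚ Kb)).eval (i : Kb)) * (i : Kb) ^ k =
        ∑ i : S, e i * u i * (i : Kb) ^ k -
        ∑ i : S, e i * (g.map (algebraMap ℚ Kb)).eval (i : Kb) * (i : Kb) ^ k := by
      rw [← Finset.sum_sub_distrib]
      apply Finset.sum_congr rfl
      intro i _
      ring
    rw [h4, hβ', h1, sub_self]
  have hzero' : ∀ f : Kb[X], ∑ i : S, e i * (u i - (g.map (algebraMap ℚ Kb)).eval (i : Kb)) *
      f.eval (i : Kb) = 0 := by
    intro f
    induction f using Polynomial.induction_on' with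
    | add f₁ f₂ h1 h2 =>
      simp only [eval_add, mul_add, Finset.sum_add_distrib, h1, h2, add_zero]
    | monomial k c =>
      have : ∀ i ∈ (Finset.univ : Finset S),
          e i * (u i - (g.map (algebraMap ℚ Kb)).eval (i : Kb)) * (monomial k c).eval (i : Kb) =
          c * (e i * (u i - (g.map (algebraMap ℚ Kb)).eval (i : Kb)) * (i : Kb) ^ k) := by
        intro i _
        rw [eval_monomial]; ring
      rw [Finset.sum_congr rfl this, ← Finset.mul_sum, hzero, mul_zero]
  refine ⟨g, bc_inj Kb ?_⟩
  rw [bc_ev]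
  apply b.ext
  intro i
  have h1 : u i = (g.map (algebraMap ℚ Kb)).eval (i : Kb) := by
    have h2 := hzero' (Lagrange.interpolate Finset.univ (fun i : S => (i : Kb)) (Pi.single i 1))
    rw [Finset.sum_eq_single i] at h2
    · rw [Lagrange.eval_interpolate_at_node _ hinj.injOn (Finset.mem_univ i), Pi.single_eq_same,
        mul_one] at h2
      rcases mul_eq_zero.1 h2 with h3 | h3
      · exact absurd h3 (he0 i)
      · exact sub_eq_zero.1 h3
    · intro i' _ hi'
      rw [Lagrange.eval_interpolate_at_node _ hinj.injOn (Finset.mem_univ i'),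
        Pi.single_eq_of_ne hi', mul_zero]
    · intro h'; exact absurd (Finset.mem_univ i) h'
  rw [ev_eq, aeval_eig (hb i), ← h1]
  exact hu i

end Pool.Agent.H914
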