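import Pool.Agent.H90.G.S8.H914R2.Slices
import Pool.Agent.H90.G.S8.H914R2.Graded

/-!
# Blocks of the transcendental part
-/

open Finset TensorProduct Polynomial

namespace Pool.Agent.H914

section Roots

variable {K : Type*} [Field K] [CharZero K] {L : Type*} [Field L] [DecidableEq L] [Algebra K L]
  [IsAlgClosed L]

/-- The roots of a squarefree polynomial. -/
lemma exists_roots {P : K[X]} (hP : Squarefree P) :
    ∃ (S : Finset L) (c : L), (∀ α, α ∈ S ↔ aeval α P = 0) ∧ c ≠ 0 ∧
      P.map (algebraMap K L) = C c * ∏ γ ∈ S, (X - C γ) := by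
  have hP0 : P ≠ 0 := hP.ne_zero
  have hsep : P.Separable := PerfectField.separable_iff_squarefree.2 hP
  have hmap0 : P.map (algebraMap K L) ≠ 0 := by rwa [Ne, Polynomial.map_eq_zero]
  have hnd : (P.map (algebraMap K L)).roots.Nodup := nodup_roots hsep.map
  refine ⟨(P.map (algebraMap K L)).roots.toFinset, (P.map (algebraMap K L)).leadingCoeff, ?_, ?_,
    ?_⟩
  · intro α
    rw [Multiset.mem_toFinset, mem_roots hmap0, IsRoot, eval_map_algebraMap]
  · rwa [Ne, leadingCoeff_eq_zero]
  · conv_lhs => rw [(IsAlgClosed.splits (P.map (algebraMap K L))).eq_prod_roots]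
    congr 1
    rw [Finset.prod_eq_multiset_prod, Multiset.toFinset_val, hnd.dedup]

end Roots

section Base

variable {K : Type*} [Field K] {V : Type*} [AddCommGroup V] [Module K V] {L : Type*} [Field L]
  [Algebra K L]

lemma aeval_base (F : Module.End K V) (P : K[X]) :
    aeval (F.baseChange L) (P.map (algebraMap K L)) = (aeval F P).baseChange L := by
  rw [Polynomial.aeval_map_algebraMap (A := L) (F.baseChange L) P]
  have h4 : aeval (F.baseChange L) P = Module.End.baseChangeHom K L V (aeval F P) := by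
    rw [← Polynomial.aeval_algHom_apply]
    rfl
  exact h4

end Base

section TData

variable {K : Type*} [Field K] [CharZero K] {A : Type*} [Ring A] [Algebra K A]
  [Module.Finite K A] {gr : ℕ → Submodule K A}

/-- The data from which the blocks of the transcendental part are constructed. -/
structure TData (hI : DirectSum.IsInternal gr) (n : ℕ) (tr : A →ₗ[K] K) (F π : Module.End K A)
    (q m : ℕ) (θ θ' : ℕ → Module.End K A) (𝒦 : Submodule K (Module.End K A)) : Prop where
  hbd : ∀ i, 2 * n < i → gr i = ⊥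
  deg : ∀ {i j : ℕ} {a b : A}, a ∈ gr i → b ∈ gr j → i + j ≠ 2 * n → tr (a * b) = 0
  nondeg : ∀ a : A, (∀ b, tr (a * b) = 0) → a = 0
  idem : π * π = π
  comm : F * π = π * F
  compF : ∀ i, F * proj hI i = proj hI i * F
  compP : ∀ i, π * proj hI i = proj hI i * π
  orth : ∀ a b, tr (π a * b) = tr (π a * π b)
  hq : 1 < q
  hm : 1 ≤ m
  sim : ∀ a b, tr ((F ^ m) a * (F ^ m) b) = ((q ^ m : ℕ) : K) ^ n * tr (a * b)
  inv : ∀ i ≤ 2 * n, ∀ z ∈ gr (2 * n - i), θ i (θ' i z) = z
  deg' : ∀ i ≤ 2 * n, ∀ z ∈ gr (2 * n - i), θ' i z ∈ gr i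
  comm' : ∀ i ≤ 2 * n, π * θ' i = θ' i * π
  simt : ∀ i ≤ 2 * n, ∀ z ∈ gr (2 * n - i),
    ((q ^ m : ℕ) : K) ^ n • (F ^ m) (θ' i z) = ((q ^ m : ℕ) : K) ^ i • θ' i ((F ^ m) z)
  ss : ∃ P : K[X], Squarefree P ∧ aeval F P * π = 0
  cent : ∀ Z : Module.End K A, π * Z = Z → Z * π = Z → (∀ i, Z * proj hI i = proj hI i * Z) →
    Z * F ^ m = F ^ m * Z → Z ∈ 𝒦

variable {hI : DirectSum.IsInternal gr} {n : ℕ} {tr : A →ₗ[K] K} {F π : Module.End K A}
  {q m : ℕ} {θ θ' : ℕ → Module.End K A} {𝒦 : Submodule K (Module.End K A)}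
  {L : Type*} [Field L] [Algebra K L]

lemma proj_base_mem (i : ℕ) (x : L ⊗[K] A) :
    (proj hI i).baseChange L x ∈ (gr i).baseChange L := by
  refine tmul_induction (P := fun x => (proj hI i).baseChange L x ∈ (gr i).baseChange L)
    ?_ ?_ ?_ x
  · rw [map_zero]; exact Submodule.zero_mem _
  · intro x y hx hy; rw [map_add]; exact Submodule.add_mem _ hx hy
  · intro l a
    rw [LinearMap.baseChange_tmul]
    exact Submodule.tmul_mem_baseChange_of_mem _ (proj_mem hI i a)

lemma proj_base_same {i : ℕ} {x : L ⊗[K] A} (hx : x ∈ (gr i).baseChange L) :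
    (proj hI i).baseChange L x = x := by
  refine base_induction (P := fun x => (proj hI i).baseChange L x = x) ?_ ?_ ?_ hx
  · rw [map_zero]
  · intro x y hx hy; rw [map_add, hx, hy]
  · intro l a ha
    rw [LinearMap.baseChange_tmul, proj_same hI ha]

/-- Equalities of operators on a graded piece extend. -/
lemma ext_base {p : Submodule K A} {Z Z' : Module.End K A} {c c' : K}
    (h : ∀ z ∈ p, c • Z z = c' • Z' z) {x : L ⊗[K] A} (hx : x ∈ p.baseChange L) :
    algebraMap K L c • Z.baseChange L x = algebraMap K L c' • Z'.baseChange L x := by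
  refine base_induction (P := fun x => algebraMap K L c • Z.baseChange L x =
    algebraMap K L c' • Z'.baseChange L x) ?_ ?_ ?_ hx
  · rw [map_zero, map_zero, smul_zero, smul_zero]
  · intro x y hx hy
    rw [map_add, map_add, smul_add, smul_add, hx, hy]
  · intro l a ha
    rw [LinearMap.baseChange_tmul, LinearMap.baseChange_tmul, algebraMap_smul, algebraMap_smul,
      ← tmul_smul, ← tmul_smul, h a ha]

lemma mem_base {p p' : Submodule K A} {Z : Module.End K A} (h : ∀ z ∈ p, Z z ∈ p')
    {x : L ⊗[K] A} (hx : x ∈ p.baseChange L) : Z.baseChange L x ∈ p'.baseChange L := by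
  refine base_induction (P := fun x => Z.baseChange L x ∈ p'.baseChange L) ?_ ?_ ?_ hx
  · rw [map_zero]; exact Submodule.zero_mem _
  · intro x y hx hy; rw [map_add]; exact Submodule.add_mem _ hx hy
  · intro l a ha
    rw [LinearMap.baseChange_tmul]
    exact Submodule.tmul_mem_baseChange_of_mem _ (h a ha)

/-- Bilinear identities extend. -/
lemma form_base {Z₁ Z₂ Z₃ Z₄ : Module.End K A} {c : K}
    (h : ∀ a b, tr (Z₁ a * Z₂ b) = c * tr (Z₃ a * Z₄ b)) (x y : L ⊗[K] A) :
    formBase L tr (Z₁.baseChange L x * Z₂.baseChange L y) =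
      algebraMap K L c * formBase L tr (Z₃.baseChange L x * Z₄.baseChange L y) := by
  refine tmul_induction (P := fun x => formBase L tr (Z₁.baseChange L x * Z₂.baseChange L y) =
      algebraMap K L c * formBase L tr (Z₃.baseChange L x * Z₄.baseChange L y)) ?_ ?_ ?_ x
  · rw [map_zero, map_zero, zero_mul, zero_mul, map_zero, mul_zero]
  · intro x x' hx hx'
    rw [map_add, map_add, add_mul, add_mul, map_add, map_add, hx, hx', mul_add]
  · intro l a
    refine tmul_induction (P := fun y => formBase L tr (Z₁.baseChange L (l ⊗ₜ[K] a) *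
      Z₂.baseChange L y) = algebraMap K L c * formBase L tr (Z₃.baseChange L (l ⊗ₜ[K] a) *
      Z₄.baseChange L y)) ?_ ?_ ?_ y
    · rw [map_zero, map_zero, mul_zero, mul_zero, map_zero, mul_zero]
    · intro x x' hx hx'
      rw [map_add, map_add, mul_add, mul_add, map_add, map_add, hx, hx', mul_add]
    · intro l' b
      rw [LinearMap.baseChange_tmul, LinearMap.baseChange_tmul, LinearMap.baseChange_tmul,
        LinearMap.baseChange_tmul, Algebra.TensorProduct.tmul_mul_tmul,
        Algebra.TensorProduct.tmul_mul_tmul, formBase_tmul, formBase_tmul, h, map_mul]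
      ring

lemma bcMul (Z Z' : Module.End K A) :
    (Z * Z').baseChange L = Z.baseChange L * Z'.baseChange L := LinearMap.baseChange_mul _ _

/-- The degree on the extension. -/
lemma deg_base (h : ∀ {i j : ℕ} {a b : A}, a ∈ gr i → b ∈ gr j → i + j ≠ 2 * n →
    tr (a * b) = 0) {i j : ℕ} {x y : L ⊗[K] A} (hx : x ∈ (gr i).baseChange L)
    (hy : y ∈ (gr j).baseChange L) (hij : i + j ≠ 2 * n) : formBase L tr (x * y) = 0 := by
  refine base_induction (P := fun x => formBase L tr (x * y) = 0) ?_ ?_ ?_ hx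
  · rw [zero_mul, map_zero]
  · intro x y hx hy; rw [add_mul, map_add, hx, hy, add_zero]
  · intro l a ha
    refine base_induction (P := fun y => formBase L tr ((l ⊗ₜ[K] a : L ⊗[K] A) * y) = 0)
      ?_ ?_ ?_ hy
    · rw [mul_zero, map_zero]
    · intro x y hx hy; rw [mul_add, map_add, hx, hy, add_zero]
    · intro l' b hb
      rw [Algebra.TensorProduct.tmul_mul_tmul, formBase_tmul, h ha hb hij, map_zero, mul_zero]

end TData

end Pool.Agent.H914
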