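import Pool.Agent.H90.G.S8.H914R2.PPair

/-!
# Normalized eigenvectors
-/

open CategoryTheory AlgebraicGeometry Finset Polynomial

universe u v w

namespace Pool.Agent.H914

open VarClass Obj WeilCohomology

variable {k : Type u} [Field k] {𝒱 : VarClass k} {ops : CycleOps 𝒱}
  {W : WeilCohomology.{u, v} ops} {X Y Z : 𝒱.Obj} {𝓡 : RealField W.K}

variable {D : X.Cycles} {Lam : Module.End W.K (W.H X)} {κ : Type} [Fintype κ] {l : κ → ℕ}
  {x : κ → W.H X} {φ : κ → ℚ} {p : Module.End W.K (W.H X)} (h : Setup W X D Lam κ l x φ p)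

include h

/-- The eigenvectors in the transcendental cohomology can be normalized. -/
theorem exists_tProps {ψ : X ⟶ X} {q : ℕ} (hmid : transcendental W X ≤ W.gr X X.dim)
    (hF : FrobeniusOnCycles W X ψ q) (hq : q ≠ 0) {A : Type v} {al : A → W.K}
    (hal : Function.Injective al) {v₀ : A → W.H X} (hv₀ : ∀ a, v₀ a ∈ transcendental W X)
    (hspan : transcendental W X ≤ Submodule.span W.K (Set.range v₀))
    (hF₀ : ∀ a, W.map ψ (v₀ a) = al a • v₀ a) (hne : ∀ a, v₀ a ≠ 0)
    (hN2 : ∀ a b, ∀ m ≥ 1, (al a * al b) ^ m = ((q : W.K) ^ X.dim) ^ m →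
      al a * al b = (q : W.K) ^ X.dim)
    (hcj : ∀ a b, al a * al b = (q : W.K) ^ X.dim → 𝓡.Cj (al a) (al b)) {η : A → Bool}
    (hη : ∀ a b, al a * al b = (q : W.K) ^ X.dim → η b = !(η a)) :
    ∃ vec kap bar, TProps W X ψ 𝓡 al vec kap bar η ∧
      ∀ a, al a * al (bar a) = (q : W.K) ^ X.dim := by
  classical
  by_cases hA : Nonempty A
  swap
  · refine ⟨v₀, fun _ => 1, id, ⟨hmid, hv₀, hspan, hF₀, ?_, ?_, ?_, ?_, ?_, ?_, ?_, hal⟩, ?_⟩ <;>
    intro a <;> exact absurd ⟨a⟩ hA
  have h1 : (1 : W.H X) ≠ 0 := by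
    obtain ⟨a⟩ := hA
    intro h0
    exact hne a (by rw [← one_mul (v₀ a), h0, zero_mul])
  have hqK : (q : W.K) ≠ 0 := by exact_mod_cast hq
  have hqn : (q : W.K) ^ X.dim ≠ 0 := pow_ne_zero _ hqK
  -- the degree of the endomorphism
  obtain ⟨t, ht, ht0⟩ := Pool.Agent.H914.exists_top (W := W) h.hD h.hHL h1
  obtain ⟨z, hz, rfl⟩ := ht
  obtain ⟨m, hm, hmz⟩ := hF X.dim z hz
  rw [cl_pull_iter, ← map_iter] at hmz
  have htr := tr_map_of_top (φ := iter ψ m) (W.cl_mem hz) ht0 hmz
  have hiter : ∀ a, W.map (iter ψ m) (v₀ a) = al a ^ m • v₀ a := by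
    intro a
    rw [map_iter]
    have e := aeval_eig (G := (W.map ψ).toLinearMap) (hF₀ a) (Polynomial.X ^ m)
    rwa [map_pow, aeval_X, eval_pow, eval_X] at e
  -- pairs which are not orthogonal
  have hpair : ∀ a b, W.tr X (v₀ a * v₀ b) ≠ 0 → al a * al b = (q : W.K) ^ X.dim := by
    intro a b hab
    apply hN2 a b m hm
    have e1 := htr (v₀ a * v₀ b)
    rw [map_mul, hiter, hiter, smul_mul_smul_comm, map_smul, smul_eq_mul] at e1
    have e2 := mul_right_cancel₀ hab e1
    rw [mul_pow, e2, ← pow_mul, mul_comm]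
  have hex : ∀ a, ∃ b, W.tr X (v₀ a * v₀ b) ≠ 0 := by
    intro a
    by_contra h0
    push Not at h0
    apply hne a
    apply W.nondeg
    intro y
    have e1 : y = p y + (y - p y) := by abel
    rw [e1, mul_add, map_add]
    have e2 : ∀ c ∈ Submodule.span W.K {c | ∃ j, c ∈ algClasses W X j},
        W.tr X (v₀ a * c) = 0 := by
      intro c hc
      induction hc using Submodule.span_induction with
      | mem c hc =>
        obtain ⟨j, hc⟩ := hc
        exact mem_trans.1 (hv₀ a) _ _ hc
      | zero => rw [mul_zero, map_zero]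
      | add y z _ _ hy hz => rw [mul_add, map_add, hy, hz, add_zero]
      | smul r y _ hy => rw [mul_smul_comm, map_smul, hy, smul_zero]
    have e3 : ∀ c ∈ Submodule.span W.K (Set.range v₀), W.tr X (v₀ a * c) = 0 := by
      intro c hc
      induction hc using Submodule.span_induction with
      | mem c hc =>
        obtain ⟨b, rfl⟩ := hc
        exact h0 b
      | zero => rw [mul_zero, map_zero]
      | add y z _ _ hy hz => rw [mul_add, map_add, hy, hz, add_zero]
      | smul r y _ hy => rw [mul_smul_comm, map_smul, hy, smul_zero]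
    rw [e2 _ (h.p_span y), e3 _ (hspan (h.compl_mem y)), add_zero]
  choose bar hbar using hex
  have halbar : ∀ a, al a * al (bar a) = (q : W.K) ^ X.dim := fun a => hpair a _ (hbar a)
  have hal0 : ∀ a, al a ≠ 0 := by
    intro a h0
    have := halbar a
    rw [h0, zero_mul] at this
    exact hqn this.symm
  have huniq : ∀ a b, al a * al b = (q : W.K) ^ X.dim → b = bar a := by
    intro a b hab
    apply hal
    rw [← halbar a] at hab
    exact mul_left_cancel₀ (hal0 a) hab
  have hbb : ∀ a, bar (bar a) = a := by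
    intro a
    symm
    apply huniq
    rw [mul_comm]
    exact halbar a
  have hηbar : ∀ a, η (bar a) = !(η a) := fun a => hη a _ (halbar a)
  -- the pairing
  set β : A → W.K := fun a => W.tr X (v₀ a * v₀ (bar a)) with hβ
  have hβ0 : ∀ a, β a ≠ 0 := hbar
  have hsgn : (-1 : W.K) ^ (X.dim * X.dim) = (-1) ^ X.dim := by
    rcases Nat.even_or_odd X.dim with h | h
    · rw [h.neg_one_pow, (h.mul_right _).neg_one_pow]
    · rw [h.neg_one_pow, (h.mul h).neg_one_pow]
  have hβbar : ∀ a, β a = (-1 : W.K) ^ X.dim * β (bar a) := by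
    intro a
    rw [hβ]
    beta_reduce
    rw [W.comm (hmid (hv₀ a)) (hmid (hv₀ (bar a))), map_smul, smul_eq_mul, hsgn, hbb]
  -- the signs
  set kap : A → W.K := fun a => if Even X.dim then 1 else if η a then 𝓡.i else -𝓡.i with hkap
  have hkap0 : ∀ a, kap a * kap (bar a) = 1 := by
    intro a
    rw [hkap]
    beta_reduce
    rw [hηbar]
    split_ifs with h1 h2 h3 h3
    · rw [one_mul]
    · simp [h2] at h3
    · rw [mul_neg, 𝓡.i_sq, neg_neg]
    · rw [neg_mul, 𝓡.i_sq, neg_neg]
    · simp at h2 h3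
      rw [h3] at h2
      exact absurd h2 (by simp)
  have hkapne : ∀ a, kap a ≠ 0 := fun a h0 => by
    have := hkap0 a
    rw [h0, zero_mul] at this
    exact zero_ne_one this
  have hkapbar : ∀ a, (-1 : W.K) ^ X.dim * kap (bar a) = kap a := by
    intro a
    rw [hkap]
    beta_reduce
    rw [hηbar]
    by_cases he : Even X.dim
    · rw [if_pos he, if_pos he, he.neg_one_pow, one_mul]
    · rw [if_neg he, if_neg he, (Nat.not_even_iff_odd.1 he).neg_one_pow]
      cases η a <;> simp
  have hkapcj : ∀ a, 𝓡.Cj (kap a) (kap (bar a)) := by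
    intro a
    rw [hkap]
    beta_reduce
    rw [hηbar]
    by_cases he : Even X.dim
    · rw [if_pos he, if_pos he]
      exact RealField.Cj.one
    · rw [if_neg he, if_neg he]
      cases η a
      · simp only [Bool.not_false, if_true, Bool.false_eq_true, if_false]
        exact RealField.Cj.imag.symm
      · simp only [Bool.not_true, if_true, Bool.false_eq_true, if_false]
        exact RealField.Cj.imag
  -- the normalized eigenvectors
  set lam : A → W.K := fun a => if η a then kap a / β a else 1 with hlam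
  have hlam0 : ∀ a, lam a ≠ 0 := by
    intro a
    rw [hlam]
    beta_reduce
    split_ifs
    · exact div_ne_zero (hkapne a) (hβ0 a)
    · exact one_ne_zero
  have hform : ∀ a, lam a * lam (bar a) * β a = kap a := by
    intro a
    rw [hlam]
    beta_reduce
    rw [hηbar]
    cases hηa : η a
    · simp only [Bool.not_false, if_true, Bool.false_eq_true, if_false, one_mul]
      rw [hβbar a, ← hkapbar a]
      have := hβ0 (bar a)
      field_simp
    · simp only [Bool.not_true, if_true, Bool.false_eq_true, if_false, mul_one]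
      have := hβ0 a
      field_simp
  refine ⟨fun a => lam a • v₀ a, kap, bar, ⟨hmid, fun a => Submodule.smul_mem _ _ (hv₀ a), ?_,
    ?_, hbb, hηbar, ?_, ?_, hkap0, hkapcj, fun a => hcj a _ (halbar a), hal⟩, halbar⟩
  · refine hspan.trans ?_
    rw [Submodule.span_le]
    rintro _ ⟨a, rfl⟩
    have e1 : v₀ a = (lam a)⁻¹ • (lam a • v₀ a) := by
      rw [smul_smul, inv_mul_cancel₀ (hlam0 a), one_smul]
    rw [e1]
    exact Submodule.smul_mem _ _ (Submodule.subset_span ⟨a, rfl⟩)
  · intro a
    rw [map_smul, hF₀, smul_comm]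
  · intro a
    rw [smul_mul_smul_comm, map_smul, smul_eq_mul]
    exact hform a
  · intro a b hab
    rw [smul_mul_smul_comm, map_smul, smul_eq_mul]
    have : W.tr X (v₀ a * v₀ b) = 0 := by
      by_contra h0
      exact hab (huniq a b (hpair a b h0))
    rw [this, mul_zero]

end Pool.Agent.H914
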