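import Pool.Agent.H90.G.S8.H914R2.PProd
import Pool.Agent.H90.G.S8.H914R2.PConj

/-!
# Real structures on the cohomology of products
-/

open CategoryTheory AlgebraicGeometry Finset

universe u v w

namespace Pool.Agent.H914

open VarClass Obj WeilCohomology

variable {k : Type u} [Field k] {𝒱 : VarClass k} {ops : CycleOps 𝒱}
  {W : WeilCohomology.{u, v} ops} {X Y Z : 𝒱.Obj}

/-- The combinations of algebraic classes with real coefficients. -/
def algR (𝓡 : RealField W.K) (X : 𝒱.Obj) : Submodule 𝓡.R (W.H X) :=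
  Submodule.span 𝓡.R {c | ∃ j, c ∈ algClasses W X j}

variable {𝓡 : RealField W.K}

lemma algR_mul {a b : W.H X} (ha : a ∈ algR 𝓡 X) (hb : b ∈ algR 𝓡 X) : a * b ∈ algR 𝓡 X := by
  induction ha using Submodule.span_induction with
  | mem a ha =>
    induction hb using Submodule.span_induction with
    | mem b hb =>
      obtain ⟨j, z, hz, rfl⟩ := ha
      obtain ⟨j', z', hz', rfl⟩ := hb
      exact Submodule.subset_span ⟨j + j', ops.mul z z', ops.mul_mem hz hz', W.cl_mul z z'⟩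
    | zero => rw [mul_zero]; exact Submodule.zero_mem _
    | add x y _ _ hx hy => rw [mul_add]; exact Submodule.add_mem _ hx hy
    | smul r x _ hx =>
      have : a * (r • x) = r • (a * x) := mul_smul_comm _ _ _
      rw [this]; exact Submodule.smul_mem _ _ hx
  | zero => rw [zero_mul]; exact Submodule.zero_mem _
  | add x y _ _ hx hy => rw [add_mul]; exact Submodule.add_mem _ hx hy
  | smul r x _ hx =>
    have : (r • x) * b = r • (x * b) := smul_mul_assoc _ _ _
    rw [this]; exact Submodule.smul_mem _ _ hx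

lemma map_Rsmul (g : X ⟶ Y) (r : 𝓡.R) (a : W.H Y) : W.map g (r • a) = r • W.map g a :=
  map_smul (W.map g) (r : W.K) a

lemma algR_map (g : X ⟶ Y) {a : W.H Y} (ha : a ∈ algR 𝓡 Y) : W.map g a ∈ algR 𝓡 X := by
  induction ha using Submodule.span_induction with
  | mem a ha =>
    obtain ⟨j, z, hz, rfl⟩ := ha
    exact Submodule.subset_span ⟨j, ops.pull g z, ops.pull_mem g hz, W.cl_pull g z⟩
  | zero => rw [map_zero]; exact Submodule.zero_mem _
  | add x y _ _ hx hy => rw [map_add]; exact Submodule.add_mem _ hx hy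
  | smul r x _ hx => rw [map_Rsmul]; exact Submodule.smul_mem _ _ hx

lemma algR_one : (1 : W.H X) ∈ algR 𝓡 X :=
  Submodule.subset_span ⟨0, X.V.fundCycle, SmVar.fundCycle_mem _, W.cl_fund X⟩

lemma algR_tr {a : W.H X} (ha : a ∈ algR 𝓡 X) : W.tr X a ∈ 𝓡.R := by
  induction ha using Submodule.span_induction with
  | mem a ha =>
    obtain ⟨j, z, hz, rfl⟩ := ha
    by_cases hj : j = X.dim
    · subst hj
      rw [W.tr_cl hz]
      exact RealField.ratCast_mem _
    · rw [W.tr_eq_zero (W.cl_mem hz) (by omega)]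
      exact zero_mem _
  | zero => rw [map_zero]; exact zero_mem _
  | add x y _ _ hx hy => rw [map_add]; exact add_mem hx hy
  | smul r x _ hx =>
    have : W.tr X (r • x) = (r : W.K) * W.tr X x := map_smul (W.tr X) (r : W.K) x
    rw [this]
    exact mul_mem r.2 hx

lemma sign_smul_mem {V : Submodule 𝓡.R (W.H X)} (i : ℕ) {x : W.H X} (hx : x ∈ V) :
    (-1 : W.K) ^ i • x ∈ V := by
  rcases Nat.even_or_odd i with h | h
  · rw [h.neg_one_pow, one_smul]; exact hx
  · rw [h.neg_one_pow, neg_smul, one_smul]; exact V.neg_mem hx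

/-- The data of the labels for a family of varieties: eigenvalues, eigenvectors, signs and real
structures. -/
structure LabelData (W : WeilCohomology.{u, v} ops) {ι : Type w} (P : ι → 𝒱.Obj)
    (𝓡 : RealField W.K) where
  /-- the labels -/
  A : ι → Type v
  /-- the eigenvalues -/
  al : ∀ j, A j → W.K
  /-- the eigenvectors -/
  vec : ∀ j, A j → W.H (P j)
  /-- the signs -/
  gam : ∀ j, A j → W.K
  /-- the real structures -/
  VR : ∀ j, Submodule 𝓡.R (W.H (P j))

variable {ι : Type w} {P : ι → 𝒱.Obj}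

/-- The labels. -/
abbrev LabelData.Lab (𝓛 : LabelData W P 𝓡) := Σ j, 𝓛.A j

/-- The degree of a multiset of labels. -/
def LabelData.wdeg (𝓛 : LabelData W P 𝓡) (s : Multiset 𝓛.Lab) : ℕ :=
  (s.map (fun x => (P x.1).dim)).sum

/-- The product of the eigenvalues. -/
noncomputable def LabelData.alp (𝓛 : LabelData W P 𝓡) (s : Multiset 𝓛.Lab) : W.K :=
  (s.map (fun x => 𝓛.al x.1 x.2)).prod

/-- The product of the signs. -/
noncomputable def LabelData.gmp (𝓛 : LabelData W P 𝓡) (s : Multiset 𝓛.Lab) : W.K :=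
  (s.map (fun x => 𝓛.gam x.1 x.2)).prod

section

variable (𝓛 : LabelData W P 𝓡)

lemma LabelData.wdeg_add (s t : Multiset 𝓛.Lab) : 𝓛.wdeg (s + t) = 𝓛.wdeg s + 𝓛.wdeg t := by
  simp [LabelData.wdeg]
lemma LabelData.alp_add (s t : Multiset 𝓛.Lab) : 𝓛.alp (s + t) = 𝓛.alp s * 𝓛.alp t := by
  simp [LabelData.alp]
lemma LabelData.gmp_add (s t : Multiset 𝓛.Lab) : 𝓛.gmp (s + t) = 𝓛.gmp s * 𝓛.gmp t := by
  simp [LabelData.gmp]
lemma LabelData.wdeg_zero : 𝓛.wdeg 0 = 0 := by simp [LabelData.wdeg]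
lemma LabelData.alp_zero : 𝓛.alp 0 = 1 := by simp [LabelData.alp]
lemma LabelData.gmp_zero : 𝓛.gmp 0 = 1 := by simp [LabelData.gmp]

/-- A coordinate with a label. -/
structure Coord (X : 𝒱.Obj) where
  /-- the index -/
  j : ι
  /-- the coordinate projection -/
  g : X ⟶ P j
  /-- the label -/
  a : 𝓛.A j

variable {𝓛}

/-- The class given by a coordinate. -/
def Coord.ev (c : Coord 𝓛 X) : W.H X := W.map c.g (𝓛.vec c.j c.a)

/-- The label of a coordinate. -/
def Coord.lab (c : Coord 𝓛 X) : 𝓛.Lab := ⟨c.j, c.a⟩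

/-- The coordinate is compatible with the real structures. -/
def Coord.Good (c : Coord 𝓛 X) (V : Submodule 𝓡.R (W.H X)) : Prop :=
  ∀ y ∈ 𝓛.VR c.j, W.map c.g y ∈ V

/-- The composite of a coordinate with a morphism. -/
def Coord.comp (h : Y ⟶ X) (c : Coord 𝓛 X) : Coord 𝓛 Y := ⟨c.j, h ≫ c.g, c.a⟩

lemma Coord.comp_ev (h : Y ⟶ X) (c : Coord 𝓛 X) : (c.comp h).ev = W.map h c.ev := by
  rw [Coord.ev, Coord.ev, ← W.map_comp]
  rfl

lemma Coord.comp_lab (h : Y ⟶ X) (c : Coord 𝓛 X) : (c.comp h).lab = c.lab := rfl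

end

/-- A variety together with a real structure on the cohomology for which the Hodge-Riemann
relations hold, and a generating set of monomials. -/
structure GoodVar (𝓛 : LabelData W P 𝓡) (q : ℕ) (X : 𝒱.Obj) (D : X.Cycles) (φ : X ⟶ X)
    (f S : Module.End W.K (W.H X)) (V : Submodule 𝓡.R (W.H X))
    (M : Multiset 𝓛.Lab → ℕ → W.H X → Prop) : Prop where
  hD : X.IsCyc 1 D
  sl2 : Sl2 (wt (W.isInternal X) X.dim) (LinearMap.mulLeft W.K (W.cl X D)) f
  S_deg : ∀ i j, i + j = 2 * X.dim → ∀ a ∈ W.gr X i, S a ∈ W.gr X j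
  frame : ∃ (m : ℕ) (b : Fin m → W.H X) (d : Fin m → ℚ),
    IsFrame 𝓡 ((bil W X).compl₂ S) V b d ∧ ∀ k, ∃ i ≤ 2 * X.dim, b k ∈ W.gr X i
  S_mem : ∀ a ∈ V, S a ∈ V
  one_mem : (1 : W.H X) ∈ V
  mul_mem : ∀ a ∈ V, ∀ b ∈ V, a * b ∈ V
  span_M : ∀ a, a ∈ Submodule.span W.K {a | ∃ s d, M s d a}
  M_deg : ∀ {s d a}, M s d a → a ∈ W.gr X (2 * d + 𝓛.wdeg s)
  M_F : ∀ {s d a}, M s d a → ∃ m ≥ 1, ((W.map φ).toLinearMap ^ m) a =
    (((q : W.K) ^ d * 𝓛.alp s) ^ m) • a
  M_S : ∀ {s d a}, M s d a → S a ∈ Submodule.span W.K {a | ∃ d, M s d a}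
  M_w : ∀ {s d a}, M s d a → S a = ((-1) ^ ((2 * d + 𝓛.wdeg s).choose 2) * 𝓛.gmp s) •
    wey (LinearMap.mulLeft W.K (W.cl X D)) f a
  M_list : ∀ {s d a}, M s d a → ∃ (u : W.H X) (l : List (Coord 𝓛 X)),
    u ∈ Submodule.span W.K ((V ⊓ algR 𝓡 X : Submodule 𝓡.R (W.H X)) : Set (W.H X)) ∧
    u ∈ W.gr X (2 * d) ∧ (∀ c ∈ l, c.Good V) ∧ s = ((l.map Coord.lab : List 𝓛.Lab) :
      Multiset 𝓛.Lab) ∧ a = u * (l.map Coord.ev).prod

/-- The real structure on a product. -/
noncomputable def prodV (V : Submodule 𝓡.R (W.H X)) (V' : Submodule 𝓡.R (W.H Y)) :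
    Submodule 𝓡.R (W.H (X.prod Y)) :=
  Submodule.span 𝓡.R {c | ∃ a ∈ V, ∃ b ∈ V', c = W.map (fst X Y) a * W.map (snd X Y) b}

/-- The monomials on a product. -/
def prodM {𝓛 : LabelData W P 𝓡} (M : Multiset 𝓛.Lab → ℕ → W.H X → Prop)
    (M' : Multiset 𝓛.Lab → ℕ → W.H Y → Prop) (s : Multiset 𝓛.Lab) (d : ℕ)
    (c : W.H (X.prod Y)) : Prop :=
  ∃ s₁ s₂ d₁ d₂ a b, M s₁ d₁ a ∧ M' s₂ d₂ b ∧ s = s₁ + s₂ ∧ d = d₁ + d₂ ∧
    c = W.map (fst X Y) a * W.map (snd X Y) b

lemma prodV_mem {V : Submodule 𝓡.R (W.H X)} {V' : Submodule 𝓡.R (W.H Y)} {a : W.H X}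
    (ha : a ∈ V) {b : W.H Y} (hb : b ∈ V') :
    W.map (fst X Y) a * W.map (snd X Y) b ∈ prodV V V' :=
  Submodule.subset_span ⟨a, ha, b, hb, rfl⟩

/-- Induction for the real structure on a product. -/
lemma prodV_induction {V : Submodule 𝓡.R (W.H X)} {V' : Submodule 𝓡.R (W.H Y)}
    {s : Set (W.H X)} {s' : Set (W.H Y)} (hV : V ≤ Submodule.span 𝓡.R s)
    (hV' : V' ≤ Submodule.span 𝓡.R s') {T : Submodule 𝓡.R (W.H (X.prod Y))}
    (h : ∀ a ∈ s, ∀ b ∈ s', W.map (fst X Y) a * W.map (snd X Y) b ∈ T) : prodV V V' ≤ T := by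
  rw [prodV, Submodule.span_le]
  rintro _ ⟨a, ha, b, hb, rfl⟩
  have ha' := hV ha
  have hb' := hV' hb
  clear ha hb
  change W.map (fst X Y) a * W.map (snd X Y) b ∈ T
  induction ha' using Submodule.span_induction with
  | mem a ha =>
    induction hb' using Submodule.span_induction with
    | mem b hb => exact h a ha b hb
    | zero => rw [map_zero, mul_zero]; exact T.zero_mem
    | add x y _ _ hx hy => rw [map_add, mul_add]; exact T.add_mem hx hy
    | smul r x _ hx =>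
      have : W.map (fst X Y) a * W.map (snd X Y) (r • x) =
          r • (W.map (fst X Y) a * W.map (snd X Y) x) := by
        rw [map_Rsmul]; exact mul_smul_comm _ _ _
      rw [this]; exact T.smul_mem _ hx
  | zero => rw [map_zero, zero_mul]; exact T.zero_mem
  | add x y _ _ hx hy => rw [map_add, add_mul]; exact T.add_mem hx hy
  | smul r x _ hx =>
    have : W.map (fst X Y) (r • x) * W.map (snd X Y) b =
        r • (W.map (fst X Y) x * W.map (snd X Y) b) := by
      rw [map_Rsmul]; exact smul_mul_assoc _ _ _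
    rw [this]; exact T.smul_mem _ hx

end Pool.Agent.H914
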