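import Pool.Agent.H90.G.S8.H914R2.TBase

/-!
# Positivity on the part with simple spectrum, over any coefficient field
-/

open Finset Polynomial TensorProduct

namespace Pool.Agent.H914

variable {K : Type*} [Field K] [CharZero K] {V : Type*} [AddCommGroup V] [Module K V]
  [Module.Finite K V]

lemma Sl2.baseChange {h e f : Module.End K V} (t : Sl2 h e f) (Kb : Type*) [Field Kb]
    [Algebra K Kb] : Sl2 (h.baseChange Kb : Module.End Kb (Kb ⊗[K] V)) (e.baseChange Kb)
      (f.baseChange Kb) where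
  ef := by rw [← bc_mul, ← bc_mul, ← bc_sub, t.ef]
  he := by
    rw [← bc_mul, ← bc_mul, ← bc_sub, t.he, two_mul, bc_add, two_mul]
  hf := by
    have h1 : -(2 * f) = 0 - (f + f) := by rw [two_mul, zero_sub]
    rw [← bc_mul, ← bc_mul, ← bc_sub, t.hf, h1, bc_sub, bc_add, bc_zero, two_mul]
    exact zero_sub (LinearMap.baseChange Kb f + LinearMap.baseChange Kb f :
      Module.End Kb (Kb ⊗[K] V))

theorem tmain {gr : ℕ → Submodule K V} (hgr : DirectSum.IsInternal gr) {n : ℕ}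
    (hbd : ∀ i, 2 * n + 1 ≤ i → gr i = ⊥) {L Lam G G' T T' : Module.End K V}
    (t : Sl2 (wt hgr n) L Lam) {q : ℕ} (hq : 0 < q) (hGgr : IsHom gr 0 G)
    (hGL : G * L = (q : K) • (L * G)) (hLG : Lam * G = (q : K) • (G * Lam))
    (hGs : HasSimple G)
    (hRH : ∀ i, ∃ P : ℚ[X], P ≠ 0 ∧ (∀ a ∈ gr i, ev G P a = 0) ∧
      ∀ z : ℂ, aeval z P = 0 → ‖z‖ ^ 2 = (q : ℝ) ^ i)
    {r : ℕ} (hT : IsHom gr (2 * -(r : ℤ)) T) (hT' : IsHom gr (2 * -(r : ℤ)) T')
    (hTG : T * G = (q : K) ^ r • (G * T)) (hTG' : T' * G = (q : K) ^ r • (G * T'))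
    (hprim : ((dbl L) ^ (2 * r + 1)) T = 0)
    (hGG : G' * G = ((q : K) ^ n) • 1) {g : ℚ[X]}
    (hu : L ^ r * T = ev G g) (hu' : T' * L ^ r = ev G' g) {s : ℚ}
    (htr : (-1 : K) ^ (n + r) * LinearMap.trace K V (par hgr * ((dbl L) ^ (2 * r)) T * T') = s) :
    0 ≤ s ∧ (s = 0 → T = 0) := by
  classical
  set Kb := AlgebraicClosure K with hKb
  obtain ⟨S, b, hb⟩ := exists_eigenbasis Kb hGs
  set G₁ : Module.End Kb (Kb ⊗[K] V) := G.baseChange Kb with hG₁
  set L₁ : Module.End Kb (Kb ⊗[K] V) := L.baseChange Kb with hL₁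
  set F₁ : Module.End Kb (Kb ⊗[K] V) := Lam.baseChange Kb with hF₁
  set H₁ : Module.End Kb (Kb ⊗[K] V) := (wt hgr n).baseChange Kb with hH₁
  set T₁ : Module.End Kb (Kb ⊗[K] V) := T.baseChange Kb with hT₁
  set T₁' : Module.End Kb (Kb ⊗[K] V) := T'.baseChange Kb with hT₁'
  set G₁' : Module.End Kb (Kb ⊗[K] V) := G'.baseChange Kb with hG₁'
  set ε₁ : Module.End Kb (Kb ⊗[K] V) := (par hgr).baseChange Kb with hε₁
  have t₁ : Sl2 H₁ L₁ F₁ := t.baseChange Kb
  obtain ⟨w, hw1, -, hw3, hw4⟩ := exists_weyl t₁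
  have hinj : Function.Injective (fun i : S => (i : Kb)) := Subtype.coe_injective
  have hqm : algebraMap K Kb (q : K) = (q : Kb) := map_natCast _ _
  have hGe : G₁ * L₁ = (q : Kb) • (L₁ * G₁) := by
    rw [hG₁, hL₁, ← bc_mul, hGL, bc_smul, hqm, bc_mul]
  have hfG : F₁ * G₁ = (q : Kb) • (G₁ * F₁) := by
    rw [hG₁, hF₁, ← bc_mul, hLG, bc_smul, hqm, bc_mul]
  -- the field of algebraic numbers
  set E := algebraicClosure ℚ Kb with hE
  have hEalg : Algebra.IsAlgebraic ℚ E := algebraicClosure.isAlgebraic ℚ Kb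
  obtain ⟨σ₀⟩ : Nonempty (E →ₐ[ℚ] ℂ) := ⟨IsAlgClosed.lift⟩
  set σ : E →+* ℂ := σ₀.toRingHom with hσ
  set j : E →+* Kb := algebraMap E Kb with hj
  -- degrees of the eigenvectors
  have hdeg : ∀ i : S, ∃ d : ℕ, ((proj hgr d).baseChange Kb : Module.End Kb (Kb ⊗[K] V)) (b i) =
      b i := by
    intro i
    have hsum : ∑ d ∈ range (2 * n + 1), ((proj hgr d).baseChange Kb : Module.End Kb _) (b i) =
        b i := by
      have h1 := congrArg (Module.End.baseChangeHom K Kb V) (sum_proj hgr hbd)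
      rw [map_sum, map_one] at h1
      have h2 := congrArg (fun F => F (b i)) h1
      simp only [LinearMap.sum_apply] at h2
      exact h2
    have hex : ∃ d ∈ range (2 * n + 1), ((proj hgr d).baseChange Kb : Module.End Kb _) (b i) ≠ 0 := by
      by_contra h0
      push Not at h0
      rw [Finset.sum_eq_zero h0] at hsum
      exact b.ne_zero i hsum.symm
    obtain ⟨d, -, hd⟩ := hex
    refine ⟨d, ?_⟩
    set p₁ : Module.End Kb (Kb ⊗[K] V) := (proj hgr d).baseChange Kb with hp₁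
    have hpG : p₁ * G₁ = G₁ * p₁ := by
      rw [hp₁, hG₁, ← bc_mul, ← bc_mul, hGgr.proj_comm hgr d]
    have hpp : p₁ * p₁ = p₁ := by rw [hp₁, ← bc_mul, proj_mul_proj]
    obtain ⟨κ, hκ⟩ := eig_unique hb hinj (x := p₁ (b i)) (i := i) (by
      rw [← Module.End.mul_apply, ← hpG, Module.End.mul_apply, hb, map_smul])
    have h1 : (p₁ * p₁) (b i) = p₁ (b i) := by rw [hpp]
    rw [Module.End.mul_apply, hκ, map_smul, hκ, smul_smul] at h1
    have hκ0 : κ ≠ 0 := by
      rintro rfl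
      apply hd
      rw [hκ, zero_smul]
    have h2 := smul_left_injective Kb (b.ne_zero i) h1
    have h3 : κ = 1 := mul_left_cancel₀ hκ0 (by rw [h2, mul_one])
    rw [hκ, h3, one_smul]
  have hkey : ∀ i : S, ∃ (d : ℕ) (x : E), j x = (i : Kb) ∧
      H₁ (b i) = ((d : Kb) - n) • b i ∧ ε₁ (b i) = (-1 : Kb) ^ d • b i ∧
      ‖σ x‖ ^ 2 = (q : ℝ) ^ d := by
    intro i
    obtain ⟨d, hd⟩ := hdeg i
    obtain ⟨P, hP0, hPa, hPz⟩ := hRH d
    have hPi : aeval (i : Kb) P = 0 := by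
      have h1 : ev G P * proj hgr d = 0 := by
        apply LinearMap.ext
        intro a
        rw [Module.End.mul_apply, hPa _ (proj_mem hgr d a), LinearMap.zero_apply]
      have h2 : (ev G₁ P) (b i) = 0 := by
        rw [← hd, ← Module.End.mul_apply, hG₁, ← bc_ev, ← bc_mul, h1, bc_zero,
          LinearMap.zero_apply]
      rw [ev_eq, aeval_eig (hb i)] at h2
      rcases smul_eq_zero.1 h2 with h3 | h3
      · rw [Polynomial.eval_map_algebraMap] at h3; exact h3
      · exact absurd h3 (b.ne_zero i)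
    have halg : (i : Kb) ∈ E := mem_algebraicClosure_iff.2 ⟨P, hP0, hPi⟩
    refine ⟨d, ⟨(i : Kb), halg⟩, rfl, ?_, ?_, ?_⟩
    · have h1 : wt hgr n * proj hgr d = ((node n d : ℚ) : K) • proj hgr d := by
        apply LinearMap.ext
        intro a
        rw [Module.End.mul_apply, wt, scal_apply hgr _ (proj_mem hgr d a), LinearMap.smul_apply]
      have h2 : H₁ (b i) = (algebraMap K Kb ((node n d : ℚ) : K)) •
          ((proj hgr d).baseChange Kb : Module.End Kb (Kb ⊗[K] V)) (b i) := by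
        conv_lhs => rw [← hd]
        rw [← Module.End.mul_apply, hH₁, ← bc_mul, h1, bc_smul, LinearMap.smul_apply]
      rw [h2, hd, map_ratCast, node]
      push_cast; rfl
    · have h1 : par hgr * proj hgr d = (-1 : K) ^ d • proj hgr d := par_mul_proj (h := hgr) d
      have h2 : ε₁ (b i) = (algebraMap K Kb ((-1 : K) ^ d)) •
          ((proj hgr d).baseChange Kb : Module.End Kb (Kb ⊗[K] V)) (b i) := by
        conv_lhs => rw [← hd]
        rw [← Module.End.mul_apply, hε₁, ← bc_mul, h1, bc_smul, LinearMap.smul_apply]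
      rw [h2, hd, map_pow, map_neg, map_one]
    · apply hPz
      have h1 : aeval (⟨(i : Kb), halg⟩ : E) P = 0 := by
        apply (algebraMap E Kb).injective
        rw [map_zero, ← Polynomial.aeval_algebraMap_apply]
        exact hPi
      have h2 : aeval (σ₀ (⟨(i : Kb), halg⟩ : E)) P = 0 := by
        rw [Polynomial.aeval_algHom_apply, h1, map_zero]
      exact h2
  choose d x hx hH hε hσx using hkey
  have hwtT : ∀ {Y : Module.End K V}, IsHom gr (2 * -(r : ℤ)) Y →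
      H₁ * (Y.baseChange Kb : Module.End Kb (Kb ⊗[K] V)) - Y.baseChange Kb * H₁ =
        -((2 * r : ℕ) : Kb) • (Y.baseChange Kb : Module.End Kb (Kb ⊗[K] V)) := by
    intro Y hY
    rw [hH₁, ← bc_mul, ← bc_mul, ← bc_sub, hY.wt_comm hgr n, add_sub_cancel_left, bc_smul]
    congr 1
    rw [map_intCast]
    push_cast
    rw [mul_neg]
    congr 1
    exact (Nat.cast_mul 2 r).symm
  have hcomm : ∀ {Y : Module.End K V}, Y * G = (q : K) ^ r • (G * Y) →
      (Y.baseChange Kb : Module.End Kb (Kb ⊗[K] V)) * G₁ = (q : Kb) ^ r • (G₁ * Y.baseChange Kb) := by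
    intro Y hY
    rw [hG₁, ← bc_mul, hY, bc_smul, map_pow, hqm, bc_mul]
  obtain ⟨τ, hτ1, hτ2, hτ3⟩ := tpos (h := H₁) (e := L₁) (f := F₁) (G := G₁) (G' := G₁') (T := T₁)
    (T' := T₁') (w := w) (ε := ε₁) t₁ hq hGe hfG hb hinj (n := n) (r := r) j σ (lam' := x)
    (fun i => hx i) (fun i => ⟨d i, hH i, hε i, hσx i⟩) hw1 hw3 (hwtT hT) (hcomm hTG)
    (hwtT hT') (hcomm hTG')
    (by rw [hG₁, hG₁', ← bc_mul, hGG, bc_smul, map_pow, hqm, bc_one]) (g := g)
    (by rw [hL₁, hT₁, hG₁, ← bc_pow, ← bc_mul, hu, bc_ev]; rfl)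
    (by rw [hL₁, hT₁', hG₁', ← bc_pow, ← bc_mul, hu', bc_ev]; rfl)
  -- the trace
  have hD : ((dbl L₁) ^ (2 * r)) T₁ = ((2 * r).factorial : Kb) • (w * T₁ * w) := by
    apply hw4 r T₁ (hwtT hT)
    rw [hL₁, hT₁, ← bc_dbl, hprim, bc_zero]
  have htr1 : (s : Kb) = ((2 * r).factorial : Kb) * ∑ i : S, j (τ i) := by
    have h1 := congrArg (algebraMap K Kb) htr
    rw [map_ratCast, map_mul, ← LinearMap.trace_baseChange, map_pow, map_neg, map_one] at h1
    rw [← h1]
    have h2 : LinearMap.trace Kb (Kb ⊗[K] V)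
        ((-1 : Kb) ^ (n + r) • (ε₁ * (w * T₁ * w) * T₁')) = ∑ i : S, j (τ i) := trace_eig b hτ1
    have e2 : ((par hgr * ((dbl L) ^ (2 * r)) T * T' : Module.End K V).baseChange Kb :
        Module.End Kb (Kb ⊗[K] V)) = ((2 * r).factorial : Kb) • (ε₁ * (w * T₁ * w) * T₁') := by
      rw [bc_mul, bc_mul, bc_dbl]
      change ε₁ * ((dbl L₁) ^ (2 * r)) T₁ * T₁' = _
      rw [hD, mul_smul_comm, smul_mul_assoc]
    have e3 : LinearMap.trace Kb (Kb ⊗[K] V)
        (((par hgr * ((dbl L) ^ (2 * r)) T * T' : Module.End K V).baseChange Kb :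
        Module.End Kb (Kb ⊗[K] V))) = ((2 * r).factorial : Kb) *
          LinearMap.trace Kb (Kb ⊗[K] V) (ε₁ * (w * T₁ * w) * T₁') := by
      rw [e2, map_smul, smul_eq_mul]
    rw [← h2, map_smul, smul_eq_mul]
    rw [show LinearMap.trace Kb (Kb ⊗[K] V) (LinearMap.baseChange Kb
      (par hgr * ((dbl L) ^ (2 * r)) T * T')) = ((2 * r).factorial : Kb) *
          LinearMap.trace Kb (Kb ⊗[K] V) (ε₁ * (w * T₁ * w) * T₁') from e3]
    ring
  have hsE : (s : E) = ((2 * r).factorial : E) * ∑ i : S, τ i := by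
    apply j.injective
    rw [map_ratCast, map_mul, map_natCast, map_sum]
    exact htr1
  choose y hy0 hy using hτ2
  have hsC : (s : ℂ) = ((2 * r).factorial : ℂ) * ∑ i : S, (y i : ℂ) := by
    have h1 := congrArg σ hsE
    rw [map_ratCast, map_mul, map_natCast, map_sum] at h1
    rw [h1]
    congr 1
    exact Finset.sum_congr rfl (fun i _ => hy i)
  have hsR : (s : ℝ) = ((2 * r).factorial : ℝ) * ∑ i : S, y i := by exact_mod_cast hsC
  have hsum0 : 0 ≤ ∑ i : S, y i := Finset.sum_nonneg (fun i _ => hy0 i)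
  refine ⟨?_, ?_⟩
  · have : (0 : ℝ) ≤ (s : ℝ) := by rw [hsR]; positivity
    exact_mod_cast this
  · intro hs0
    have h1 : ∑ i : S, y i = 0 := by
      rw [hs0] at hsR
      have h2 : ((2 * r).factorial : ℝ) ≠ 0 := by exact_mod_cast Nat.factorial_ne_zero _
      rcases mul_eq_zero.1 (by rw [← hsR]; simp : ((2 * r).factorial : ℝ) * ∑ i : S, y i = 0)
        with h3 | h3
      · exact absurd h3 h2
      · exact h3
    have h2 := (Finset.sum_eq_zero_iff_of_nonneg (fun i _ => hy0 i)).1 h1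
    have h3 : ∀ i, τ i = 0 := by
      intro i
      apply (map_eq_zero σ).1
      rw [hy i, h2 i (Finset.mem_univ i)]
      simp
    have h4 : T₁ = 0 := hτ3 h3
    apply bc_inj Kb
    rw [bc_zero]
    exact h4

end Pool.Agent.H914
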