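import Pool.Agent.H90.G.S8.H914R2.AProj
import Pool.Agent.H90.G.S8.H914R2.TMain

/-!
# Restriction to a homogeneous subspace
-/

open Finset Polynomial

namespace Pool.Agent.H914

variable {K : Type*} [Field K] {V : Type*} [AddCommGroup V] [Module K V]
  {gr : ℕ → Submodule K V} {S : Submodule K V}

/-- The grading induced on a subspace. -/
def grS (gr : ℕ → Submodule K V) (S : Submodule K V) (i : ℕ) : Submodule K S :=
  (gr i).comap S.subtype

lemma mem_grS {i : ℕ} {x : S} : x ∈ grS gr S i ↔ (x : V) ∈ gr i := Iff.rfl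

lemma isInternal_grS (h : DirectSum.IsInternal gr) {N : ℕ} (hN : ∀ i, N ≤ i → gr i = ⊥)
    (hS : ∀ y ∈ S, ∀ i, proj h i y ∈ S) : DirectSum.IsInternal (grS gr S) := by
  rw [DirectSum.isInternal_submodule_iff_iSupIndep_and_iSup_eq_top]
  constructor
  · intro i
    rw [Submodule.disjoint_def]
    intro x hx hx'
    have h1 : (x : V) ∈ ⨆ j, ⨆ (_ : j ≠ i), gr j := by
      have h2 : S.subtype x ∈ (⨆ j, ⨆ (_ : j ≠ i), grS gr S j).map S.subtype :=
        Submodule.mem_map_of_mem hx'
      rw [Submodule.map_iSup] at h2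
      simp only [Submodule.map_iSup] at h2
      have h3 : (⨆ j, ⨆ (_ : j ≠ i), (grS gr S j).map S.subtype) ≤
          ⨆ j, ⨆ (_ : j ≠ i), gr j := by
        refine iSup_mono fun j => iSup_mono fun _ => ?_
        rintro _ ⟨y, hy, rfl⟩
        exact hy
      exact h3 h2
    have h3 := (h.submodule_iSupIndep) i
    exact Subtype.ext ((Submodule.disjoint_def.1 h3) (x : V) hx h1)
  · rw [eq_top_iff]
    intro x _
    have h1 : (x : V) = ∑ i ∈ range N, proj h i x := by
      have h2 := congrArg (fun F => F (x : V)) (sum_proj h hN)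
      simp only [LinearMap.sum_apply, Module.End.one_apply] at h2
      exact h2.symm
    have h2 : x = ∑ i ∈ range N, (⟨proj h i x, hS x x.2 i⟩ : S) := by
      apply Subtype.ext
      rw [AddSubmonoidClass.coe_finset_sum]
      exact h1
    rw [h2]
    apply Submodule.sum_mem
    intro i _
    exact Submodule.mem_iSup_of_mem i (proj_mem h i x)

lemma scal_coe (h : DirectSum.IsInternal gr) (hS : DirectSum.IsInternal (grS gr S)) (f : ℕ → K)
    (x : S) : (scal hS f x : V) = scal h f x := by
  refine gr_induction hS (p := fun x => (scal hS f x : V) = scal h f x) ?_ ?_ x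
  · intro i a ha
    rw [scal_apply hS f ha, scal_apply h f (mem_grS.1 ha)]
    rfl
  · intro a b ha hb
    rw [map_add, Submodule.coe_add, Submodule.coe_add, map_add, ha, hb]

lemma isHom_restrict {d : ℤ} {A : Module.End K V} (hA : IsHom gr d A) (hS : ∀ y ∈ S, A y ∈ S) :
    IsHom (grS gr S) d (A.restrict hS) := by
  intro i x hx
  by_cases hi : 0 ≤ i
  · lift i to ℕ using hi
    rw [grZ_natCast] at hx
    have h1 := hA i x (by rw [grZ_natCast]; exact hx)
    by_cases h2 : 0 ≤ (i : ℤ) + d
    · obtain ⟨j, hj⟩ := Int.eq_ofNat_of_zero_le h2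
      rw [hj, grZ_natCast] at h1 ⊢
      exact h1
    · rw [grZ_of_neg (by omega)] at h1 ⊢
      rw [Submodule.mem_bot] at h1 ⊢
      exact Subtype.ext h1
  · rw [grZ_of_neg (by omega)] at hx
    rw [(Submodule.mem_bot _).1 hx, map_zero]
    exact Submodule.zero_mem _

lemma restrict_pow {A : Module.End K V} (hS : ∀ y ∈ S, A y ∈ S) (k : ℕ) (x : S) :
    (((A.restrict hS) ^ k) x : V) = (A ^ k) x := by
  induction k generalizing x with
  | zero => simp
  | succ k ih =>
    rw [pow_succ, Module.End.mul_apply, ih, pow_succ, Module.End.mul_apply]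
    rfl

lemma restrict_aeval {A : Module.End K V} (hS : ∀ y ∈ S, A y ∈ S) (p : K[X]) (x : S) :
    (aeval (A.restrict hS) p x : V) = aeval A p x := by
  induction p using Polynomial.induction_on' with
  | add p q hp hq => rw [map_add, map_add, LinearMap.add_apply, LinearMap.add_apply,
      Submodule.coe_add, hp, hq]
  | monomial k c =>
    rw [aeval_monomial, aeval_monomial, Algebra.algebraMap_eq_smul_one,
      Algebra.algebraMap_eq_smul_one, smul_mul_assoc, smul_mul_assoc, one_mul, one_mul,
      LinearMap.smul_apply, LinearMap.smul_apply, Submodule.coe_smul, restrict_pow]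

lemma restrict_dbl {A : Module.End K V} (hA : ∀ y ∈ S, A y ∈ S) (k : ℕ) {T : Module.End K V}
    (hT : ∀ y ∈ S, T y ∈ S) (x : S) :
    (((dbl (A.restrict hA)) ^ k) (T.restrict hT) x : V) = ((dbl A) ^ k) T x := by
  induction k generalizing T with
  | zero => rfl
  | succ k ih =>
    have h1 : ∀ y ∈ S, (dbl A T) y ∈ S := by
      intro y hy
      rw [dbl_apply, LinearMap.add_apply, Module.End.mul_apply, Module.End.mul_apply]
      exact Submodule.add_mem _ (hA _ (hT _ hy)) (hT _ (hA _ hy))
    have h2 : dbl (A.restrict hA) (T.restrict hT) = (dbl A T).restrict h1 := by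
      apply LinearMap.ext
      intro y
      apply Subtype.ext
      rfl
    rw [pow_succ, Module.End.mul_apply, h2, ih h1, pow_succ, Module.End.mul_apply]

end Pool.Agent.H914
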