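import Pool.Agent.H90.G.S8.H914R2.Blocks

/-!
# Extension of the coefficients of a Weil cohomology theory
-/

open CategoryTheory AlgebraicGeometry Finset TensorProduct

universe u v

namespace Pool.Agent.H914

section Alg

variable {K : Type*} [Field K] {A : Type*} [Ring A] [Algebra K A] {B : Type*} [Ring B]
  [Algebra K B] {C : Type*} [Ring C] [Algebra K C] (L : Type*) [Field L] [Algebra K L]

/-- The extension of a linear form. -/
noncomputable def formBase (tr : A →ₗ[K] K) : L ⊗[K] A →ₗ[L] L :=
  (TensorProduct.AlgebraTensorModule.rid K L L).toLinearMap ∘ₗ tr.baseChange L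

variable {L}

lemma formBase_tmul (tr : A →ₗ[K] K) (l : L) (a : A) :
    formBase L tr (l ⊗ₜ a) = l * algebraMap K L (tr a) := by
  rw [formBase, LinearMap.comp_apply, LinearMap.baseChange_tmul, LinearEquiv.coe_coe,
    TensorProduct.AlgebraTensorModule.rid_tmul, Algebra.smul_def, mul_comm]

/-- Induction for elements of an extended subspace. -/
lemma base_induction {p : Submodule K A} {P : L ⊗[K] A → Prop} (h0 : P 0)
    (hadd : ∀ x y, P x → P y → P (x + y)) (h : ∀ (l : L), ∀ a ∈ p, P (l ⊗ₜ a))
    {x : L ⊗[K] A} (hx : x ∈ p.baseChange L) : P x := by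
  rw [Submodule.baseChange_eq_span] at hx
  have key : ∀ x ∈ Submodule.span L ((p.map (TensorProduct.mk K L A 1) : Submodule K _) : Set _),
      ∀ l : L, P (l • x) := by
    intro x hx
    induction hx using Submodule.span_induction with
    | mem x hx =>
      intro l
      obtain ⟨a, ha, rfl⟩ := hx
      rw [TensorProduct.mk_apply, TensorProduct.smul_tmul', smul_eq_mul, mul_one]
      exact h l a ha
    | zero => intro l; rw [smul_zero]; exact h0
    | add x y _ _ hx hy => intro l; rw [smul_add]; exact hadd _ _ (hx l) (hy l)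
    | smul c x _ hx => intro l; rw [smul_smul]; exact hx _
  have := key x hx 1
  rwa [one_smul] at this

lemma tmul_induction {P : L ⊗[K] A → Prop} (h0 : P 0)
    (hadd : ∀ x y, P x → P y → P (x + y)) (h : ∀ (l : L) (a : A), P (l ⊗ₜ a))
    (x : L ⊗[K] A) : P x := by
  induction x using TensorProduct.induction_on with
  | zero => exact h0
  | add x y hx hy => exact hadd _ _ hx hy
  | tmul l a => exact h l a

lemma isInternal_baseChange {gr : ℕ → Submodule K A} (h : DirectSum.IsInternal gr) {N : ℕ}
    (hN : ∀ i, N ≤ i → gr i = ⊥) :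
    DirectSum.IsInternal (fun i => (gr i).baseChange L) := by
  set P : ℕ → Module.End L (L ⊗[K] A) := fun i => (proj h i).baseChange L with hP
  have hPsame : ∀ i, ∀ x ∈ (gr i).baseChange L, P i x = x := by
    intro i x hx
    refine base_induction (P := fun x => P i x = x) (map_zero _) ?_ ?_ hx
    · intro x y hx hy; rw [map_add, hx, hy]
    · intro l a ha
      rw [hP]
      beta_reduce
      rw [LinearMap.baseChange_tmul, proj_same h ha]
  have hPne : ∀ i j, j ≠ i → ∀ x ∈ (gr j).baseChange L, P i x = 0 := by
    intro i j hij x hx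
    refine base_induction (P := fun x => P i x = 0) (map_zero _) ?_ ?_ hx
    · intro x y hx hy; rw [map_add, hx, hy, add_zero]
    · intro l a ha
      rw [hP]
      beta_reduce
      rw [LinearMap.baseChange_tmul, proj_ne h ha hij, tmul_zero]
  rw [DirectSum.isInternal_submodule_iff_iSupIndep_and_iSup_eq_top]
  constructor
  · intro i
    rw [Submodule.disjoint_def]
    intro x hx hx'
    have h1 : ∀ x ∈ ⨆ j, ⨆ (_ : j ≠ i), (gr j).baseChange L, P i x = 0 := by
      intro x hx
      have h2 : (⨆ j, ⨆ (_ : j ≠ i), (gr j).baseChange L) ≤ LinearMap.ker (P i) := by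
        apply iSup_le
        intro j
        apply iSup_le
        intro hj x hx
        exact hPne i j hj x hx
      exact h2 hx
    rw [← hPsame i x hx, h1 x hx']
  · rw [eq_top_iff]
    intro x _
    refine tmul_induction (P := fun x => x ∈ ⨆ i, (gr i).baseChange L)
      (Submodule.zero_mem _) (fun _ _ => Submodule.add_mem _) ?_ x
    intro l a
    refine gr_induction h (p := fun a => (l ⊗ₜ[K] a : L ⊗[K] A) ∈ ⨆ i, (gr i).baseChange L)
      ?_ ?_ a
    · intro i a ha
      exact Submodule.mem_iSup_of_mem i (Submodule.tmul_mem_baseChange_of_mem l ha)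
    · intro a b ha hb
      rw [tmul_add]
      exact Submodule.add_mem _ ha hb

/-- Nondegeneracy after extension of scalars. -/
lemma nondeg_base [Module.Finite K A] {tr : A →ₗ[K] K} (h : ∀ a, (∀ b, tr (a * b) = 0) → a = 0)
    (x : L ⊗[K] A) (hx : ∀ y, formBase L tr (x * y) = 0) : x = 0 := by
  set φ : A →ₗ[K] Module.Dual K A := (LinearMap.mul K A).compr₂ tr with hφ
  have hφa : ∀ a b, φ a b = tr (a * b) := fun a b => rfl
  have hinj : Function.Injective φ := by
    rw [← LinearMap.ker_eq_bot, LinearMap.ker_eq_bot']
    intro a ha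
    apply h
    intro b
    rw [← hφa, ha]; rfl
  have hdim : Module.finrank K A = Module.finrank K (Module.Dual K A) :=
    (Subspace.dual_finrank_eq).symm
  have hbij : Function.Bijective φ :=
    ⟨hinj, (LinearMap.injective_iff_surjective_of_finrank_eq_finrank hdim).1 hinj⟩
  set Φ := LinearEquiv.ofBijective φ hbij with hΦ
  set b := Module.finBasis K A with hb
  set a : Module.Basis _ K A := b.dualBasis.map Φ.symm with ha
  have hab : ∀ i j, tr (a i * b j) = if i = j then 1 else 0 := by
    intro i j
    rw [← hφa]
    have h1 : φ (a i) = b.dualBasis i := by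
      rw [ha, Module.Basis.map_apply]
      exact Φ.apply_symm_apply _
    rw [h1, Module.Basis.dualBasis_apply_self]
    by_cases hij : i = j
    · subst hij; simp
    · rw [if_neg hij, if_neg (Ne.symm hij)]
  set aL := a.baseChange L with haL
  have hx1 : x = ∑ i, (aL.repr x i) • ((1 : L) ⊗ₜ[K] a i) := by
    conv_lhs => rw [← aL.sum_repr x]
    apply Finset.sum_congr rfl
    intro i _
    rw [haL, Module.Basis.baseChange_apply]
  have hx2 : ∀ j, aL.repr x j = 0 := by
    intro j
    have h1 := hx ((1 : L) ⊗ₜ b j)
    rw [hx1, Finset.sum_mul, map_sum, Finset.sum_eq_single j] at h1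
    · rw [smul_mul_assoc, map_smul, Algebra.TensorProduct.tmul_mul_tmul, formBase_tmul, hab,
        if_pos rfl, map_one] at h1
      simpa using h1
    · intro i _ hij
      rw [smul_mul_assoc, map_smul, Algebra.TensorProduct.tmul_mul_tmul, formBase_tmul, hab,
        if_neg hij, map_zero, mul_zero, smul_zero]
    · intro h; exact absurd (Finset.mem_univ j) h
  rw [hx1]
  apply Finset.sum_eq_zero
  intro i _
  rw [hx2, zero_smul]

lemma IsPoincareAlgebra.baseChange {gr : ℕ → Submodule K A} {n : ℕ} {tr : A →ₗ[K] K}
    (h : IsPoincareAlgebra gr n tr) :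
    IsPoincareAlgebra (fun i => (gr i).baseChange L) n (formBase L tr) where
  finite := by
    have := h.finite
    infer_instance
  isInternal := isInternal_baseChange h.isInternal (N := 2 * n + 1)
    (fun i hi => h.gr_eq_bot i (by omega))
  one_mem := by
    rw [Algebra.TensorProduct.one_def]
    exact Submodule.tmul_mem_baseChange_of_mem 1 h.one_mem
  mul_mem := by
    intro i j x y hx hy
    refine base_induction (P := fun x => x * y ∈ (gr (i + j)).baseChange L) ?_ ?_ ?_ hx
    · rw [zero_mul]; exact Submodule.zero_mem _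
    · intro x x' hx hx'; rw [add_mul]; exact Submodule.add_mem _ hx hx'
    · intro l a ha
      refine base_induction (P := fun y => (l ⊗ₜ[K] a : L ⊗[K] A) * y ∈
        (gr (i + j)).baseChange L) ?_ ?_ ?_ hy
      · rw [mul_zero]; exact Submodule.zero_mem _
      · intro x x' hx hx'; rw [mul_add]; exact Submodule.add_mem _ hx hx'
      · intro m b hb
        rw [Algebra.TensorProduct.tmul_mul_tmul]
        exact Submodule.tmul_mem_baseChange_of_mem _ (h.mul_mem ha hb)
  comm := by
    intro i j x y hx hy
    refine base_induction (P := fun x => x * y = (-1 : L) ^ (i * j) • (y * x)) ?_ ?_ ?_ hx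
    · rw [zero_mul, mul_zero, smul_zero]
    · intro x x' hx hx'; rw [add_mul, mul_add, smul_add, hx, hx']
    · intro l a ha
      refine base_induction (P := fun y => (l ⊗ₜ[K] a : L ⊗[K] A) * y =
        (-1 : L) ^ (i * j) • (y * (l ⊗ₜ[K] a : L ⊗[K] A))) ?_ ?_ ?_ hy
      · rw [zero_mul, mul_zero, smul_zero]
      · intro x x' hx hx'; rw [add_mul, mul_add, smul_add, hx, hx']
      · intro m b hb
        rw [Algebra.TensorProduct.tmul_mul_tmul, Algebra.TensorProduct.tmul_mul_tmul,
          h.comm ha hb, TensorProduct.smul_tmul', mul_comm l m]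
        rcases Nat.even_or_odd (i * j) with he | ho
        · rw [he.neg_one_pow, he.neg_one_pow, one_smul, one_smul]
        · rw [ho.neg_one_pow, ho.neg_one_pow, neg_one_smul, neg_one_smul, tmul_neg, neg_tmul]
  gr_zero := by
    rw [h.gr_zero, Submodule.baseChange_span, Set.image_singleton]
    rfl
  gr_eq_bot := by
    intro i hi
    rw [h.gr_eq_bot i hi, Submodule.baseChange_bot]
  tr_eq_zero := by
    intro i x hx hi
    refine base_induction (P := fun x => formBase L tr x = 0) (map_zero _) ?_ ?_ hx
    · intro x y hx hy; rw [map_add, hx, hy, add_zero]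
    · intro l a ha
      rw [formBase_tmul, h.tr_eq_zero ha hi, map_zero, mul_zero]
  nondeg := by
    have := h.finite
    exact nondeg_base h.nondeg

lemma IsPullPush.baseChange {grA : ℕ → Submodule K A} {grB : ℕ → Submodule K B}
    {trA : A →ₗ[K] K} {trB : B →ₗ[K] K} {f : B →ₐ[K] A} {g : A →ₗ[K] B}
    (h : IsPullPush grA grB trA trB f g) :
    IsPullPush (fun i => (grA i).baseChange L) (fun i => (grB i).baseChange L)
      (formBase L trA) (formBase L trB)
      (Algebra.TensorProduct.map (AlgHom.id L L) f) (g.baseChange L) where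
  map_mem := by
    intro i x hx
    refine base_induction (P := fun x => Algebra.TensorProduct.map (AlgHom.id L L) f x ∈
      (grA i).baseChange L) ?_ ?_ ?_ hx
    · rw [map_zero]; exact Submodule.zero_mem _
    · intro x y hx hy; rw [map_add]; exact Submodule.add_mem _ hx hy
    · intro l b hb
      rw [Algebra.TensorProduct.map_tmul]
      exact Submodule.tmul_mem_baseChange_of_mem _ (h.map_mem hb)
  tr_push := by
    intro x y
    refine tmul_induction (P := fun x => formBase L trB ((g.baseChange L) x * y) =
      formBase L trA (x * Algebra.TensorProduct.map (AlgHom.id L L) f y)) ?_ ?_ ?_ x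
    · rw [map_zero, zero_mul, zero_mul, map_zero, map_zero]
    · intro x x' hx hx'; rw [map_add, add_mul, add_mul, map_add, map_add, hx, hx']
    · intro l a
      refine tmul_induction (P := fun y => formBase L trB ((g.baseChange L) (l ⊗ₜ[K] a) * y) =
        formBase L trA ((l ⊗ₜ[K] a : L ⊗[K] A) *
          Algebra.TensorProduct.map (AlgHom.id L L) f y)) ?_ ?_ ?_ y
      · rw [map_zero, mul_zero, mul_zero, map_zero, map_zero]
      · intro x x' hx hx'; rw [map_add, mul_add, mul_add, map_add, map_add, hx, hx']
      · intro m b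
        rw [LinearMap.baseChange_tmul, Algebra.TensorProduct.tmul_mul_tmul,
          Algebra.TensorProduct.map_tmul, AlgHom.id_apply, Algebra.TensorProduct.tmul_mul_tmul,
          formBase_tmul, formBase_tmul, h.tr_push]

lemma IsKunneth.baseChange {p : A →ₐ[K] C} {q : B →ₐ[K] C} {trA : A →ₗ[K] K} {trB : B →ₗ[K] K}
    {trC : C →ₗ[K] K} (h : IsKunneth p q trA trB trC) :
    IsKunneth (Algebra.TensorProduct.map (AlgHom.id L L) p)
      (Algebra.TensorProduct.map (AlgHom.id L L) q) (formBase L trA) (formBase L trB)
      (formBase L trC) where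
  bijective := by
    set κ := LinearEquiv.ofBijective _ h.bijective with hκ
    set κL := κ.baseChange K L _ _ with hκL
    set D := TensorProduct.AlgebraTensorModule.distribBaseChange K L A B with hD
    have h1 : kunnethMap (Algebra.TensorProduct.map (AlgHom.id L L) p)
        (Algebra.TensorProduct.map (AlgHom.id L L) q) = (D.symm.trans κL).toLinearMap := by
      apply TensorProduct.ext'
      intro x y
      refine tmul_induction (P := fun x => kunnethMap (Algebra.TensorProduct.map (AlgHom.id L L) p)
        (Algebra.TensorProduct.map (AlgHom.id L L) q) (x ⊗ₜ[L] y) =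
        (D.symm.trans κL).toLinearMap (x ⊗ₜ[L] y)) ?_ ?_ ?_ x
      · rw [zero_tmul, map_zero, map_zero]
      · intro x x' hx hx'; rw [add_tmul, map_add, map_add, hx, hx']
      · intro l a
        refine tmul_induction (P := fun y => kunnethMap
          (Algebra.TensorProduct.map (AlgHom.id L L) p)
          (Algebra.TensorProduct.map (AlgHom.id L L) q) ((l ⊗ₜ[K] a) ⊗ₜ[L] y) =
          (D.symm.trans κL).toLinearMap ((l ⊗ₜ[K] a) ⊗ₜ[L] y)) ?_ ?_ ?_ y
        · rw [tmul_zero, map_zero, map_zero]
        · intro x x' hx hx'; rw [tmul_add, map_add, map_add, hx, hx']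
        · intro m b
          have e1 : D.symm ((l ⊗ₜ[K] a) ⊗ₜ[L] (m ⊗ₜ[K] b)) = (l * m) ⊗ₜ[K] (a ⊗ₜ[K] b) := by
            rw [hD, TensorProduct.AlgebraTensorModule.distribBaseChange_symm_tmul]
          rw [LinearEquiv.coe_toLinearMap, LinearEquiv.trans_apply, e1, hκL,
            LinearEquiv.baseChange_tmul, hκ]
          simp only [kunnethMap, TensorProduct.lift.tmul, LinearMap.compl₁₂_apply,
            LinearMap.mul_apply', AlgHom.toLinearMap_apply, LinearEquiv.ofBijective_apply,
            Algebra.TensorProduct.map_tmul, AlgHom.id_apply,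
            Algebra.TensorProduct.tmul_mul_tmul]
    rw [h1]
    exact (D.symm.trans κL).bijective
  tr_prod := by
    intro x y
    refine tmul_induction (P := fun x => formBase L trC
      (Algebra.TensorProduct.map (AlgHom.id L L) p x *
        Algebra.TensorProduct.map (AlgHom.id L L) q y) = formBase L trA x * formBase L trB y)
      ?_ ?_ ?_ x
    · rw [map_zero, zero_mul, map_zero, map_zero, zero_mul]
    · intro x x' hx hx'; rw [map_add, add_mul, map_add, map_add, add_mul, hx, hx']
    · intro l a
      refine tmul_induction (P := fun y => formBase L trC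
        (Algebra.TensorProduct.map (AlgHom.id L L) p (l ⊗ₜ[K] a) *
        Algebra.TensorProduct.map (AlgHom.id L L) q y) =
          formBase L trA (l ⊗ₜ[K] a) * formBase L trB y) ?_ ?_ ?_ y
      · rw [map_zero, mul_zero, map_zero, map_zero, mul_zero]
      · intro x x' hx hx'; rw [map_add, mul_add, map_add, map_add, mul_add, hx, hx']
      · intro m b
        rw [Algebra.TensorProduct.map_tmul, Algebra.TensorProduct.map_tmul, AlgHom.id_apply,
          AlgHom.id_apply, Algebra.TensorProduct.tmul_mul_tmul, formBase_tmul, formBase_tmul,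
          formBase_tmul, h.tr_prod, map_mul]
        ring

end Alg

end Pool.Agent.H914
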